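import Pool.Agent.StarkU.RamP

/-!
# The closure of an abelian extension of a quadratic field
-/

set_option autoImplicit false

open NumberField Module Pool.Agent.StarkRQ Pool.Agent.StarkU
open scoped Pointwise

namespace Pool.Agent.EvM

variable {K H M : Type} [Field K] [NumberField K] [Field H] [NumberField H] [Field M]
  [NumberField M] [Algebra K H] [Algebra K M] [Algebra H M] [IsScalarTower K H M] [IsGalois ℚ M]

/-- `fixG K M` is normal -/
theorem normal_fixG [IsGalois K M] (hK : finrank ℚ K = 2) : (fixG K M).Normal :=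
  Subgroup.normal_of_index_eq_two (fixG_index hK)

theorem abelian_closure [IsAbelianGalois K H] (hK : finrank ℚ K = 2)
    (hcl : ∀ g : Gal(M/ℚ), (∀ (γ : Gal(M/ℚ)) (y : H),
      g (γ (algebraMap H M y)) = γ (algebraMap H M y)) → g = 1) : IsAbelianGalois K M := by
  have hG : IsGalois K M := IsGalois.tower_top_of_isGalois ℚ K M
  have hN := normal_fixG (K := K) (M := M) hK
  have hres : ∀ (s : Gal(M/K)) (y : H), algebraMap H M (AlgEquiv.restrictNormalHom H s y) =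
      s (algebraMap H M y) := fun s y => AlgEquiv.restrictNormal_commutes s H y
  have key : ∀ g h : Gal(M/K), toG K M (g * h * g⁻¹ * h⁻¹) = 1 := by
    intro g h
    refine hcl _ fun γ y => ?_
    obtain ⟨s, hs⟩ := hN.conj_mem (toG K M g) ⟨g, rfl⟩ γ⁻¹
    obtain ⟨t, ht⟩ := hN.conj_mem (toG K M h) ⟨h, rfl⟩ γ⁻¹
    have h1 : toG K M (s * t * s⁻¹ * t⁻¹) = γ⁻¹ * toG K M (g * h * g⁻¹ * h⁻¹) * γ := by
      simp only [map_mul, map_inv, hs, ht]
      group
    have h2 : toG K M (s * t * s⁻¹ * t⁻¹) (algebraMap H M y) = algebraMap H M y := by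
      rw [toG_apply, ← hres]
      have h3 : AlgEquiv.restrictNormalHom H (s * t * s⁻¹ * t⁻¹) = (1 : Gal(H/K)) := by
        simp only [map_mul, map_inv]
        rw [IsMulCommutative.is_comm.comm (AlgEquiv.restrictNormalHom (F := K) H s)
          (AlgEquiv.restrictNormalHom (F := K) H t)]
        group
      rw [h3]
      rfl
    rw [h1] at h2
    have h4 := congrArg γ h2
    simp only [AlgEquiv.mul_apply] at h4
    rw [← AlgEquiv.mul_apply γ γ⁻¹, mul_inv_cancel, AlgEquiv.one_apply] at h4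
    exact h4
  refine { hG with is_comm := ⟨fun g h => ?_⟩ }
  have h1 : g * h * g⁻¹ * h⁻¹ = 1 := toG_injective (by rw [key, map_one])
  rw [mul_inv_eq_one, mul_inv_eq_iff_eq_mul] at h1
  exact h1

theorem not_dvd_discr_closure [IsAbelianGalois K H] (hK : finrank ℚ K = 2)
    (hcl : ∀ g : Gal(M/ℚ), (∀ (γ : Gal(M/ℚ)) (y : H),
      g (γ (algebraMap H M y)) = γ (algebraMap H M y)) → g = 1) {p : ℕ} (hp : p.Prime)
    (hur : ∀ 𝔮 : Ideal (𝓞 K), 𝔮.IsPrime → (p : 𝓞 K) ∈ 𝔮 → UnrAt H 𝔮)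
    (hin : ∀ Q : Ideal (𝓞 M), Q.IsPrime → (p : 𝓞 M) ∈ Q → ∀ t, InI Q t → t ∈ fixG K M) :
    ¬ (p : ℤ) ∣ discr M := by
  intro hd
  have hG : IsGalois K M := IsGalois.tower_top_of_isGalois ℚ K M
  have hN := normal_fixG (K := K) (M := M) hK
  obtain ⟨Q, hQp, hpQ⟩ := exists_prime_over (M := M) hp
  obtain ⟨t, ht, ht1⟩ := exists_inI_ne_one hp hpQ hd
  apply ht1
  refine hcl t fun γ y => ?_
  have h1 : InI (γ⁻¹ • Q) (γ⁻¹ * t * γ⁻¹⁻¹) := ht.conj γ⁻¹
  have h2 : γ⁻¹ * t * γ⁻¹⁻¹ ∈ fixG K M := hN.conj_mem t (hin Q hQp hpQ t ht) γ⁻¹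
  have hpQ' : (p : 𝓞 M) ∈ γ⁻¹ • Q := by
    rw [Ideal.mem_inv_pointwise_smul_iff, show γ • (p : 𝓞 M) = p from
      map_natCast (MulSemiringAction.toRingHom Gal(M/ℚ) (𝓞 M) γ) p]
    exact hpQ
  have hQ'p : (γ⁻¹ • Q).IsPrime := inferInstance
  have h3 := fix_of_inI (K := K) (H := H) hQ'p (prime_ne_bot hp hpQ')
    (hur _ (Ideal.comap_isPrime _ _) (by simpa [Ideal.mem_comap] using hpQ')) h1 h2 y
  rw [AlgEquiv.mul_apply, AlgEquiv.mul_apply, inv_inv] at h3
  have h4 := congrArg γ h3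
  rw [← AlgEquiv.mul_apply γ γ⁻¹, mul_inv_cancel, AlgEquiv.one_apply] at h4
  exact h4

end Pool.Agent.EvM
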