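import Pool.Agent.EvM.Gen

/-!
# Ideal classes of ramified ideals
-/

set_option autoImplicit false

open NumberField Module Pool.Agent.StarkRQ Pool.Agent.StarkU
open scoped Pointwise nonZeroDivisors

namespace Pool.Agent.EvM

variable {K : Type} [Field K] [NumberField K] {d : ℤ}

theorem smul_span' (s : {x : 𝓞 K // x * x = (d : 𝓞 K)}) {τ : Gal(K/ℚ)}
    (hτ : τ • (s : 𝓞 K) = - (s : 𝓞 K)) (z : ℤ√d) :
    τ • Ideal.span {toO s z} = Ideal.span {toO s (star z)} := by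
  rw [← smul_toO' s hτ z]
  ext x
  rw [Ideal.mem_pointwise_smul_iff_inv_smul_mem, Ideal.mem_span_singleton, Ideal.mem_span_singleton]
  constructor
  · rintro ⟨y, hy⟩
    refine ⟨τ • y, ?_⟩
    rw [← smul_mul', ← hy, smul_inv_smul]
  · rintro ⟨y, rfl⟩
    refine ⟨τ⁻¹ • y, ?_⟩
    rw [smul_mul', inv_smul_smul]

/-- an ideal with rational square is fixed -/
theorem amb_fixed (s : {x : 𝓞 K // x * x = (d : 𝓞 K)}) {τ : Gal(K/ℚ)}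
    (hτ : τ • (s : 𝓞 K) = - (s : 𝓞 K)) {b : ℤ} {𝔟 : Ideal (𝓞 K)}
    (h𝔟 : 𝔟 * 𝔟 = Ideal.span {(b : 𝓞 K)}) : τ • 𝔟 = 𝔟 := by
  have h1 : (τ • 𝔟) * (τ • 𝔟) = 𝔟 * 𝔟 := by
    rw [← smul_mul', h𝔟]
    have h2 := smul_span' s hτ (b : ℤ√d)
    have h3 : star (b : ℤ√d) = b := Zsqrtd.ext (by simp) (by simp)
    rw [h3] at h2
    simpa using h2
  rw [← pow_two, ← pow_two] at h1
  have h3 : τ • 𝔟 ∣ 𝔟 := (UniqueFactorizationMonoid.pow_dvd_pow_iff_dvd two_ne_zero).1 h1.dvd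
  have h4 : 𝔟 ∣ τ • 𝔟 := (UniqueFactorizationMonoid.pow_dvd_pow_iff_dvd
    two_ne_zero).1 h1.symm.dvd
  exact dvd_antisymm h3 h4

theorem absNorm_amb (hK : finrank ℚ K = 2) {b : ℤ} {𝔟 : Ideal (𝓞 K)}
    (h𝔟 : 𝔟 * 𝔟 = Ideal.span {(b : 𝓞 K)}) : Ideal.absNorm 𝔟 = b.natAbs := by
  have h1 := congrArg Ideal.absNorm h𝔟
  rw [map_mul, absNorm_int hK, ← pow_two] at h1
  exact Nat.pow_left_injective two_ne_zero h1

/-- coordinates of a generator of `𝔞 𝔟` -/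
theorem amb_coord (hK : finrank ℚ K = 2) (hsf : Squarefree d) (hd : ¬ IsSquare d)
    (s : {x : 𝓞 K // x * x = (d : 𝓞 K)}) {b b' : ℤ} (hb : d = b * b') {𝔞 𝔟 : Ideal (𝓞 K)}
    (h𝔟 : 𝔟 * 𝔟 = Ideal.span {(b : 𝓞 K)}) {z : ℤ√d} (hz : 𝔞 * 𝔟 = Ideal.span {toO s z}) :
    ∃ z₁ : ℤ, z.re = b * z₁ ∧ z.norm = b * (b * z₁ * z₁ - b' * z.im * z.im) ∧
      (b * z₁ * z₁ - b' * z.im * z.im).natAbs = Ideal.absNorm 𝔞 := by
  have hb0 : b ≠ 0 := by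
    rintro rfl
    rw [zero_mul] at hb
    exact hd ⟨0, by rw [hb]; rfl⟩
  have h1 := congrArg Ideal.absNorm hz
  rw [map_mul, absNorm_amb hK h𝔟, absNorm_toO hK hd s] at h1
  have h2 : b ∣ z.norm := by
    rw [← Int.natAbs_dvd_natAbs, ← h1]
    exact dvd_mul_left _ _
  have h3 : b ∣ z.re ^ 2 := by
    rw [Zsqrtd.norm_def] at h2
    have h4 : b ∣ d * z.im * z.im := ⟨b' * z.im * z.im, by linear_combination z.im * z.im * hb⟩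
    have h5 := h2.add h4
    rw [sub_add_cancel] at h5
    rw [pow_two]
    exact h5
  have hbsf : Squarefree b := hsf.squarefree_of_dvd ⟨b', hb⟩
  obtain ⟨z₁, hz₁⟩ := (hbsf.dvd_pow_iff_dvd two_ne_zero).1 h3
  have h6 : z.norm = b * (b * z₁ * z₁ - b' * z.im * z.im) := by
    rw [Zsqrtd.norm_def, hz₁]
    linear_combination (-z.im * z.im) * hb
  refine ⟨z₁, hz₁, h6, ?_⟩
  rw [h6, Int.natAbs_mul, mul_comm] at h1
  exact (Nat.eq_of_mul_eq_mul_left (Int.natAbs_pos.2 hb0) h1).symm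

/-- the product with the conjugate -/
theorem amb_mul (hd : ¬ IsSquare d) (s : {x : 𝓞 K // x * x = (d : 𝓞 K)}) {τ : Gal(K/ℚ)}
    (hτ : τ • (s : 𝓞 K) = - (s : 𝓞 K)) {b b' : ℤ} (hb : d = b * b') {𝔞 𝔞' 𝔟 : Ideal (𝓞 K)}
    (h𝔟 : 𝔟 * 𝔟 = Ideal.span {(b : 𝓞 K)}) {z z' y : ℤ√d} (hz : 𝔞 * 𝔟 = Ideal.span {toO s z})
    (hz' : 𝔞' * 𝔟 = Ideal.span {toO s z'}) (hy : z * star z' = (b : ℤ√d) * y) :
    𝔞 * (τ • 𝔞') = Ideal.span {toO s y} := by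
  have hb0 : b ≠ 0 := by
    rintro rfl
    rw [zero_mul] at hb
    exact hd ⟨0, by rw [hb]; rfl⟩
  have hb0' : Ideal.span {(b : 𝓞 K)} ≠ 0 := by
    rw [Ideal.zero_eq_bot, Ne, Ideal.span_singleton_eq_bot]
    exact_mod_cast hb0
  apply mul_left_cancel₀ hb0'
  have h1 : τ • (𝔞' * 𝔟) = Ideal.span {toO s (star z')} := by
    rw [hz', smul_span' s hτ]
  rw [smul_mul', amb_fixed s hτ h𝔟] at h1
  calc Ideal.span {(b : 𝓞 K)} * (𝔞 * (τ • 𝔞')) = (𝔞 * 𝔟) * ((τ • 𝔞') * 𝔟) := by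
        rw [← h𝔟]
        ring
    _ = Ideal.span {toO s z} * Ideal.span {toO s (star z')} := by rw [hz, h1]
    _ = Ideal.span {toO s (z * star z')} := by
        rw [Ideal.span_singleton_mul_span_singleton, map_mul]
    _ = Ideal.span {(b : 𝓞 K)} * Ideal.span {toO s y} := by
        rw [hy, map_mul, ← Ideal.span_singleton_mul_span_singleton, map_intCast]

/-- the square -/
theorem amb_sq (hd : ¬ IsSquare d) (s : {x : 𝓞 K // x * x = (d : 𝓞 K)})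
    {b b' : ℤ} (hb : d = b * b') {𝔞 𝔟 : Ideal (𝓞 K)}
    (h𝔟 : 𝔟 * 𝔟 = Ideal.span {(b : 𝓞 K)}) {z y : ℤ√d} (hz : 𝔞 * 𝔟 = Ideal.span {toO s z})
    (hy : z * z = (b : ℤ√d) * y) : 𝔞 * 𝔞 = Ideal.span {toO s y} := by
  have hb0 : b ≠ 0 := by
    rintro rfl
    rw [zero_mul] at hb
    exact hd ⟨0, by rw [hb]; rfl⟩
  have hb0' : Ideal.span {(b : 𝓞 K)} ≠ 0 := by
    rw [Ideal.zero_eq_bot, Ne, Ideal.span_singleton_eq_bot]
    exact_mod_cast hb0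
  apply mul_left_cancel₀ hb0'
  calc Ideal.span {(b : 𝓞 K)} * (𝔞 * 𝔞) = (𝔞 * 𝔟) * (𝔞 * 𝔟) := by
        rw [← h𝔟]
        ring
    _ = Ideal.span {toO s (z * z)} := by
        rw [hz, Ideal.span_singleton_mul_span_singleton, map_mul]
    _ = Ideal.span {(b : 𝓞 K)} * Ideal.span {toO s y} := by
        rw [hy, map_mul, ← Ideal.span_singleton_mul_span_singleton, map_intCast]

/-- The class group is generated by (the classes of) ramified ideals: every class contains an ideal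
`𝔟` with `𝔟 ^ 2 = (b)`, `b ∣ d`. -/
def RamifiedClasses (d : ℤ) (K : Type) [Field K] [NumberField K] : Prop :=
  ∀ C : ClassGroup (𝓞 K), ∃ (b : ℤ) (𝔟 : (Ideal (𝓞 K))⁰), b ∣ d ∧
    (𝔟 : Ideal (𝓞 K)) ^ 2 = Ideal.span {(b : 𝓞 K)} ∧ ClassGroup.mk0 𝔟 = C

/-- generators -/
theorem exists_gen_amb (hK : finrank ℚ K = 2) (hsf : Squarefree d) (hd : ¬ IsSquare d)
    (s : {x : 𝓞 K // x * x = (d : 𝓞 K)}) (hcl : RamifiedClasses d K)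
    (h5 : d % 8 = 5 → ∃ a b : ℤ, Odd a ∧ (a ^ 2 - d * b ^ 2 = 4 ∨ a ^ 2 - d * b ^ 2 = -4)) :
    ∃ (b : ClassGroup (𝓞 K) → ℤ) (𝔟 : ClassGroup (𝓞 K) → Ideal (𝓞 K))
      (C : Ideal (𝓞 K) → ClassGroup (𝓞 K)), (∀ c, b c ∣ d) ∧
      (∀ c, 𝔟 c * 𝔟 c = Ideal.span {(b c : 𝓞 K)}) ∧
      ∀ 𝔞 : Ideal (𝓞 K), (Ideal.absNorm 𝔞).Coprime 2 →
        ∃ z : ℤ√d, 𝔞 * 𝔟 (C 𝔞) = Ideal.span {toO s z} := by
  classical
  choose b 𝔟 h1 h2 h3 using hcl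
  refine ⟨b, fun c => (𝔟 c : Ideal (𝓞 K)), fun 𝔞 => if h : 𝔞 ∈ (Ideal (𝓞 K))⁰ then
    (ClassGroup.mk0 ⟨𝔞, h⟩)⁻¹ else 1, h1, fun c => by rw [← pow_two, h2], fun 𝔞 h𝔞 => ?_⟩
  have h0 : 𝔞 ∈ (Ideal (𝓞 K))⁰ := by
    rw [mem_nonZeroDivisors_iff_ne_zero]
    rintro rfl
    rw [Ideal.zero_eq_bot, Ideal.absNorm_bot] at h𝔞
    norm_num at h𝔞
  simp only [dif_pos h0]
  set c := (ClassGroup.mk0 ⟨𝔞, h0⟩)⁻¹ with hc
  have h4 : (𝔞 * (𝔟 c : Ideal (𝓞 K))).IsPrincipal := by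
    have h5 : ClassGroup.mk0 ((⟨𝔞, h0⟩ : (Ideal (𝓞 K))⁰) * 𝔟 c) = 1 := by
      rw [map_mul, h3, hc, mul_inv_cancel]
    exact (ClassGroup.mk0_eq_one_iff (mul_mem h0 (𝔟 c).2)).1 h5
  refine exists_gen hK hsf hd s h5 h4 ?_
  rcases Int.emod_two_eq_zero_or_one d with hd2 | hd2
  · exact Or.inr (Or.inl hd2)
  · left
    have h7 : Ideal.absNorm (𝔟 c : Ideal (𝓞 K)) = (b c).natAbs :=
      absNorm_amb hK (by rw [← pow_two]; exact h2 c)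
    rw [map_mul, h7]
    refine Nat.Coprime.mul_left h𝔞 ?_
    obtain ⟨b', hb'⟩ := h1 c
    rw [Nat.coprime_comm, Nat.Prime.coprime_iff_not_dvd Nat.prime_two]
    intro h
    have h6 : (2 : ℤ) ∣ b c := by
      rw [← Int.natCast_dvd] at h
      exact h
    have h8 : (2 : ℤ) ∣ d := h6.trans (h1 c)
    omega

end Pool.Agent.EvM
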