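import Pool.Agent.StarkU.ConjU
import Pool.Agent.StarkU.RamP

/-!
# Quadratic fields: the order `ℤ[√d]`
-/

set_option autoImplicit false

open NumberField Module Pool.Agent.StarkRQ Pool.Agent.StarkU
open scoped Pointwise

namespace Pool.Agent.EvM

section one

variable {K : Type} [Field K] [NumberField K] {d : ℤ}

/-- the homomorphism `ℤ[√d] → 𝓞 K` given by a square root of `d` -/
noncomputable def toO (s : {x : 𝓞 K // x * x = (d : 𝓞 K)}) : ℤ√d →+* 𝓞 K := Zsqrtd.lift s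

theorem toO_apply (s : {x : 𝓞 K // x * x = (d : 𝓞 K)}) (z : ℤ√d) :
    toO s z = (z.re : 𝓞 K) + (z.im : 𝓞 K) * (s : 𝓞 K) := by
  rfl

theorem exists_sqrt {x : K} (hx : x ^ 2 = (d : K)) :
    ∃ s : {x : 𝓞 K // x * x = (d : 𝓞 K)}, ((s : 𝓞 K) : K) = x := by
  have h1 : IsIntegral ℤ x := by
    refine ⟨Polynomial.X ^ 2 - Polynomial.C d, Polynomial.monic_X_pow_sub_C d two_ne_zero, ?_⟩
    rw [Polynomial.eval₂_sub, Polynomial.eval₂_X_pow, Polynomial.eval₂_C, hx]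
    simp
  refine ⟨⟨⟨x, h1⟩, ?_⟩, rfl⟩
  apply RingOfIntegers.ext
  change x * x = algebraMap (𝓞 K) K (d : 𝓞 K)
  rw [map_intCast, ← hx, pow_two]

theorem sqrt_sq (s : {x : 𝓞 K // x * x = (d : 𝓞 K)}) : ((s : 𝓞 K) : K) ^ 2 = (d : K) := by
  have h := congrArg (algebraMap (𝓞 K) K) s.2
  rw [map_mul, map_intCast] at h
  rw [pow_two]
  exact h

theorem totallyReal_of {ι₁ ι₂ : K →+* ℝ} (hK : finrank ℚ K = 2) (hι : ι₁ ≠ ι₂) :
    IsTotallyReal K := by
  classical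
  have hcard : Fintype.card (K →+* ℂ) = 2 := by rw [Embeddings.card, hK]
  have hne : Complex.ofRealHom.comp ι₁ ≠ Complex.ofRealHom.comp ι₂ := by
    intro h
    apply hι
    ext x
    have := congrArg (fun f : K →+* ℂ => f x) h
    exact Complex.ofReal_injective this
  have hall : ∀ φ : K →+* ℂ, φ = Complex.ofRealHom.comp ι₁ ∨ φ = Complex.ofRealHom.comp ι₂ := by
    intro φ
    by_contra hcon
    rw [not_or] at hcon
    have h3 : ({φ, Complex.ofRealHom.comp ι₁, Complex.ofRealHom.comp ι₂} :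
        Finset (K →+* ℂ)).card = 3 := by
      rw [Finset.card_eq_three]
      exact ⟨_, _, _, hcon.1, hcon.2, hne, rfl⟩
    have := Finset.card_le_univ ({φ, Complex.ofRealHom.comp ι₁, Complex.ofRealHom.comp ι₂} :
        Finset (K →+* ℂ))
    rw [h3, hcard] at this
    omega
  refine ⟨fun v => ?_⟩
  rw [InfinitePlace.isReal_iff]
  rw [ComplexEmbedding.isReal_iff]
  ext x
  rw [ComplexEmbedding.conjugate_coe_eq]
  rcases hall v.embedding with h | h <;> rw [h] <;> exact Complex.conj_ofReal _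

theorem isGalois_of (hK : finrank ℚ K = 2) : IsGalois ℚ K := by
  have : Algebra.IsQuadraticExtension ℚ K := ⟨hK⟩
  infer_instance

theorem exists_rat (hK : finrank ℚ K = 2) (hd : ¬ IsSquare d)
    (s : {x : 𝓞 K // x * x = (d : 𝓞 K)}) (x : K) :
    ∃ a b : ℚ, x = (a : K) + (b : K) * ((s : 𝓞 K) : K) := by
  have hs := sqrt_sq s
  set y : K := ((s : 𝓞 K) : K) with hy
  have hli : LinearIndependent ℚ ![(1 : K), y] := by
    rw [LinearIndependent.pair_iff]
    intro a b h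
    rw [Algebra.smul_def, Algebra.smul_def, mul_one] at h
    have hb : b = 0 := by
      by_contra hb
      apply hd
      have h1 : (b : K) ≠ 0 := by exact_mod_cast hb
      have h2 : y = ((-a / b : ℚ) : K) := by
        push_cast
        rw [eq_div_iff h1]
        have h3 : ((algebraMap ℚ K) a : K) = (a : K) := rfl
        have h4 : ((algebraMap ℚ K) b : K) = (b : K) := rfl
        rw [h3, h4] at h
        linear_combination h
      rw [h2] at hs
      have h5 : ((-a / b) ^ 2 : ℚ) = (d : ℚ) := by exact_mod_cast hs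
      have h6 : IsSquare ((d : ℚ)) := ⟨-a / b, by rw [← h5, pow_two]⟩
      exact Rat.isSquare_intCast_iff.1 h6
    refine ⟨?_, hb⟩
    rw [hb, map_zero, zero_mul, add_zero] at h
    exact (algebraMap ℚ K).injective (by rw [h, map_zero])
  have hsp : Submodule.span ℚ (Set.range ![(1 : K), y]) = ⊤ :=
    hli.span_eq_top_of_card_eq_finrank' (by simp [hK])
  have hx : x ∈ Submodule.span ℚ (Set.range ![(1 : K), y]) := hsp ▸ Submodule.mem_top
  rw [Matrix.range_cons, Matrix.range_cons, Matrix.range_empty, Set.union_empty,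
    Set.singleton_union, Submodule.mem_span_pair] at hx
  obtain ⟨a, b, h⟩ := hx
  refine ⟨a, b, ?_⟩
  rw [← h, Algebra.smul_def, Algebra.smul_def, mul_one]
  rfl

theorem hom_ext_sqrt (hK : finrank ℚ K = 2) (hd : ¬ IsSquare d)
    (s : {x : 𝓞 K // x * x = (d : 𝓞 K)}) {L : Type} [Field L] {f g : K →+* L}
    (h : f ((s : 𝓞 K) : K) = g ((s : 𝓞 K) : K)) : f = g := by
  ext x
  obtain ⟨a, b, rfl⟩ := exists_rat hK hd s x
  rw [map_add, map_add, map_mul, map_mul, h, map_ratCast, map_ratCast, map_ratCast, map_ratCast]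

theorem real_neg (hK : finrank ℚ K = 2) (hd : ¬ IsSquare d)
    (s : {x : 𝓞 K // x * x = (d : 𝓞 K)}) {ι₁ ι₂ : K →+* ℝ} (hι : ι₁ ≠ ι₂) :
    ι₂ ((s : 𝓞 K) : K) = - ι₁ ((s : 𝓞 K) : K) := by
  have h1 := congrArg ι₁ (sqrt_sq s)
  have h2 := congrArg ι₂ (sqrt_sq s)
  rw [map_pow, map_intCast] at h1 h2
  have h3 : ι₂ ((s : 𝓞 K) : K) ^ 2 = ι₁ ((s : 𝓞 K) : K) ^ 2 := by rw [h1, h2]
  rcases sq_eq_sq_iff_eq_or_eq_neg.1 h3 with h4 | h4
  · exact absurd (hom_ext_sqrt hK hd s h4).symm hι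
  · exact h4

/-- the product of the two conjugates is the norm -/
theorem real_norm (hK : finrank ℚ K = 2) (hd : ¬ IsSquare d)
    (s : {x : 𝓞 K // x * x = (d : 𝓞 K)}) {ι₁ ι₂ : K →+* ℝ} (hι : ι₁ ≠ ι₂) (z : ℤ√d) :
    ι₁ (toO s z : K) * ι₂ (toO s z : K) = (z.norm : ℝ) := by
  have h1 := real_neg hK hd s hι
  have h2 := congrArg ι₁ (sqrt_sq s)
  rw [map_pow, map_intCast] at h2
  have h3 : ((toO s z : 𝓞 K) : K) = (z.re : K) + (z.im : K) * ((s : 𝓞 K) : K) := by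
    rw [toO_apply]
    simp
  rw [h3, map_add, map_add, map_mul, map_mul, map_intCast, map_intCast, map_intCast, map_intCast,
    h1, Zsqrtd.norm_def]
  push_cast
  linear_combination (-(z.im : ℝ) ^ 2) * h2

end one

section conj

variable {K M : Type} [Field K] [NumberField K] [Field M] [NumberField M] [Algebra K M]
  [IsGalois ℚ M] [IsGalois ℚ K] {d : ℤ}

theorem smul_sqrt (hK : finrank ℚ K = 2) (hd : ¬ IsSquare d)
    (s : {x : 𝓞 K // x * x = (d : 𝓞 K)}) {γ : Gal(M/ℚ)} (hγ : γ ∉ fixG K M) :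
    γ (algebraMap K M ((s : 𝓞 K) : K)) = - algebraMap K M ((s : 𝓞 K) : K) := by
  have h1 := congrArg (algebraMap K M) (sqrt_sq s)
  rw [map_pow, map_intCast] at h1
  have h2 := congrArg γ h1
  rw [map_pow, map_intCast] at h2
  rw [← h1] at h2
  rcases sq_eq_sq_iff_eq_or_eq_neg.1 h2 with h4 | h4
  · exfalso
    apply hγ
    rw [mem_fixG]
    intro x
    have h5 : (γ : M →+* M).comp (algebraMap K M) = algebraMap K M :=
      hom_ext_sqrt hK hd s h4
    exact congrArg (fun f : K →+* M => f x) h5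
  · exact h4

theorem smul_toO (hK : finrank ℚ K = 2) (hd : ¬ IsSquare d)
    (s : {x : 𝓞 K // x * x = (d : 𝓞 K)}) {γ : Gal(M/ℚ)} (hγ : γ ∉ fixG K M) (z : ℤ√d) :
    AlgEquiv.restrictNormalHom K γ • toO s z = toO s (star z) := by
  apply RingOfIntegers.ext
  apply (algebraMap K M).injective
  have h1 : algebraMap K M ((AlgEquiv.restrictNormalHom K γ • toO s z : 𝓞 K) : K) =
      γ (algebraMap K M (toO s z : K)) :=
    AlgEquiv.restrictNormal_commutes γ K _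
  have h3 : ∀ w : ℤ√d, ((toO s w : 𝓞 K) : K) = (w.re : K) + (w.im : K) * ((s : 𝓞 K) : K) := by
    intro w
    rw [toO_apply]
    simp
  rw [h1, h3, h3, map_add, map_add, map_mul, map_mul, map_add, map_mul, smul_sqrt hK hd s hγ]
  simp

theorem smul_span_toO (hK : finrank ℚ K = 2) (hd : ¬ IsSquare d)
    (s : {x : 𝓞 K // x * x = (d : 𝓞 K)}) {γ : Gal(M/ℚ)} (hγ : γ ∉ fixG K M) (z : ℤ√d) :
    AlgEquiv.restrictNormalHom K γ • Ideal.span {toO s z} = Ideal.span {toO s (star z)} := by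
  rw [← smul_toO hK hd s hγ z]
  ext x
  rw [Ideal.mem_pointwise_smul_iff_inv_smul_mem, Ideal.mem_span_singleton, Ideal.mem_span_singleton]
  constructor
  · rintro ⟨y, hy⟩
    refine ⟨AlgEquiv.restrictNormalHom K γ • y, ?_⟩
    rw [← smul_mul', ← hy, smul_inv_smul]
  · rintro ⟨y, rfl⟩
    refine ⟨(AlgEquiv.restrictNormalHom K γ)⁻¹ • y, ?_⟩
    rw [smul_mul', inv_smul_smul]

/-- `p` is unramified in `K` if `p` does not divide `2 d` -/
theorem inertia_mem (hK : finrank ℚ K = 2) (hd : ¬ IsSquare d)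
    (s : {x : 𝓞 K // x * x = (d : 𝓞 K)}) {p : ℕ} (hp : p.Prime) (hpd : ¬ (p : ℤ) ∣ 2 * d)
    {Q : Ideal (𝓞 M)} (hQ : Q.IsPrime) (hpQ : (p : 𝓞 M) ∈ Q) {t : Gal(M/ℚ)} (ht : InI Q t) :
    t ∈ fixG K M := by
  by_contra hcon
  have h1 := ht (algebraMap (𝓞 K) (𝓞 M) s)
  have h2 : t • algebraMap (𝓞 K) (𝓞 M) (s : 𝓞 K) = - algebraMap (𝓞 K) (𝓞 M) (s : 𝓞 K) := by
    apply RingOfIntegers.ext
    exact smul_sqrt hK hd s hcon
  rw [h2] at h1
  have h3 : (algebraMap (𝓞 K) (𝓞 M) (s : 𝓞 K)) * (algebraMap (𝓞 K) (𝓞 M) (s : 𝓞 K)) =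
      ((d : ℤ) : 𝓞 M) := by
    rw [← map_mul, s.2, map_intCast]
  have h4 : ((2 * (2 * d) : ℤ) : 𝓞 M) ∈ Q := by
    have h5 := Q.mul_mem_right (- 2 * algebraMap (𝓞 K) (𝓞 M) (s : 𝓞 K)) h1
    have h6 : (-(algebraMap (𝓞 K) (𝓞 M)) (s : 𝓞 K) - (algebraMap (𝓞 K) (𝓞 M)) (s : 𝓞 K)) *
        (- 2 * algebraMap (𝓞 K) (𝓞 M) (s : 𝓞 K)) = ((2 * (2 * d) : ℤ) : 𝓞 M) := by
      push_cast
      rw [← h3]
      ring
    rw [← h6]
    exact h5
  have hco : IsCoprime (p : ℤ) (2 * (2 * d)) := by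
    have hpZ := Nat.prime_iff_prime_int.1 hp
    rw [Prime.coprime_iff_not_dvd hpZ]
    intro h
    rcases hpZ.dvd_or_dvd h with h | h
    · exact hpd (h.mul_right d)
    · exact hpd h
  obtain ⟨a, b, hab⟩ := hco
  apply hQ.ne_top
  rw [Ideal.eq_top_iff_one]
  have h7 : (1 : 𝓞 M) = (a : 𝓞 M) * (p : 𝓞 M) + (b : 𝓞 M) * ((2 * (2 * d) : ℤ) : 𝓞 M) := by
    rw [← Int.cast_one (R := 𝓞 M), ← hab]
    push_cast
    ring
  rw [h7]
  exact Q.add_mem (Q.mul_mem_left _ hpQ) (Q.mul_mem_left _ h4)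

end conj

end Pool.Agent.EvM
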