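import Pool.Agent.EvM.Num
import Pool.Agent.EvM.Quad
import Pool.Agent.EvM.Ab
import Pool.Agent.HeckeRQ.ArtHK

/-!
# Artin symbols in the closure of a subfield of a ray class field
-/

set_option autoImplicit false

open NumberField Module Pool.Agent.StarkRQ Pool.Agent.StarkU Pool.Agent.HeckeRQ
open scoped Pointwise

namespace Pool.Agent.EvM

section aux

variable {K H M : Type} [Field K] [NumberField K] [Field H] [NumberField H]
    [Field M] [NumberField M] [Algebra K M] [Algebra K H] [Algebra H M] [IsScalarTower K H M]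

private theorem res_smul [Normal K H] (ψ : Gal(M/K)) (x : 𝓞 H) :
    algebraMap (𝓞 H) (𝓞 M) (AlgEquiv.restrictNormalHom H ψ • x) = ψ • algebraMap (𝓞 H) (𝓞 M) x := by
  apply NumberField.RingOfIntegers.ext
  change algebraMap H M ((AlgEquiv.restrictNormalHom H ψ) (x : H)) = ψ (algebraMap H M (x : H))
  exact AlgEquiv.restrictNormal_commutes ψ H (x : H)

private theorem res_algebraMap :
    algebraMap (𝓞 K) (𝓞 M) = (algebraMap (𝓞 H) (𝓞 M)).comp (algebraMap (𝓞 K) (𝓞 H)) := by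
  ext x
  change algebraMap K M (x : K) = algebraMap H M (algebraMap K H (x : K))
  rw [← IsScalarTower.algebraMap_apply K H M]

private theorem res_isFrob [Normal K H] {𝔮 : Ideal (𝓞 K)} {ψ : Gal(M/K)}
    (h : IsFrob 𝔮 ψ) : IsFrob 𝔮 (AlgEquiv.restrictNormalHom H ψ) := by
  obtain ⟨Q, hQ, hQ𝔮, hx⟩ := h
  refine ⟨Q.comap (algebraMap (𝓞 H) (𝓞 M)), Ideal.comap_isPrime _ _, ?_, fun x => ?_⟩
  · rw [Ideal.comap_comap, ← res_algebraMap, hQ𝔮]
  · rw [Ideal.mem_comap, map_sub, map_pow, res_smul]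
    exact hx _

/-- Artin symbols restrict to Artin symbols. -/
theorem hasArt_res [Normal K H] {𝔞 : Ideal (𝓞 K)} {t : Gal(M/K)} (h : HasArtinSymbol 𝔞 t) :
    HasArtinSymbol 𝔞 (AlgEquiv.restrictNormalHom H t) := by
  obtain ⟨l, h1, h2, h3⟩ := h
  refine ⟨l.map fun x => (x.1, AlgEquiv.restrictNormalHom H x.2), ?_, ?_, ?_⟩
  · intro x hx
    rw [List.mem_map] at hx
    obtain ⟨y, hy, rfl⟩ := hx
    obtain ⟨a, b, c⟩ := h1 y hy
    exact ⟨a, b, res_isFrob c⟩
  · rw [List.map_map, ← h2]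
    rfl
  · rw [List.map_map, ← h3, map_list_prod, List.map_map]
    rfl

end aux

section core

variable {K : Type} [Field K] [NumberField K]

/-- the elements all of whose conjugates are in `m` -/
def coreI (m : Ideal (𝓞 K)) : Ideal (𝓞 K) where
  carrier := {x | ∀ δ : Gal(K/ℚ), δ • x ∈ m}
  zero_mem' := fun δ => by rw [smul_zero]; exact m.zero_mem
  add_mem' := fun ha hb δ => by rw [smul_add]; exact m.add_mem (ha δ) (hb δ)
  smul_mem' := fun c x hx δ => by rw [smul_eq_mul, smul_mul']; exact m.mul_mem_left _ (hx δ)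

theorem mem_coreI {m : Ideal (𝓞 K)} {x : 𝓞 K} : x ∈ coreI m ↔ ∀ δ : Gal(K/ℚ), δ • x ∈ m := Iff.rfl

end core

section main

variable {K H M : Type} [Field K] [NumberField K] [Field H] [NumberField H]
    [Field M] [NumberField M] [Algebra K M] [Algebra K H] [Algebra H M] [IsScalarTower K H M]
    [IsGalois ℚ M] [IsGalois ℚ K] [IsAbelianGalois K H] [IsAbelianGalois K M]

/-- The Artin symbol of `(β)` in the closure `M` is trivial if `β` is totally positive and all
conjugates of `β - 1` are in `m`. -/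
theorem art_one (hK : finrank ℚ K = 2)
    (hcl : ∀ g : Gal(M/ℚ), (∀ (γ : Gal(M/ℚ)) (y : H),
      g (γ (algebraMap H M y)) = γ (algebraMap H M y)) → g = 1)
    {m : Ideal (𝓞 K)} (ι₂ : K →+* ℝ)
    (hur : ∀ 𝔮 : Ideal (𝓞 K), 𝔮.IsPrime → 𝔮 ≠ ⊥ → IsCoprime 𝔮 m → UnrAt H 𝔮)
    (hmod : ∀ α : 𝓞 K, α - 1 ∈ m → 0 < ι₂ (α : K) →
      HasArtinSymbol (Ideal.span {α}) (1 : Gal(H/K)))
    {β : 𝓞 K} (hβ : β - 1 ∈ coreI m) (hpos : ∀ φ : K →+* ℝ, 0 < φ (β : K)) :
    HasArtinSymbol (Ideal.span {β}) (1 : Gal(M/K)) := by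
  have habH : ∀ σ τ : Gal(H/K), σ * τ = τ * σ := fun σ τ => IsMulCommutative.is_comm.comm σ τ
  have hβ0 : Ideal.span {β} ≠ ⊥ := by
    rw [Ne, Ideal.span_singleton_eq_bot]
    rintro rfl
    have := hpos ι₂
    simp at this
  obtain ⟨t, ht⟩ := artU_exists (M := M) hβ0
  have hN' := normal_fixG (K := K) (M := M) hK
  -- the restriction to `H` of the symbol of a conjugate
  have key : ∀ α : 𝓞 K, α - 1 ∈ m → (∀ φ : K →+* ℝ, 0 < φ (α : K)) →
      ∀ s : Gal(M/K), HasArtinSymbol (Ideal.span {α}) s → ∀ y : H,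
        s (algebraMap H M y) = algebraMap H M y := by
    intro α hαm hαp s hs y
    have h1 := hasArt_res (H := H) hs
    have h2 := hmod α hαm (hαp ι₂)
    have hα0 : Ideal.span {α} ≠ ⊥ := by
      rw [Ne, Ideal.span_singleton_eq_bot]
      rintro rfl
      have := hαp ι₂
      simp at this
    have hun : UnrAll H (Ideal.span {α}) := by
      intro 𝔮 h𝔮 h𝔮0 hd
      refine hur 𝔮 h𝔮 h𝔮0 ?_
      have h3 : IsCoprime (Ideal.span {α}) m := by
        rw [Ideal.isCoprime_iff_exists]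
        exact ⟨α, Ideal.mem_span_singleton_self _, -(α - 1), m.neg_mem hαm, by ring⟩
      exact h3.of_isCoprime_of_dvd_left hd
    have h3 : AlgEquiv.restrictNormalHom H s = 1 := by
      rw [(artU_spec habH hα0 hun _).1 h1, ← (artU_spec habH hα0 hun _).1 h2]
    have h4 : algebraMap H M (AlgEquiv.restrictNormalHom H s y) = s (algebraMap H M y) :=
      AlgEquiv.restrictNormal_commutes s H y
    rw [← h4, h3]
    rfl
  have ht1 : t = 1 := by
    apply toG_injective (F := K) (M := M)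
    rw [map_one]
    refine hcl _ fun γ y => ?_
    obtain ⟨t', ht'⟩ := hN'.conj_mem (toG K M t) ⟨t, rfl⟩ γ⁻¹
    have h1 := hasArt_conj (M := M) hK (γ := γ⁻¹) (t := t) (t' := t') (by rw [ht']) ht
    set δ := AlgEquiv.restrictNormalHom (F := ℚ) (K₁ := M) K γ⁻¹ with hδ
    have h2 : δ • Ideal.span {β} = Ideal.span {δ • β} := by
      ext x
      rw [Ideal.mem_pointwise_smul_iff_inv_smul_mem, Ideal.mem_span_singleton,
        Ideal.mem_span_singleton]
      constructor
      · rintro ⟨w, hw⟩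
        exact ⟨δ • w, by rw [← smul_mul', ← hw, smul_inv_smul]⟩
      · rintro ⟨w, rfl⟩
        exact ⟨δ⁻¹ • w, by rw [smul_mul', inv_smul_smul]⟩
    rw [h2] at h1
    have h3 : δ • β - 1 ∈ m := by
      have h5 := mem_coreI.1 hβ δ
      rw [smul_sub, smul_one] at h5
      exact h5
    have h4 : ∀ φ : K →+* ℝ, 0 < φ ((δ • β : 𝓞 K) : K) := fun φ =>
      hpos (φ.comp (δ : K →+* K))
    have h5 := key (δ • β) h3 h4 t' h1 y
    have h6 : toG K M t' (algebraMap H M y) = algebraMap H M y := h5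
    rw [ht', inv_inv, AlgEquiv.mul_apply, AlgEquiv.mul_apply] at h6
    have h7 := congrArg γ h6
    rw [← AlgEquiv.mul_apply γ γ⁻¹, mul_inv_cancel, AlgEquiv.one_apply] at h7
    exact h7
  rw [ht1] at ht
  exact ht

end main

section sym

variable {K M : Type} [Field K] [NumberField K] [Field M] [NumberField M] [Algebra K M]
    [IsAbelianGalois K M]

/-- If `x² z ≡ z'` for a unit `x` of norm `1`, the conjugate `z'` of `z`, and `z` has positive norm,
then `(z)` and its conjugate have the same Artin symbol. -/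
theorem art_sym {d : ℤ} (hd : ¬ IsSquare d)
    (s : {x : 𝓞 K // x * x = (d : 𝓞 K)}) {N : ℕ} (hN0 : N ≠ 0) {𝔫 : Ideal (𝓞 K)}
    (hN : (N : 𝓞 K) ∈ 𝔫) (hram : ∀ p : ℕ, p.Prime → (p : ℤ) ∣ discr M → p ∣ N)
    (hone : ∀ β : 𝓞 K, β - 1 ∈ 𝔫 → (∀ φ : K →+* ℝ, 0 < φ (β : K)) →
      HasArtinSymbol (Ideal.span {β}) (1 : Gal(M/K)))
    (hnorm : ∀ z : ℤ√d, Ideal.absNorm (Ideal.span {toO s z}) = z.norm.natAbs)
    {z : ℤ√d} (hNz : IsCoprime z.norm (N : ℤ)) (hpos : 0 < z.norm) {x : ℤ√d} (hxn : x.norm = 1)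
    (hk : toO s (x ^ 2 * z - star z) ∈ 𝔫)
    {t : Gal(M/K)} (ht : HasArtinSymbol (Ideal.span {toO s z}) t) :
    HasArtinSymbol (Ideal.span {toO s (star z)}) t := by
  have hstar : (star z).norm = z.norm := Zsqrtd.norm_conj z
  have hz0 : z ≠ 0 := by
    rintro rfl
    simp at hpos
  have hinj : Function.Injective (toO s) := Zsqrtd.lift_injective s
    (fun n => fun h => hd ⟨n, h⟩)
  have hsz0 : star z ≠ 0 := star_ne_zero.2 hz0
  -- the inverse of the norm
  obtain ⟨r, hr0, hr⟩ : ∃ r : ℕ, 0 < r ∧ (N : ℤ) ∣ r * z.norm - 1 := by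
    obtain ⟨a, b, hab⟩ := hNz
    have hN0 : (N : ℤ) ≠ 0 := by exact_mod_cast hN0
    refine ⟨((a % N) + N).toNat, ?_, ?_⟩
    · have h1 := Int.emod_nonneg a hN0
      have h2 : (0 : ℤ) < N := by omega
      omega
    · have h1 := Int.emod_nonneg a hN0
      have h2 : (0 : ℤ) < N := by omega
      rw [Int.toNat_of_nonneg (by omega)]
      have h3 := Int.emod_add_ediv_mul a N
      refine ⟨(1 - a / N) * z.norm - b, ?_⟩
      linear_combination z.norm * h3 + hab
  have hx0 : x ≠ 0 := by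
    rintro h
    rw [h] at hxn
    simp at hxn
  have hrN : ((r : ℤ√d)).norm = (r : ℤ) ^ 2 := by
    rw [Zsqrtd.norm_natCast, pow_two]
  have hzz : z * star z = ((z.norm : ℤ) : ℤ√d) := (Zsqrtd.norm_eq_mul_conj z).symm
  set w1 : ℤ√d := (r : ℤ√d) * z * (x ^ 2 * z) with hw1
  set w2 : ℤ√d := (r : ℤ√d) * z * star z with hw2
  have hn2 : w2.norm = (r * z.norm) ^ 2 := by
    rw [hw2, Zsqrtd.norm_mul, Zsqrtd.norm_mul, hrN, hstar]
    ring
  have hn1 : w1.norm = (r * z.norm) ^ 2 := by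
    rw [hw1, Zsqrtd.norm_mul, Zsqrtd.norm_mul, Zsqrtd.norm_mul, hrN, pow_two x, Zsqrtd.norm_mul,
      hxn]
    ring
  have hco : IsCoprime (((r * z.norm) ^ 2 : ℤ)) (N : ℤ) := by
    obtain ⟨q, hq⟩ := hr
    exact IsCoprime.pow_left ⟨1, -q, by linear_combination hq⟩
  have hcop : ∀ w : ℤ√d, w.norm = (r * z.norm) ^ 2 →
      (Ideal.absNorm (Ideal.span {toO s w})).Coprime N := by
    intro w hw
    rw [hnorm, hw]
    exact Int.isCoprime_iff_gcd_eq_one.1 hco
  -- the congruences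
  have hd2' : (N : 𝓞 K) ∣ toO s w2 - 1 := by
    obtain ⟨q, hq⟩ := hr
    refine ⟨(q : 𝓞 K), ?_⟩
    have h1 : w2 - 1 = (N : ℤ√d) * (q : ℤ√d) := by
      have h2 : w2 = ((r * z.norm : ℤ) : ℤ√d) := by
        rw [hw2, mul_assoc, hzz]
        push_cast
        ring
      have h3 : ((r * z.norm - 1 : ℤ) : ℤ√d) = ((N * q : ℤ) : ℤ√d) := by rw [hq]
      rw [h2]
      push_cast at h3 ⊢
      exact h3
    rw [← map_one (toO s), ← map_sub, h1, map_mul, map_natCast, map_intCast]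
  have hd2 : toO s w2 - 1 ∈ 𝔫 := by
    obtain ⟨y, hy⟩ := hd2'
    rw [hy]
    exact 𝔫.mul_mem_right _ hN
  have hd1 : toO s w1 - 1 ∈ 𝔫 := by
    have h1 : w1 - 1 = (r : ℤ√d) * z * (x ^ 2 * z - star z) + (w2 - 1) := by
      rw [hw1, hw2]
      ring
    rw [← map_one (toO s), ← map_sub, h1, map_add, map_mul]
    refine 𝔫.add_mem (𝔫.mul_mem_left _ hk) ?_
    rw [map_sub, map_one]
    exact hd2
  have hrR : (0 : ℝ) < r := by exact_mod_cast hr0
  have hp2 : ∀ φ : K →+* ℝ, 0 < φ (toO s w2 : K) := by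
    intro φ
    have h2 : w2 = ((r * z.norm : ℤ) : ℤ√d) := by
      rw [hw2, mul_assoc, hzz]
      push_cast
      ring
    have h5 : ((toO s w2 : 𝓞 K) : K) = ((r * z.norm : ℤ) : K) := by
      rw [h2, map_intCast]
      exact map_intCast (algebraMap (𝓞 K) K) _
    rw [h5, map_intCast]
    push_cast
    have : (0 : ℝ) < z.norm := by exact_mod_cast hpos
    positivity
  have hp1 : ∀ φ : K →+* ℝ, 0 < φ (toO s w1 : K) := by
    intro φ
    have h2 : w1 = (r : ℤ√d) * (x * z) ^ 2 := by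
      rw [hw1]
      ring
    have h3 : φ (toO s w1 : K) = r * (φ (toO s (x * z) : K)) ^ 2 := by
      rw [h2, map_mul, map_pow, map_natCast]
      simp
    have h4 : φ (toO s (x * z) : K) ≠ 0 := by
      rw [map_ne_zero]
      intro h
      have h5 : toO s (x * z) = 0 := RingOfIntegers.ext (by rw [h]; rfl)
      rw [← map_zero (toO s)] at h5
      have h7 := congrArg Zsqrtd.norm (hinj h5)
      rw [Zsqrtd.norm_mul, hxn, Zsqrtd.norm_zero, one_mul] at h7
      omega
    rw [h3]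
    positivity
  have ha1 := hone _ hd1 hp1
  have ha2 := hone _ hd2 hp2
  -- the other symbols
  have hr0' : Ideal.span {(r : 𝓞 K)} ≠ ⊥ := by
    rw [Ne, Ideal.span_singleton_eq_bot]
    exact_mod_cast hr0.ne'
  obtain ⟨tr, htr⟩ := artU_exists (M := M) hr0'
  have hs0' : Ideal.span {toO s (star z)} ≠ ⊥ := by
    rw [Ne, Ideal.span_singleton_eq_bot]
    intro h
    rw [← map_zero (toO s)] at h
    exact hsz0 (hinj h)
  obtain ⟨t', ht'⟩ := artU_exists (M := M) hs0'
  have hunit : IsUnit (toO s (x ^ 2)) := by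
    refine IsUnit.map (toO s) ?_
    rw [Zsqrtd.isUnit_iff_norm_isUnit, pow_two, Zsqrtd.norm_mul, hxn]
    simp
  have he1 : Ideal.span {toO s w1} =
      Ideal.span {(r : 𝓞 K)} * Ideal.span {toO s z} * Ideal.span {toO s z} := by
    rw [Ideal.span_singleton_mul_span_singleton, Ideal.span_singleton_mul_span_singleton, hw1,
      map_mul, map_mul, map_mul, map_natCast, mul_left_comm, Ideal.span_singleton_mul_left_unit hunit]
  have he2 : Ideal.span {toO s w2} =
      Ideal.span {(r : 𝓞 K)} * Ideal.span {toO s z} * Ideal.span {toO s (star z)} := by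
    rw [Ideal.span_singleton_mul_span_singleton, Ideal.span_singleton_mul_span_singleton, hw2,
      map_mul, map_mul, map_natCast]
  have hb1 := artin_mul (artin_mul htr ht) ht
  have hb2 := artin_mul (artin_mul htr ht) ht'
  rw [← he1] at hb1
  rw [← he2] at hb2
  have hc1 := artin_unique hram (hcop w1 hn1) ha1 hb1
  have hc2 := artin_unique hram (hcop w2 hn2) ha2 hb2
  rw [hc1] at hc2
  rw [mul_left_cancel hc2]
  exact ht'

end sym

end Pool.Agent.EvM
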