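import Pool.Agent.StarkRQ.Base

/-!
# The Galois closure over `ℚ` of an extension `H` of `K`
-/

set_option autoImplicit false

noncomputable section

open NumberField Module Pool.Agent.StarkRQ

namespace Pool.Agent.EvM

/-- the elements which are trivial on all conjugates of `H` -/
private def cjFix (M H : Type) [Field M] [NumberField M] [Field H] [Algebra H M] :
    Subgroup Gal(M/ℚ) where
  carrier := {n | ∀ (γ : Gal(M/ℚ)) (y : H), n (γ (algebraMap H M y)) = γ (algebraMap H M y)}
  one_mem' := fun _ _ => rfl
  mul_mem' := by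
    intro a b ha hb γ y
    rw [AlgEquiv.mul_apply, hb, ha]
  inv_mem' := by
    intro a ha γ y
    have h := congrArg a.symm (ha γ y)
    rw [AlgEquiv.symm_apply_apply] at h
    exact h.symm

private instance normal_cjFix {M H : Type} [Field M] [NumberField M] [Field H] [Algebra H M] :
    (cjFix M H).Normal := by
  constructor
  intro n hn g γ y
  have h := hn (g⁻¹ * γ) y
  change g (n (g⁻¹ (γ (algebraMap H M y)))) = _
  have h' : n (g⁻¹ (γ (algebraMap H M y))) = g⁻¹ (γ (algebraMap H M y)) := h
  rw [h']
  change (g * g⁻¹) _ = _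
  rw [mul_inv_cancel]
  rfl

private theorem exists_normal {H : Type} [Field H] [NumberField H] (i : H →+* ℂ) :
    ∃ (M : Type) (_ : Field M) (_ : NumberField M) (_ : IsGalois ℚ M) (_ : Algebra H M)
      (ι : M →+* ℂ), ∀ y : H, ι (algebraMap H M y) = i y := by
  let _ : Algebra H ℂ := i.toAlgebra
  have : IsScalarTower ℚ H ℂ := IsScalarTower.of_algebraMap_eq' (Subsingleton.elim _ _)
  let M : IntermediateField ℚ ℂ := IntermediateField.normalClosure ℚ H ℂ
  have hf : FiniteDimensional ℚ M := normalClosure.is_finiteDimensional ℚ H ℂ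
  have hc : IsNormalClosure ℚ H M :=
    Algebra.IsAlgebraic.isNormalClosure_normalClosure fun x => IsAlgClosed.splits _
  have hn : Normal ℚ M := hc.normal
  have hM : NumberField M := { to_charZero := inferInstance, to_finiteDimensional := hf }
  have hG : IsGalois ℚ M := { to_isSeparable := inferInstance, to_normal := hn }
  exact ⟨M, inferInstance, hM, hG, inferInstance, algebraMap M ℂ, fun y => rfl⟩

theorem exists_closureQ {K H : Type} [Field K] [NumberField K] [Field H] [NumberField H]
    [Algebra K H] (i : H →+* ℂ) :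
    ∃ (M : Type) (_ : Field M) (_ : NumberField M) (_ : IsGalois ℚ M) (_ : Algebra K M)
      (_ : Algebra H M) (_ : IsScalarTower K H M) (ι : M →+* ℂ),
      (∀ y : H, ι (algebraMap H M y) = i y) ∧
      ∀ g : Gal(M/ℚ), (∀ (γ : Gal(M/ℚ)) (y : H),
        g (γ (algebraMap H M y)) = γ (algebraMap H M y)) → g = 1 := by
  classical
  obtain ⟨M, _, _, _, _, ι, hι⟩ := exists_normal i
  let L : IntermediateField ℚ M := IntermediateField.fixedField (cjFix M H)
  have hL : IsGalois ℚ L := IsGalois.of_fixedField_normal_subgroup (cjFix M H)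
  have hHL : ∀ y : H, algebraMap H M y ∈ L := by
    intro y
    rw [IntermediateField.mem_fixedField_iff]
    intro n hn
    exact hn 1 y
  let aH : Algebra H L := ((algebraMap H M).codRestrict L.toSubfield hHL).toAlgebra
  let aK : Algebra K L := ((algebraMap H L).comp (algebraMap K H)).toAlgebra
  have sK : IsScalarTower K H L := IsScalarTower.of_algebraMap_eq' rfl
  refine ⟨L, inferInstance, inferInstance, hL, aK, aH, sK, ι.comp (algebraMap L M),
    fun y => hι y, ?_⟩
  intro g hg
  obtain ⟨g', hg'⟩ := AlgEquiv.restrictNormalHom_surjective (F := ℚ) (K₁ := L) M g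
  have hres : ∀ (δ : Gal(M/ℚ)) (x : L), ((AlgEquiv.restrictNormalHom L δ x : L) : M) = δ x :=
    fun δ x => AlgEquiv.restrictNormal_commutes δ L x
  have hmem : g' ∈ cjFix M H := by
    intro γ y
    have h3 := hg (AlgEquiv.restrictNormalHom L γ) y
    have h4 : (((AlgEquiv.restrictNormalHom L γ) (algebraMap H L y) : L) : M) =
        γ (algebraMap H M y) := hres γ _
    have h5 : ((g ((AlgEquiv.restrictNormalHom L γ) (algebraMap H L y)) : L) : M) =
        g' (((AlgEquiv.restrictNormalHom L γ) (algebraMap H L y) : L) : M) := by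
      rw [← hg']
      exact hres g' _
    rw [h3, h4] at h5
    exact h5.symm
  ext x
  rw [← hg', hres]
  exact IntermediateField.mem_fixedField_iff _ _ |>.1 x.2 g' hmem

end Pool.Agent.EvM
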