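import Pool.Agent.EvM.Quad

/-!
# Generators of ideals in `ℤ[√d]`
-/

set_option autoImplicit false

open NumberField Module Pool.Agent.StarkRQ Pool.Agent.StarkU
open scoped Pointwise

namespace Pool.Agent.EvM

variable {K : Type} [Field K] [NumberField K] {d : ℤ}

theorem exists_conj (hK : finrank ℚ K = 2) (hd : ¬ IsSquare d)
    (s : {x : 𝓞 K // x * x = (d : 𝓞 K)}) :
    ∃ σ : Gal(K/ℚ), σ • (s : 𝓞 K) = - (s : 𝓞 K) := by
  have hG := isGalois_of hK
  have hcard : Nat.card Gal(K/ℚ) = 2 := by rw [IsGalois.card_aut_eq_finrank, hK]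
  obtain ⟨σ, hσ⟩ : ∃ σ : Gal(K/ℚ), σ ≠ 1 := by
    by_contra hcon
    have hsub : Subsingleton Gal(K/ℚ) := by
      refine ⟨fun a b => ?_⟩
      have h1 : a = 1 := by_contra fun h => hcon ⟨a, h⟩
      have h2 : b = 1 := by_contra fun h => hcon ⟨b, h⟩
      rw [h1, h2]
    rw [Nat.card_of_subsingleton 1] at hcard
    omega
  refine ⟨σ, ?_⟩
  have h0 : (σ • (s : 𝓞 K)) * (σ • (s : 𝓞 K)) = (s : 𝓞 K) * s := by
    rw [← smul_mul', s.2]
    exact map_intCast (MulSemiringAction.toRingHom Gal(K/ℚ) (𝓞 K) σ) d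
  rcases mul_self_eq_mul_self_iff.1 h0 with h4 | h4
  · exfalso
    apply hσ
    have h5 : (σ : K →+* K) = RingHom.id K := by
      refine hom_ext_sqrt hK hd s ?_
      exact congrArg (fun x : 𝓞 K => (x : K)) h4
    ext x
    exact congrArg (fun f : K →+* K => f x) h5
  · exact h4

theorem smul_toO' (s : {x : 𝓞 K // x * x = (d : 𝓞 K)}) {σ : Gal(K/ℚ)}
    (hσ : σ • (s : 𝓞 K) = - (s : 𝓞 K)) (z : ℤ√d) : σ • toO s z = toO s (star z) := by
  have h1 : ∀ n : ℤ, σ • (n : 𝓞 K) = n := fun n =>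
    map_intCast (MulSemiringAction.toRingHom Gal(K/ℚ) (𝓞 K) σ) n
  rw [toO_apply, toO_apply, smul_add, smul_mul', hσ, h1, h1]
  simp

/-- a fixed integer is rational -/
theorem fixed_int (hK : finrank ℚ K = 2) (hd : ¬ IsSquare d)
    (s : {x : 𝓞 K // x * x = (d : 𝓞 K)}) {σ : Gal(K/ℚ)}
    (hσ : σ • (s : 𝓞 K) = - (s : 𝓞 K)) {x : 𝓞 K} (hx : σ • x = x) : ∃ n : ℤ, x = n := by
  obtain ⟨a, b, h⟩ := exists_rat hK hd s (x : K)
  have hs0 : ((s : 𝓞 K) : K) ≠ 0 := by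
    intro h0
    have := sqrt_sq s
    rw [h0] at this
    apply hd
    have h1 : (d : K) = 0 := by rw [← this]; simp
    have h2 : d = 0 := by exact_mod_cast h1
    exact ⟨0, by rw [h2]; rfl⟩
  have h1 : σ (x : K) = (x : K) := congrArg (fun x : 𝓞 K => (x : K)) hx
  have h2 : σ ((s : 𝓞 K) : K) = - ((s : 𝓞 K) : K) := by
    have := congrArg (algebraMap (𝓞 K) K) hσ
    rw [map_neg] at this
    exact this
  rw [h, map_add, map_mul, map_ratCast, map_ratCast, h2] at h1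
  have h3 : (b : K) = 0 := by
    have h4 : 2 * ((b : K) * ((s : 𝓞 K) : K)) = 0 := by linear_combination -h1
    rcases mul_eq_zero.1 h4 with h5 | h5
    · exact absurd h5 two_ne_zero
    · exact (mul_eq_zero.1 h5).resolve_right hs0
  rw [h3, zero_mul, add_zero] at h
  have h5 : IsIntegral ℤ (algebraMap ℚ K a) := by
    have h6 : algebraMap ℚ K a = (x : K) := h.symm
    rw [h6]
    exact x.2
  have h7 : IsIntegral ℤ a := (isIntegral_algebraMap_iff (algebraMap ℚ K).injective).1 h5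
  obtain ⟨n, hn⟩ := IsIntegrallyClosed.isIntegral_iff.1 h7
  refine ⟨n, ?_⟩
  apply RingOfIntegers.ext
  rw [h, ← hn]
  simp

theorem absNorm_conj (σ : Gal(K/ℚ)) (x : 𝓞 K) :
    Ideal.absNorm (Ideal.span {σ • x}) = Ideal.absNorm (Ideal.span {x}) := by
  have h : σ • Ideal.span {x} = Ideal.span {σ • x} := by
    ext y
    rw [Ideal.mem_pointwise_smul_iff_inv_smul_mem, Ideal.mem_span_singleton,
      Ideal.mem_span_singleton]
    constructor
    · rintro ⟨w, hw⟩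
      refine ⟨σ • w, ?_⟩
      rw [← smul_mul', ← hw, smul_inv_smul]
    · rintro ⟨w, rfl⟩
      refine ⟨σ⁻¹ • w, ?_⟩
      rw [smul_mul', inv_smul_smul]
  rw [← h, absNorm_smul]

theorem absNorm_int (hK : finrank ℚ K = 2) (n : ℤ) :
    Ideal.absNorm (Ideal.span {(n : 𝓞 K)}) = n.natAbs ^ 2 := by
  rw [Ideal.absNorm_span_singleton]
  have h : (n : 𝓞 K) = algebraMap ℤ (𝓞 K) n := by simp
  rw [h, Algebra.norm_algebraMap, RingOfIntegers.rank, hK, Int.natAbs_pow]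

/-- if the product with the conjugate is `n` then the absolute norm is `|n|` -/
theorem absNorm_of_mul (hK : finrank ℚ K = 2) {σ : Gal(K/ℚ)} {x : 𝓞 K} {n : ℤ}
    (h : x * σ • x = n) : Ideal.absNorm (Ideal.span {x}) = n.natAbs := by
  have h1 : Ideal.absNorm (Ideal.span {x}) ^ 2 = n.natAbs ^ 2 := by
    rw [← absNorm_int hK, ← h, ← Ideal.span_singleton_mul_span_singleton, map_mul,
      absNorm_conj, pow_two]
  exact Nat.pow_left_injective two_ne_zero h1

theorem absNorm_toO (hK : finrank ℚ K = 2) (hd : ¬ IsSquare d)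
    (s : {x : 𝓞 K // x * x = (d : 𝓞 K)}) (z : ℤ√d) :
    Ideal.absNorm (Ideal.span {toO s z}) = z.norm.natAbs := by
  obtain ⟨σ, hσ⟩ := exists_conj hK hd s
  refine absNorm_of_mul (σ := σ) hK ?_
  rw [smul_toO' s hσ, ← map_mul, ← Zsqrtd.norm_eq_mul_conj, map_intCast]

private lemma even_of_emod {A : ℤ} (h : A % 2 = 0) : ∃ a, A = 2 * a := ⟨A / 2, by omega⟩

theorem exists_gen (hK : finrank ℚ K = 2) (hsf : Squarefree d) (hd : ¬ IsSquare d)
    (s : {x : 𝓞 K // x * x = (d : 𝓞 K)})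
    (h5 : d % 8 = 5 → ∃ a b : ℤ, Odd a ∧ (a ^ 2 - d * b ^ 2 = 4 ∨ a ^ 2 - d * b ^ 2 = -4))
    {𝔞 : Ideal (𝓞 K)} (hP : 𝔞.IsPrincipal)
    (h2 : (Ideal.absNorm 𝔞).Coprime 2 ∨ d % 2 = 0 ∨ d % 4 = 3) :
    ∃ z : ℤ√d, 𝔞 = Ideal.span {toO s z} := by
  obtain ⟨α, rfl⟩ : ∃ α : 𝓞 K, 𝔞 = Ideal.span {α} := by
    obtain ⟨α, hα⟩ := hP
    exact ⟨α, hα⟩
  obtain ⟨σ, hσ⟩ := exists_conj hK hd s
  have hcard : σ * σ = 1 := by
    have hG := isGalois_of hK
    have hc : Nat.card Gal(K/ℚ) = 2 := by rw [IsGalois.card_aut_eq_finrank, hK]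
    have := pow_card_eq_one' (x := σ)
    rw [hc, pow_two] at this
    exact this
  have hσσ : ∀ x : 𝓞 K, σ • σ • x = x := fun x => by rw [smul_smul, hcard, one_smul]
  have hs0 : (s : 𝓞 K) ≠ 0 := by
    intro h0
    have h1 := s.2
    rw [h0, mul_zero] at h1
    apply hd
    have h2 : d = 0 := by exact_mod_cast h1.symm
    exact ⟨0, by rw [h2]; rfl⟩
  have hd0 : (d : 𝓞 K) ≠ 0 := by
    rw [← s.2]
    exact mul_ne_zero hs0 hs0
  obtain ⟨A, hA⟩ := fixed_int hK hd s hσ (x := α + σ • α) (by rw [smul_add, hσσ, add_comm])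
  obtain ⟨n, hn⟩ := fixed_int hK hd s hσ (x := α * σ • α) (by rw [smul_mul', hσσ, mul_comm])
  obtain ⟨n', hn'⟩ := fixed_int hK hd s hσ (x := (α - σ • α) * s)
    (by rw [smul_mul', smul_sub, hσσ, hσ]; ring)
  have hdvd : d ∣ n' ^ 2 := by
    have h1 : ((n' ^ 2 : ℤ) : 𝓞 K) = (((A ^ 2 - 4 * n) * d : ℤ) : 𝓞 K) := by
      push_cast
      rw [← hn', ← hA, ← hn]
      linear_combination ((α - σ • α) ^ 2) * s.2
    have h3 : n' ^ 2 = (A ^ 2 - 4 * n) * d := by exact_mod_cast h1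
    exact ⟨A ^ 2 - 4 * n, by rw [h3]; ring⟩
  have hdvd' : d ∣ n' := (hsf.dvd_pow_iff_dvd two_ne_zero).1 hdvd
  obtain ⟨B, rfl⟩ := hdvd'
  have hB : α - σ • α = (B : 𝓞 K) * s := by
    apply mul_right_cancel₀ hs0
    rw [hn', mul_assoc, s.2]
    push_cast
    ring
  have h2α : 2 * α = (A : 𝓞 K) + (B : 𝓞 K) * s := by rw [← hA, ← hB]; ring
  have h4n : 4 * n = A ^ 2 - d * B ^ 2 := by
    have h1 : ((4 * n : ℤ) : 𝓞 K) = ((A ^ 2 - d * B ^ 2 : ℤ) : 𝓞 K) := by
      push_cast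
      have h3 : (d : 𝓞 K) * (B : 𝓞 K) ^ 2 = (α - σ • α) ^ 2 := by
        rw [hB, mul_pow, pow_two (s : 𝓞 K), s.2]
        ring
      rw [h3, ← hn, ← hA]
      ring
    exact_mod_cast h1
  have hd4 : ¬ (4 : ℤ) ∣ d := by
    intro h
    have h1 := hsf 2 (by simpa using h)
    rw [Int.isUnit_iff] at h1
    omega
  rcases Int.emod_two_eq_zero_or_one A with hA2 | hA2
  · -- both are even
    obtain ⟨a, rfl⟩ := even_of_emod hA2
    rcases Int.emod_two_eq_zero_or_one B with hB2 | hB2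
    · obtain ⟨b, rfl⟩ := even_of_emod hB2
      refine ⟨⟨a, b⟩, ?_⟩
      congr 2
      apply mul_left_cancel₀ (two_ne_zero (α := 𝓞 K))
      rw [h2α, toO_apply]
      push_cast
      ring
    · exfalso
      apply hd4
      obtain ⟨b, hb⟩ : ∃ b, B = 2 * b + 1 := ⟨B / 2, by omega⟩
      exact ⟨a ^ 2 - n - d * (b ^ 2 + b), by rw [hb] at h4n; linear_combination h4n⟩
  · obtain ⟨a, ha⟩ : ∃ a, A = 2 * a + 1 := ⟨A / 2, by omega⟩
    have hd2 : d % 2 ≠ 0 := by
      intro hcon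
      obtain ⟨e, he⟩ := even_of_emod hcon
      rw [ha, he] at h4n
      have : (1 : ℤ) = 2 * (2 * n - 2 * a ^ 2 - 2 * a + e * B ^ 2) := by linear_combination -h4n
      omega
    have hB2 : B % 2 = 1 := by
      by_contra hcon
      obtain ⟨b, hb⟩ := even_of_emod (show B % 2 = 0 by omega)
      rw [ha, hb] at h4n
      have : (1 : ℤ) = 4 * (n - a ^ 2 - a + d * b ^ 2) := by linear_combination -h4n
      omega
    obtain ⟨b, hb⟩ : ∃ b, B = 2 * b + 1 := ⟨B / 2, by omega⟩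
    have hd3 : d % 4 ≠ 3 := by
      intro hcon
      obtain ⟨e, he⟩ : ∃ e, d = 4 * e + 3 := ⟨d / 4, by omega⟩
      rw [ha, hb, he] at h4n
      have : (2 : ℤ) = 4 * (a ^ 2 + a - (4 * e + 3) * (b ^ 2 + b) - n - e) := by
        linear_combination h4n
      omega
    have hodd : n % 2 = 1 := by
      have h2' := h2.resolve_right (fun h => h.elim hd2 hd3)
      rw [absNorm_of_mul hK hn] at h2'
      have h3 : ¬ 2 ∣ n.natAbs := by
        intro h
        have := Nat.eq_one_of_dvd_coprimes h2' h dvd_rfl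
        omega
      omega
    have hsq : ∀ x : ℤ, ∃ y, x * (x + 1) = 2 * y := fun x => by
      obtain ⟨y, hy⟩ := Int.even_mul_succ_self x
      exact ⟨y, by rw [hy]; ring⟩
    obtain ⟨a', ha'⟩ := hsq a
    obtain ⟨b', hb'⟩ := hsq b
    obtain ⟨n1, hn1⟩ : ∃ n1, n = 2 * n1 + 1 := ⟨n / 2, by omega⟩
    have hd5 : d % 8 = 5 := by
      have h6 : 8 * n1 + 4 = 8 * a' + 1 - d * (8 * b' + 1) := by
        rw [ha, hb, hn1] at h4n
        linear_combination h4n + 4 * ha' - 4 * d * hb'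
      have h7 : d = 5 + 8 * (a' - n1 - 1 - d * b') := by linear_combination h6
      omega
    obtain ⟨a0, b0, ha0, hab⟩ := h5 hd5
    have ha0' : a0 % 2 = 1 := Int.odd_iff.1 ha0
    have hb0' : b0 % 2 = 1 := by
      by_contra hcon
      obtain ⟨b1, hb1⟩ := even_of_emod (show b0 % 2 = 0 by omega)
      obtain ⟨a1, ha1⟩ : ∃ a1, a0 = 2 * a1 + 1 := ⟨a0 / 2, by omega⟩
      rw [ha1, hb1] at hab
      rcases hab with h | h
      · have : (1 : ℤ) = 4 * (1 - a1 ^ 2 - a1 + d * b1 ^ 2) := by linear_combination h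
        omega
      · have : (1 : ℤ) = 4 * (-1 - a1 ^ 2 - a1 + d * b1 ^ 2) := by linear_combination h
        omega
    -- choose the sign of `b0`
    obtain ⟨b1, hb1o, hb1, hb1s⟩ : ∃ b1 : ℤ, b1 % 2 = 1 ∧ b1 ^ 2 = b0 ^ 2 ∧
        4 ∣ A * b1 + B * a0 := by
      have e1 : (A * b0) % 2 = 1 := by rw [Int.mul_emod, hA2, hb0']; rfl
      have e2 : (B * a0) % 2 = 1 := by rw [Int.mul_emod, hB2, ha0']; rfl
      rcases (show (A * b0 + B * a0) % 4 = 0 ∨ (A * b0 + B * a0) % 4 = 2 by omega) with h | h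
      · exact ⟨b0, hb0', rfl, Int.dvd_of_emod_eq_zero h⟩
      · refine ⟨-b0, by omega, by ring, Int.dvd_of_emod_eq_zero ?_⟩
        have e3 : A * -b0 + B * a0 = (A * b0 + B * a0) - 2 * (A * b0) := by ring
        rw [e3]
        omega
    rw [← hb1] at hab
    -- the unit
    obtain ⟨e, he, hab'⟩ : ∃ e : ℤ, (e = 1 ∨ e = -1) ∧ a0 ^ 2 - d * b1 ^ 2 = 4 * e := by
      rcases hab with h | h
      · exact ⟨1, Or.inl rfl, by rw [h]; ring⟩
      · exact ⟨-1, Or.inr rfl, by rw [h]; ring⟩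
    obtain ⟨η, hη⟩ : ∃ η : 𝓞 K, 2 * η = (a0 : 𝓞 K) + (b1 : 𝓞 K) * s := by
      have hs2 := sqrt_sq s
      have hab'' : ((a0 : K) ^ 2 - (d : K) * (b1 : K) ^ 2) = 4 * (e : K) := by exact_mod_cast hab'
      have h1 : IsIntegral ℤ (((a0 : K) + (b1 : K) * ((s : 𝓞 K) : K)) / 2) := by
        refine ⟨Polynomial.X ^ 2 - Polynomial.C a0 * Polynomial.X + Polynomial.C e,
          by monicity!, ?_⟩
        simp only [Polynomial.eval₂_add, Polynomial.eval₂_sub, Polynomial.eval₂_mul,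
          Polynomial.eval₂_X_pow, Polynomial.eval₂_X, Polynomial.eval₂_C, algebraMap_int_eq,
          Int.coe_castRingHom]
        linear_combination (b1 ^ 2 / 4 : K) * hs2 - (1 / 4 : K) * hab''
      refine ⟨⟨_, h1⟩, ?_⟩
      apply RingOfIntegers.ext
      simp only [map_mul, map_add, map_intCast, map_ofNat]
      change (2 : K) * (((a0 : K) + (b1 : K) * ((s : 𝓞 K) : K)) / 2) = _
      ring
    have h20 : (2 : 𝓞 K) ≠ 0 := two_ne_zero
    have h40 : (4 : 𝓞 K) ≠ 0 := by norm_num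
    have habO : ((a0 : 𝓞 K) ^ 2 - (d : 𝓞 K) * (b1 : 𝓞 K) ^ 2) = 4 * (e : 𝓞 K) := by
      have := congrArg (Int.cast : ℤ → 𝓞 K) hab'
      push_cast at this
      exact this
    have hηe : η * ((a0 : 𝓞 K) - η) = e := by
      apply mul_left_cancel₀ h40
      have h1 : (2 * η) * (2 * (a0 : 𝓞 K) - 2 * η) = 4 * (e : 𝓞 K) := by
        rw [hη]
        linear_combination habO - ((b1 : 𝓞 K) ^ 2) * s.2
      linear_combination h1
    have hunit : IsUnit η := by
      refine isUnit_of_mul_isUnit_left (y := (a0 : 𝓞 K) - η) ?_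
      rw [hηe]
      rcases he with rfl | rfl
      · simp
      · simp
    obtain ⟨y, hy⟩ := hb1s
    have h4x : (4 : ℤ) ∣ A * a0 + d * B * b1 := by
      have h1 : (4 : ℤ) ∣ (A * a0 + d * B * b1) * a0 :=
        ⟨A * e + d * b1 * y, by linear_combination (A : ℤ) * hab' + d * b1 * hy⟩
      have h3 : IsCoprime (4 : ℤ) a0 := by
        obtain ⟨a1, ha1⟩ := hsq (a0 / 2)
        have h6 : a0 = 2 * (a0 / 2) + 1 := by omega
        exact ⟨-2 * a1, a0, by
          have h7 : a0 * a0 = 4 * ((a0 / 2) * (a0 / 2 + 1)) + 1 := by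
            conv_lhs => rw [h6]
            ring
          rw [h7, ha1]
          ring⟩
      exact h3.dvd_of_dvd_mul_right h1
    obtain ⟨x, hx⟩ := h4x
    have hz : α * η = toO s ⟨x, y⟩ := by
      apply mul_left_cancel₀ h40
      have h1 : (4 : 𝓞 K) * (α * η) = (2 * α) * (2 * η) := by ring
      have hxO : (A : 𝓞 K) * a0 + d * B * b1 = 4 * (x : 𝓞 K) := by
        have := congrArg (Int.cast : ℤ → 𝓞 K) hx
        push_cast at this
        exact this
      have hyO : (A : 𝓞 K) * b1 + B * a0 = 4 * (y : 𝓞 K) := by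
        have := congrArg (Int.cast : ℤ → 𝓞 K) hy
        push_cast at this
        exact this
      rw [h1, h2α, hη, toO_apply]
      linear_combination hxO + (s : 𝓞 K) * hyO + ((B : 𝓞 K) * b1) * s.2
    refine ⟨⟨x, y⟩, ?_⟩
    rw [← hz]
    exact (Ideal.span_singleton_mul_right_unit hunit α).symm

end Pool.Agent.EvM
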