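import Mathlib

/-!
# A group with an abelian subgroup of index two
-/

set_option autoImplicit false

namespace Pool.Agent.EvM

theorem central_of_index_two {G : Type*} [Group G] {A : Subgroup G} (hA : A.index = 2)
    (hab : ∀ a ∈ A, ∀ b ∈ A, a * b = b * a) {σ : G} (hσ : σ ∉ A)
    (hsq : ∀ a ∈ A, σ * (a * a) * σ⁻¹ = a * a) {X : Type*} [Finite X] {B : ℕ}
    (hX : Nat.card X ≤ B)
    (f : A → X) (hf : ∀ a b : A, f a = f b → (a : G) * (σ * b * σ⁻¹) = (σ * a * σ⁻¹) * b) :
    (∀ g h : G, g * g * h = h * (g * g)) ∧ (Subgroup.center G).index ≤ 2 * B := by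
  have hN : A.Normal := Subgroup.normal_of_index_eq_two hA
  have hsqA : ∀ g : G, g * g ∈ A := fun g => Subgroup.mul_self_mem_of_index_two hA g
  have hmul : ∀ {x y : G}, x ∉ A → y ∉ A → x * y⁻¹ ∈ A := by
    intro x y hx hy
    have h1 := Subgroup.mul_mem_iff_of_index_two hA (a := x) (b := y⁻¹)
    rw [h1, inv_mem_iff]
    exact ⟨fun h => absurd h hx, fun h => absurd h hy⟩
  have hcen : ∀ a ∈ A, ∀ x : G, x ∉ A → x * a = a * x → ∀ h : G, a * h = h * a := by
    intro a ha x hx hxa h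
    by_cases hh : h ∈ A
    · exact hab a ha h hh
    · have h1 := hmul hh hx
      have h2 := hab a ha _ h1
      calc a * h = a * (h * x⁻¹) * x := by group
        _ = (h * x⁻¹) * a * x := by rw [h2]
        _ = (h * x⁻¹) * (x * a) := by rw [hxa, mul_assoc]
        _ = h * a := by group
  refine ⟨fun g h => ?_, ?_⟩
  · by_cases hg : g ∈ A
    · refine hcen (g * g) (hsqA g) σ hσ ?_ h
      have := hsq g hg
      rw [mul_inv_eq_iff_eq_mul] at this
      exact this
    · exact hcen (g * g) (hsqA g) g hg (by group) h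
  · have hcj : ∀ a ∈ A, σ * a * σ⁻¹ ∈ A := fun a ha => hN.conj_mem a ha σ
    let φ : A →* G := MonoidHom.mk' (fun a => (a : G) * (σ * (a : G)⁻¹ * σ⁻¹)) (by
      intro a b
      have h1 := hab b b.2 _ (hcj _ (A.inv_mem a.2))
      change (a : G) * b * (σ * ((a : G) * b)⁻¹ * σ⁻¹) =
        (a : G) * (σ * (a : G)⁻¹ * σ⁻¹) * (b * (σ * (b : G)⁻¹ * σ⁻¹))
      have h2 := hab _ (hcj _ (A.inv_mem a.2)) _ (hcj _ (A.inv_mem b.2))
      calc (a : G) * b * (σ * ((a : G) * b)⁻¹ * σ⁻¹) =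
          a * b * ((σ * (b : G)⁻¹ * σ⁻¹) * (σ * (a : G)⁻¹ * σ⁻¹)) := by group
        _ = a * b * ((σ * (a : G)⁻¹ * σ⁻¹) * (σ * (b : G)⁻¹ * σ⁻¹)) := by rw [h2]
        _ = a * (b * (σ * (a : G)⁻¹ * σ⁻¹)) * (σ * (b : G)⁻¹ * σ⁻¹) := by group
        _ = a * ((σ * (a : G)⁻¹ * σ⁻¹) * b) * (σ * (b : G)⁻¹ * σ⁻¹) := by rw [h1]
        _ = _ := by group)
    have hφ : ∀ a : A, φ a = (a : G) * (σ * (a : G)⁻¹ * σ⁻¹) := fun _ => rfl
    have hfφ : ∀ a b : A, f a = f b → φ a = φ b := by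
      intro a b h
      rw [hφ, hφ]
      have h1 := hf a b h
      have h3 := hab _ (hcj _ a.2) b b.2
      rw [h3] at h1
      -- `a σbσ⁻¹ = b σaσ⁻¹`
      have h4 : (b : G)⁻¹ * a = (σ * a * σ⁻¹) * (σ * b * σ⁻¹)⁻¹ := by
        rw [eq_mul_inv_iff_mul_eq, mul_assoc, h1, inv_mul_cancel_left]
      have h5 := hab a a.2 _ (hcj _ (A.inv_mem a.2))
      have h6 := hab b b.2 _ (hcj _ (A.inv_mem b.2))
      have h7 := hab _ (hcj _ a.2) _ (hcj _ (A.inv_mem b.2))
      have h8 : (b : G)⁻¹ * a = (σ * (b : G)⁻¹ * σ⁻¹) * (σ * a * σ⁻¹) := by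
        rw [h4, ← h7]
        group
      calc (a : G) * (σ * (a : G)⁻¹ * σ⁻¹) = b * ((b : G)⁻¹ * a) * (σ * (a : G)⁻¹ * σ⁻¹) := by group
        _ = b * ((σ * (b : G)⁻¹ * σ⁻¹) * (σ * a * σ⁻¹)) * (σ * (a : G)⁻¹ * σ⁻¹) := by rw [h8]
        _ = _ := by group
    have hcard : Nat.card φ.range ≤ B := by
      refine le_trans ?_ hX
      have hpre : ∀ r : φ.range, ∃ a : A, φ a = r := fun r => r.2
      choose pre hpre using hpre
      refine Nat.card_le_card_of_injective (fun r => f (pre r)) ?_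
      intro r r' h
      have := hfφ _ _ h
      rw [hpre, hpre] at this
      exact Subtype.ext this
    have hker : φ.ker.index ≤ B := by rw [Subgroup.index_ker]; exact hcard
    have hfin : φ.ker.index ≠ 0 := by
      rw [Subgroup.index_ker]
      have : Finite φ.range := by
        have hpre : ∀ r : φ.range, ∃ a : A, φ a = r := fun r => r.2
        choose pre hpre using hpre
        refine Finite.of_injective (fun r => f (pre r)) ?_
        intro r r' h
        have := hfφ _ _ h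
        rw [hpre, hpre] at this
        exact Subtype.ext this
      exact Nat.card_ne_zero.2 ⟨⟨1⟩, this⟩
    have hle : φ.ker.map A.subtype ≤ Subgroup.center G := by
      rintro _ ⟨a, ha, rfl⟩
      rw [Subgroup.mem_center_iff]
      intro h
      have h1 : (a : G) * (σ * (a : G)⁻¹ * σ⁻¹) = 1 := ha
      refine (hcen a a.2 σ hσ ?_ h).symm
      have h2 : (a : G) * σ * (a : G)⁻¹ * σ⁻¹ = 1 := by rw [← h1]; group
      have h3 : (a : G) * σ * (a : G)⁻¹ = σ := by
        rw [mul_inv_eq_one] at h2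
        exact h2
      exact (mul_inv_eq_iff_eq_mul.1 h3).symm
    have hidx : (φ.ker.map A.subtype).index = φ.ker.index * 2 := by
      rw [← hA]
      exact Subgroup.index_map_subtype _
    have h1 : (Subgroup.center G).index ≤ (φ.ker.map A.subtype).index := by
      refine Nat.le_of_dvd ?_ (Subgroup.index_dvd_of_le hle)
      rw [hidx]
      omega
    rw [hidx] at h1
    omega

end Pool.Agent.EvM
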