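import Pool.Agent.SLow.Dens

/-!
# Every automorphism is an Artin symbol
-/

set_option autoImplicit false

open NumberField Module Pool.Agent.StarkRQ Pool.Agent.StarkU Pool.Agent.SLow

namespace Pool.Agent.EvM

theorem artin_surj {K L : Type} [Field K] [NumberField K] [Field L] [NumberField L] [Algebra K L]
    [IsAbelianGalois K L] {m : Ideal (𝓞 K)} (h0 : m ≠ ⊥)
    (hur : ∀ 𝔮 : Ideal (𝓞 K), 𝔮.IsPrime → 𝔮 ≠ ⊥ → IsCoprime 𝔮 m → UnrAt L 𝔮) (a : Gal(L/K)) :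
    ∃ 𝔞 : Ideal (𝓞 K), 𝔞 ≠ ⊥ ∧ IsCoprime 𝔞 m ∧ HasArtinSymbol 𝔞 a := by
  let P : Gal(L/K) → Prop := fun a => ∃ 𝔞 : Ideal (𝓞 K), 𝔞 ≠ ⊥ ∧ IsCoprime 𝔞 m ∧
    HasArtinSymbol 𝔞 a
  have hone : P 1 := ⟨⊤, top_ne_bot, by rw [← Ideal.one_eq_top]; exact isCoprime_one_left,
    ⟨[], by simp, by simp [Ideal.one_eq_top], by simp⟩⟩
  have hmul : ∀ {x y : Gal(L/K)}, P x → P y → P (x * y) := by
    rintro x y ⟨𝔞, h1, h2, h3⟩ ⟨𝔟, h4, h5, h6⟩
    exact ⟨𝔞 * 𝔟, mul_ne_zero h1 h4, h2.mul_left h5, hasArt_mul h3 h6⟩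
  have hpow : ∀ {x : Gal(L/K)}, P x → ∀ n : ℕ, P (x ^ n) := by
    intro x hx n
    induction n with
    | zero => rw [pow_zero]; exact hone
    | succ n ih => rw [pow_succ]; exact hmul ih hx
  let U : Subgroup Gal(L/K) :=
    { carrier := {x | P x}
      one_mem' := hone
      mul_mem' := fun hx hy => hmul hx hy
      inv_mem' := by
        intro x hx
        have h1 : x⁻¹ = x ^ (orderOf x - 1) := by
          rw [inv_eq_iff_mul_eq_one, ← pow_succ', Nat.sub_add_cancel (orderOf_pos x),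
            pow_orderOf_eq_one]
        change P x⁻¹
        rw [h1]
        exact hpow hx _ }
  by_contra hcon
  have hU : U ≠ ⊤ := by
    intro h
    have : a ∈ U := h ▸ Subgroup.mem_top a
    exact hcon this
  obtain ⟨C, hC⟩ := density h0 hur hU
  have hemp : IsEmpty {q : Ideal (𝓞 K) // (q.IsPrime ∧ q ≠ ⊥) ∧ (¬ m ≤ q ∧
      ∀ φ : Gal(L/K), IsFrob q φ → φ ∉ U)} := by
    refine ⟨?_⟩
    rintro ⟨q, ⟨hq, hq0⟩, hmq, hφ⟩
    obtain ⟨ψ, hψ⟩ := exists_isFrobU (M := L) hq hq0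
    refine hφ ψ hψ ⟨q, hq0, ?_, ⟨[(q, ψ)], by simpa using ⟨hq, hq0, hψ⟩, by simp, by simp⟩⟩
    have hmax : q.IsMaximal := hq.isMaximal hq0
    rw [Ideal.isCoprime_iff_sup_eq]
    by_contra h
    have h1 := hmax.eq_of_le h le_sup_left
    exact hmq (h1 ▸ le_sup_right)
  have h1 : ∀ s : ℝ, 1 < s → s < 2 → 1 / 2 * Real.log (1 / (s - 1)) ≤ C := by
    intro s hs hs'
    have := hC s hs hs'
    rw [tsum_empty] at this
    linarith
  have h2 := h1 (1 + Real.exp (-(2 * (|C| + 1)))) (by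
      have := Real.exp_pos (-(2 * (|C| + 1)))
      linarith) (by
      have : Real.exp (-(2 * (|C| + 1))) < 1 := by
        rw [Real.exp_lt_one_iff]
        have := abs_nonneg C
        linarith
      linarith)
  rw [add_sub_cancel_left, one_div (Real.exp _), ← Real.exp_neg, Real.log_exp] at h2
  have := le_abs_self C
  linarith

end Pool.Agent.EvM
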