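import Pool.Agent.EvM.Art
import Pool.Agent.EvM.Grp
import Pool.Agent.EvM.Clos
import Pool.Agent.EvM.Surj
import Pool.Agent.EvM.Gen
import Pool.Agent.StarkU.ExactU
import Pool.Agent.StarkRQ.OctG.Power

/-!
# A criterion for all moduli with a given set of primes
-/

set_option autoImplicit false

open NumberField Module Pool.Agent.StarkRQ Pool.Agent.StarkU Pool.Agent.HeckeM Pool.Agent.SLow
open scoped Pointwise

namespace Pool.Agent.EvM

section cop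

variable {K : Type} [Field K] [NumberField K]

/-- a prime factor of the norm -/
theorem exists_prime_dvd {𝔞 : Ideal (𝓞 K)} {p : ℕ} (hp : p.Prime) (h : p ∣ Ideal.absNorm 𝔞) :
    ∃ 𝔮 : Ideal (𝓞 K), 𝔮.IsPrime ∧ (p : 𝓞 K) ∈ 𝔮 ∧ 𝔮 ∣ 𝔞 := by
  obtain ⟨P, h1, h2, h3⟩ := Ideal.exists_isMaximal_dvd_of_dvd_absNorm' hp 𝔞 h
  refine ⟨P, h1.isPrime, ?_, h3⟩
  have h4 : (p : ℤ) ∈ P.under ℤ := by
    rw [h2]
    exact Ideal.mem_span_singleton_self _
  rw [Ideal.under_def, Ideal.mem_comap] at h4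
  simpa using h4

theorem coprime_iff {m : Ideal (𝓞 K)} {R N : ℕ}
    (hm : ∀ 𝔮 : Ideal (𝓞 K), 𝔮.IsPrime → 𝔮 ≠ ⊥ → (𝔮 ∣ m ↔ (R : 𝓞 K) ∈ 𝔮))
    (hRN : ∀ p : ℕ, p.Prime → (p ∣ N ↔ p ∣ R)) {𝔞 : Ideal (𝓞 K)} (h0 : 𝔞 ≠ ⊥) :
    IsCoprime 𝔞 m ↔ (Ideal.absNorm 𝔞).Coprime N := by
  constructor
  · intro h
    by_contra hcon
    obtain ⟨p, hp, h1, h2⟩ := Nat.Prime.not_coprime_iff_dvd.1 hcon
    obtain ⟨𝔮, hq, hpq, hqa⟩ := exists_prime_dvd hp h1
    have hq0 : 𝔮 ≠ ⊥ := fun h => h0 (by rw [h] at hqa; exact zero_dvd_iff.1 hqa)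
    have hR : (R : 𝓞 K) ∈ 𝔮 := by
      obtain ⟨k, hk⟩ := (hRN p hp).1 h2
      rw [hk]
      push_cast
      exact 𝔮.mul_mem_right _ hpq
    have h3 := (h.of_isCoprime_of_dvd_left hqa).of_isCoprime_of_dvd_right ((hm 𝔮 hq hq0).2 hR)
    rw [isCoprime_self, Ideal.isUnit_iff] at h3
    exact hq.ne_top h3
  · intro h
    by_contra hcon
    rw [Ideal.isCoprime_iff_sup_eq] at hcon
    obtain ⟨𝔮, hmax, hle⟩ := Ideal.exists_le_maximal _ hcon
    have hqa : 𝔮 ∣ 𝔞 := Ideal.dvd_iff_le.2 (le_sup_left.trans hle)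
    have hqm : 𝔮 ∣ m := Ideal.dvd_iff_le.2 (le_sup_right.trans hle)
    have hq0 : 𝔮 ≠ ⊥ := fun h => h0 (by rw [h] at hqa; exact zero_dvd_iff.1 hqa)
    have hR := (hm 𝔮 hmax.isPrime hq0).1 hqm
    obtain ⟨p, hp, hpn, hpq⟩ := exists_prime_factor hmax.isPrime hq0
    have h1 : p ∣ Ideal.absNorm 𝔞 := hpn.trans (Ideal.absNorm_dvd_absNorm_of_le
      (Ideal.dvd_iff_le.1 hqa))
    have h2 : p ∣ R := by
      by_contra hpR
      have hco : IsCoprime (p : ℤ) (R : ℤ) := by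
        rw [Nat.isCoprime_iff_coprime]
        exact (Nat.Prime.coprime_iff_not_dvd hp).2 hpR
      obtain ⟨a, b, hab⟩ := hco
      apply hmax.ne_top
      rw [Ideal.eq_top_iff_one]
      have h7 : (1 : 𝓞 K) = (a : 𝓞 K) * (p : 𝓞 K) + (b : 𝓞 K) * (R : 𝓞 K) := by
        rw [← Int.cast_one (R := 𝓞 K), ← hab]
        push_cast
        ring
      rw [h7]
      exact 𝔮.add_mem (𝔮.mul_mem_left _ hpq) (𝔮.mul_mem_left _ hR)
    exact Nat.Prime.not_coprime_iff_dvd.2 ⟨p, hp, h1, (hRN p hp).2 h2⟩ h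

end cop

theorem criterion {d : ℤ} {c c' R W : ℕ} {g : ℤ√d} (hg : Good d c' W g) (hcc : c' ∣ c)
    (hgc : (c : ℤ) ∣ g.im) (hR0 : R ≠ 0) (hWR : W ∣ R) (h2R : 2 ∣ R)
    (hdR : ∀ p : ℕ, p.Prime → (p : ℤ) ∣ d → p ∣ R) (hd : ¬ IsSquare d)
    {K : Type} [Field K] [NumberField K] (hK : finrank ℚ K = 2)
    (s : {x : 𝓞 K // x * x = (d : 𝓞 K)}) {τ : Gal(K/ℚ)} (hτ : τ • (s : 𝓞 K) = -(s : 𝓞 K))
    (hsq : ∀ 𝔞 : Ideal (𝓞 K), (Ideal.absNorm 𝔞).Coprime R →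
      ∃ y : ℤ√d, 𝔞 * 𝔞 = Ideal.span {toO s y} ∧ 0 < y.norm ∧ (c : ℤ) ∣ y.im)
    {k : ℕ} {X : Type} [Finite X] (hX : Nat.card X ≤ 16 * 4 ^ k) (f : Ideal (𝓞 K) → X)
    (hf : ∀ 𝔞 𝔞' : Ideal (𝓞 K), (Ideal.absNorm 𝔞).Coprime R → (Ideal.absNorm 𝔞').Coprime R →
      f 𝔞 = f 𝔞' → ∃ y : ℤ√d, 𝔞 * (τ • 𝔞') = Ideal.span {toO s y} ∧ 0 < y.norm ∧ (c : ℤ) ∣ y.im)
    {ι₁ ι₂ : K →+* ℝ} (hι : ι₁ ≠ ι₂) {m : Ideal (𝓞 K)} (hm0 : m ≠ ⊥)
    (hm : ∀ 𝔮 : Ideal (𝓞 K), 𝔮.IsPrime → 𝔮 ≠ ⊥ → (𝔮 ∣ m ↔ (R : 𝓞 K) ∈ 𝔮))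
    (hms : ∃ j : ℕ, ∀ a : ℤ, (c : ℤ) ∣ a → (W : ℤ) ^ j ∣ a → (a : 𝓞 K) * s ∈ m)
    {H : Type} [Field H] [NumberField H] [Algebra K H] [IsAbelianGalois K H] (i : H →+* ℂ)
    (hi : InRay ι₁ ι₂ m i) : StarkFor true (2 ^ k) ι₂ m i := by
  classical
  obtain ⟨M, _, _, _, _, _, _, ι, hιi, hcl⟩ := exists_closureQ (K := K) i
  have hTR : IsTotallyReal K := totallyReal_of hK hι
  have hGK : IsGalois ℚ K := isGalois_of hK
  have hAM : IsAbelianGalois K M := abelian_closure (H := H) hK hcl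
  -- `N`
  have hrad : (R : 𝓞 K) ∈ m.radical := by
    rw [Ideal.radical_eq_sInf, Submodule.mem_sInf]
    rintro P ⟨hmP, hP⟩
    have hP0 : P ≠ ⊥ := fun h => hm0 (by rw [h] at hmP; exact le_bot_iff.1 hmP)
    exact (hm P hP hP0).1 (Ideal.dvd_iff_le.2 hmP)
  obtain ⟨n, hn⟩ := hrad
  obtain ⟨N, hN⟩ : ∃ N : ℕ, N = R ^ (n + 1) := ⟨_, rfl⟩
  have hNm : (N : 𝓞 K) ∈ m := by
    rw [hN, pow_succ]
    push_cast
    exact m.mul_mem_right _ hn
  have hRN : ∀ p : ℕ, p.Prime → (p ∣ N ↔ p ∣ R) := by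
    intro p hp
    rw [hN]
    exact ⟨hp.dvd_of_dvd_pow, fun h => dvd_pow h (Nat.succ_ne_zero n)⟩
  have hN0 : N ≠ 0 := by rw [hN]; exact pow_ne_zero _ hR0
  have hN2 : 2 ∣ N := (hRN 2 Nat.prime_two).2 h2R
  -- `H` is unramified outside `m`
  have hur : ∀ 𝔮 : Ideal (𝓞 K), 𝔮.IsPrime → 𝔮 ≠ ⊥ → IsCoprime 𝔮 m → UnrAt H 𝔮 := by
    intro 𝔮 h𝔮 h0 hco Q hQ hQ𝔮
    subst hQ𝔮
    refine hi.hunr Q hQ ?_ hco
    rintro rfl
    exact h0 (by simp)
  have hcopN : ∀ 𝔮 : Ideal (𝓞 K), 𝔮.IsPrime → 𝔮 ≠ ⊥ → (N : 𝓞 K) ∉ 𝔮 → IsCoprime 𝔮 m := by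
    intro 𝔮 h𝔮 h0 hN𝔮
    by_contra hcon
    rw [not_isCoprime_iff h𝔮 h0] at hcon
    have h3 := (hm 𝔮 h𝔮 h0).1 hcon
    apply hN𝔮
    rw [hN]
    push_cast
    exact Ideal.pow_mem_of_mem _ h3 _ (Nat.succ_pos n)
  have hnotmem : ∀ {F : Type} [Field F] [NumberField F] {p : ℕ}, p.Prime → ¬ p ∣ N →
      ∀ 𝔮 : Ideal (𝓞 F), 𝔮.IsPrime → (p : 𝓞 F) ∈ 𝔮 → (N : 𝓞 F) ∉ 𝔮 := by
    intro F _ _ p hp hpN 𝔮 h𝔮 hp𝔮 hN𝔮
    have hco : IsCoprime (p : ℤ) (N : ℤ) := by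
      rw [Nat.isCoprime_iff_coprime]
      exact (Nat.Prime.coprime_iff_not_dvd hp).2 hpN
    obtain ⟨a, b, hab⟩ := hco
    apply h𝔮.ne_top
    rw [Ideal.eq_top_iff_one]
    have h7 : (1 : 𝓞 F) = (a : 𝓞 F) * (p : 𝓞 F) + (b : 𝓞 F) * (N : 𝓞 F) := by
      rw [← Int.cast_one (R := 𝓞 F), ← hab]
      push_cast
      ring
    rw [h7]
    exact 𝔮.add_mem (𝔮.mul_mem_left _ hp𝔮) (𝔮.mul_mem_left _ hN𝔮)
  have hram : ∀ p : ℕ, p.Prime → (p : ℤ) ∣ discr M → p ∣ N := by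
    intro p hp hpd
    by_contra hpN
    refine not_dvd_discr_closure (K := K) (H := H) hK hcl hp ?_ ?_ hpd
    · intro 𝔮 h𝔮 hp𝔮
      have h0 : 𝔮 ≠ ⊥ := split_ne_bot hp hp𝔮
      exact hur 𝔮 h𝔮 h0 (hcopN 𝔮 h𝔮 h0 (hnotmem hp hpN 𝔮 h𝔮 hp𝔮))
    · intro Q hQ hpQ t ht
      refine inertia_mem hK hd s hp ?_ hQ hpQ ht
      intro h
      apply hpN
      rcases (Nat.prime_iff_prime_int.1 hp).dvd_or_dvd h with h | h
      · have : p ∣ 2 := by exact_mod_cast h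
        exact this.trans hN2
      · exact (hRN p hp).2 (hdR p hp h)
  have hone : ∀ β : 𝓞 K, β - 1 ∈ coreI m → (∀ φ : K →+* ℝ, 0 < φ (β : K)) →
      HasArtinSymbol (Ideal.span {β}) (1 : Gal(M/K)) := fun β h2 h3 =>
    art_one (H := H) hK hcl ι₂ hur hi.hmod h2 h3
  have hnorm := absNorm_toO hK hd s
  have hNcore : (N : 𝓞 K) ∈ coreI m := by
    rw [mem_coreI]
    intro δ
    have h5 : δ • ((N : 𝓞 K)) = N :=
      map_natCast (MulSemiringAction.toRingHom Gal(K/ℚ) (𝓞 K) δ) N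
    rw [h5]
    exact hNm
  have hsym : ∀ {z : ℤ√d}, IsCoprime z.norm (R : ℤ) → 0 < z.norm → (c : ℤ) ∣ z.im →
      ∀ {t : Gal(M/K)}, HasArtinSymbol (Ideal.span {toO s z}) t →
        HasArtinSymbol (Ideal.span {toO s (star z)}) t := by
    intro z h2 h3 h4 t h5
    obtain ⟨j, hj⟩ := hms
    have hWRZ : (W : ℤ) ∣ (R : ℤ) := Int.natCast_dvd_natCast.2 hWR
    obtain ⟨k, q, hq⟩ := core hg (h2.of_isCoprime_of_dvd_right hWRZ)
      ((Int.natCast_dvd_natCast.2 hcc).trans h4) j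
    have hx1 : (g ^ k).norm = 1 := norm_pow_one hg.norm k
    refine art_sym hd s hN0 hNcore hram hone hnorm (by
      rw [hN]
      push_cast
      exact h2.pow_right) h3 hx1 ?_ h5
    have e1 : g ^ k * star (g ^ k) = 1 := by
      rw [← Zsqrtd.norm_eq_mul_conj, hx1, Int.cast_one]
    have e2 : (g ^ k) ^ 2 * z - star z = g ^ k * (g ^ k * z - star (g ^ k * z)) := by
      rw [star_mul']
      linear_combination (star z) * e1
    have e3 : toO s (⟨0, 1⟩ : ℤ√d) = (s : 𝓞 K) := by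
      rw [toO_apply]
      simp
    rw [e2, sub_star, map_mul, map_mul, e3, map_intCast]
    refine (coreI m).mul_mem_left _ ?_
    rw [mem_coreI]
    intro δ
    have e4 : δ • (((2 * (g ^ k * z).im : ℤ) : 𝓞 K)) = ((2 * (g ^ k * z).im : ℤ) : 𝓞 K) :=
      map_intCast (MulSemiringAction.toRingHom Gal(K/ℚ) (𝓞 K) δ) _
    have e5 : (δ • (s : 𝓞 K)) * (δ • (s : 𝓞 K)) = (s : 𝓞 K) * s := by
      rw [← smul_mul', s.2]
      exact map_intCast (MulSemiringAction.toRingHom Gal(K/ℚ) (𝓞 K) δ) d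
    have e6 : ((2 * (g ^ k * z).im : ℤ) : 𝓞 K) * s ∈ m := by
      refine hj _ ((dvd_im_mul (dvd_im_pow hgc k) h4).mul_left 2) ?_
      rw [hq]
      exact ⟨2 * (c' * q), by ring⟩
    rw [smul_mul', e4]
    rcases mul_self_eq_mul_self_iff.1 e5 with e7 | e7
    · rw [e7]
      exact e6
    · rw [e7, mul_neg]
      exact m.neg_mem e6
  -- the symbols
  have hurM : ∀ 𝔮 : Ideal (𝓞 K), 𝔮.IsPrime → 𝔮 ≠ ⊥ → IsCoprime 𝔮 (Ideal.span {(N : 𝓞 K)}) →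
      UnrAt M 𝔮 := by
    intro 𝔮 h𝔮 h0 hco
    refine unrAt_of_inI h0 fun Q hQ hQ𝔮 t ht _ => ?_
    by_contra ht1
    obtain ⟨p, hp, -, hp𝔮⟩ := exists_prime_factor h𝔮 h0
    have hpQ : (p : 𝓞 M) ∈ Q := by
      rw [← hQ𝔮, Ideal.mem_comap, map_natCast] at hp𝔮
      exact hp𝔮
    have h3 : (p : ℤ) ∣ discr M := by
      refine dvd_discr_of_inI (F := M) hp hpQ ht ?_
      intro h
      apply ht1
      rw [mem_fixG] at h
      ext x
      exact h x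
    have h4 := hram p hp h3
    have h5 : 𝔮 ∣ Ideal.span {(N : 𝓞 K)} := by
      rw [Ideal.dvd_span_singleton]
      obtain ⟨k, hk⟩ := h4
      rw [hk]
      push_cast
      exact 𝔮.mul_mem_right _ hp𝔮
    exact (not_isCoprime_iff h𝔮 h0).2 h5 hco
  have hspN : Ideal.span {(N : 𝓞 K)} ≠ ⊥ := by
    rw [Ne, Ideal.span_singleton_eq_bot]
    exact_mod_cast hN0
  have hex : ∀ a : fixG K M, ∃ 𝔞 : Ideal (𝓞 K), (Ideal.absNorm 𝔞).Coprime R ∧
      ∃ t : Gal(M/K), toG K M t = a ∧ HasArtinSymbol 𝔞 t := by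
    rintro ⟨_, t, rfl⟩
    obtain ⟨𝔞, h3, h4, h5⟩ := artin_surj hspN hurM t
    refine ⟨𝔞, ?_, t, rfl, h5⟩
    by_contra hcon
    obtain ⟨p, hp, h7, h8⟩ := Nat.Prime.not_coprime_iff_dvd.1 hcon
    obtain ⟨𝔮, hq, hpq, hqa⟩ := exists_prime_dvd hp h7
    have h9 : 𝔮 ∣ Ideal.span {(N : 𝓞 K)} := by
      rw [Ideal.dvd_span_singleton]
      obtain ⟨k, hk⟩ := (hRN p hp).2 h8
      rw [hk]
      push_cast
      exact 𝔮.mul_mem_right _ hpq
    exact (not_isCoprime_iff hq (split_ne_bot hp hpq)).2 h9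
      (h4.of_isCoprime_of_dvd_left hqa)
  choose J hJR t htA htJ using hex
  -- the group
  have hidx := fixG_index (F := K) (M := M) hK
  have hcomm := fixG_comm (F := K) (M := M)
    (fun σ τ : Gal(M/K) => IsMulCommutative.is_comm.comm σ τ)
  obtain ⟨σ, hσ⟩ : ∃ σ : Gal(M/ℚ), σ ∉ fixG K M := by
    by_contra hcon
    have : fixG K M = ⊤ := by
      rw [eq_top_iff]
      intro x _
      by_contra hx
      exact hcon ⟨x, hx⟩
    rw [this, Subgroup.index_top] at hidx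
    omega
  have hNrm := normal_fixG (K := K) (M := M) hK
  have hτσ : AlgEquiv.restrictNormalHom K σ = τ := by
    have h3 : (AlgEquiv.restrictNormalHom K σ) ((s : 𝓞 K) : K) = τ ((s : 𝓞 K) : K) := by
      apply (algebraMap K M).injective
      have h4 : algebraMap K M ((AlgEquiv.restrictNormalHom K σ) ((s : 𝓞 K) : K)) =
          σ (algebraMap K M ((s : 𝓞 K) : K)) := AlgEquiv.restrictNormal_commutes σ K _
      have h5 : τ ((s : 𝓞 K) : K) = -((s : 𝓞 K) : K) := by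
        have := congrArg (algebraMap (𝓞 K) K) hτ
        rw [map_neg] at this
        exact this
      rw [h4, smul_sqrt hK hd s hσ, h5, map_neg]
    have h4 : ((AlgEquiv.restrictNormalHom K σ : Gal(K/ℚ)) : K →+* K) = (τ : K →+* K) :=
      hom_ext_sqrt hK hd s h3
    ext x
    exact congrArg (fun f : K →+* K => f x) h4
  have hττ : τ * τ = 1 := by
    have h3 : ((τ * τ : Gal(K/ℚ)) : K →+* K) = RingHom.id K := by
      refine hom_ext_sqrt hK hd s ?_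
      have h5 : τ ((s : 𝓞 K) : K) = -((s : 𝓞 K) : K) := by
        have := congrArg (algebraMap (𝓞 K) K) hτ
        rw [map_neg] at this
        exact this
      change τ (τ ((s : 𝓞 K) : K)) = ((s : 𝓞 K) : K)
      rw [h5, map_neg, h5, neg_neg]
    ext x
    exact congrArg (fun f : K →+* K => f x) h3
  -- conjugates
  have hconj : ∀ a : fixG K M, ∃ t' : Gal(M/K), toG K M t' = σ * a * σ⁻¹ ∧
      HasArtinSymbol (τ • J a) t' := by
    intro a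
    obtain ⟨t', ht'⟩ := hNrm.conj_mem a a.2 σ
    refine ⟨t', ht', ?_⟩
    have h3 := hasArt_conj (M := M) hK (γ := σ) (t := t a) (t' := t') (by rw [ht', htA]) (htJ a)
    rw [hτσ] at h3
    exact h3
  choose t' ht'A ht'J using hconj
  have huniq : ∀ {𝔞 : Ideal (𝓞 K)}, (Ideal.absNorm 𝔞).Coprime R → ∀ {x y : Gal(M/K)},
      HasArtinSymbol 𝔞 x → HasArtinSymbol 𝔞 y → x = y :=
    fun hw _ _ hx hy => HeckeRQ.artin_unique hram (by rw [hN]; exact Nat.Coprime.pow_right _ hw)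
      hx hy
  have hstar : ∀ y : ℤ√d, τ • Ideal.span {toO s y} = Ideal.span {toO s (star y)} := by
    intro y
    rw [← hτσ]
    exact smul_span_toO hK hd s hσ y
  have hτn : ∀ 𝔞 : Ideal (𝓞 K), Ideal.absNorm (τ • 𝔞) = Ideal.absNorm 𝔞 := fun 𝔞 =>
    absNorm_smul τ 𝔞
  have hττs : ∀ 𝔞 : Ideal (𝓞 K), τ • τ • 𝔞 = 𝔞 := fun 𝔞 => by
    rw [smul_smul, hττ, one_smul]
  -- the symbol of a symmetric ideal and of its conjugate agree
  have hsym' : ∀ {y : ℤ√d}, (Ideal.absNorm (Ideal.span {toO s y})).Coprime R → 0 < y.norm →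
      (c : ℤ) ∣ y.im → ∀ {x x' : Gal(M/K)}, HasArtinSymbol (Ideal.span {toO s y}) x →
        HasArtinSymbol (Ideal.span {toO s (star y)}) x' → x = x' := by
    intro y hy hpos hc x x' hx hx'
    have h3 : IsCoprime y.norm (R : ℤ) := by
      rw [hnorm] at hy
      exact Int.isCoprime_iff_gcd_eq_one.2 hy
    refine huniq ?_ (hsym h3 hpos hc hx) hx'
    rw [hnorm, Zsqrtd.norm_conj, ← hnorm]
    exact hy
  have hcen := central_of_index_two (A := fixG K M) hidx hcomm hσ (X := X) ?_ hX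
    (fun a => f (J a)) ?_
  · obtain ⟨hsq, hind⟩ := hcen
    have hreal : ∀ y : H, (ι (algebraMap H M y)).im = 0 := fun y => by
      rw [hιi]
      exact hi.hreal y
    have hover : ∀ x : K, ι (algebraMap K M x) = ι₁ x := fun x => by
      rw [IsScalarTower.algebraMap_apply K H M, hιi]
      exact hi.hover x
    obtain ⟨x₀, hx₀⟩ : ∃ x : K, ι₂ x ≠ ι₁ x := by
      by_contra hcon
      apply hι
      ext x
      by_contra hx
      exact hcon ⟨x, fun h => hx h.symm⟩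
    have hι₂ : ∃ x : K, ((ι₂ x : ℝ) : ℂ) ≠ ι (algebraMap K M x) := by
      refine ⟨x₀, fun h => hx₀ ?_⟩
      rw [hover] at h
      exact Complex.ofReal_injective h
    have hmodH : ∀ a : 𝓞 K, (N : 𝓞 K) ∣ a - 1 → 0 < ι₂ (a : K) →
        HasArtinSymbol (Ideal.span {a}) (1 : Gal(H/K)) := by
      intro a h2 h3
      refine hi.hmod a ?_ h3
      obtain ⟨x, hx⟩ := h2
      rw [hx]
      exact m.mul_mem_right _ hNm
    obtain ⟨Z, ε, hZ, h3, h4, h5⟩ := OctG.all_power (m := k) hK hsq (by omega) ι hreal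
      hN0 hN2 hram ι₂ hι₂ hmodH
    refine ⟨Z, ε, fun τ => ⟨⟨(hZ τ).1.1, fun w hw => ?_⟩, ?_⟩, h3, fun γ hγ τ => ?_, fun _ => h4⟩
    · rw [(hZ τ).1.2 w hw]
      refine LSeries_congr (fun {l} hl => ?_) w
      have hcard : zcoeff N τ l = zcI m τ l := by
        unfold zcoeff zcI
        have h6 : ∀ 𝔞 : Ideal (𝓞 K), Ideal.absNorm 𝔞 = l →
            (IsCoprime 𝔞 m ↔ l.Coprime N) := by
          intro 𝔞 h𝔞
          have h0 : 𝔞 ≠ ⊥ := by
            rintro rfl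
            rw [Ideal.absNorm_bot] at h𝔞
            exact hl h𝔞.symm
          rw [coprime_iff hm hRN h0, h𝔞]
        split_ifs with hkN
        · refine Nat.card_congr (Equiv.subtypeEquivRight fun 𝔞 => ?_)
          constructor
          · rintro ⟨h7, h8⟩
            exact ⟨h7, (h6 𝔞 h7).2 hkN, h8⟩
          · rintro ⟨h7, -, h8⟩
            exact ⟨h7, h8⟩
        · symm
          rw [Nat.card_eq_zero]
          left
          refine ⟨?_⟩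
          rintro ⟨𝔞, h7, h8, -⟩
          exact hkN ((h6 𝔞 h7).1 h8)
      change ((zcoeff N τ l : ℕ) : ℂ) = ((zcI m τ l : ℕ) : ℂ)
      rw [hcard]
    · rw [← hιi]
      refine (hZ τ).2.trans ?_
      congr 1
      push_cast
      ring
    · refine h5 γ ⟨x₀, ?_⟩ τ
      rw [hγ, hover]
      intro h
      exact hx₀ (Complex.ofReal_injective h)
  · intro a ha
    set a0 : fixG K M := ⟨a, ha⟩ with ha0
    obtain ⟨y, hy, hpos, hyc⟩ := hsq (J a0) (hJR a0)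
    have hcop : (Ideal.absNorm (Ideal.span {toO s y})).Coprime R := by
      rw [← hy, map_mul]
      exact Nat.Coprime.mul_left (hJR a0) (hJR a0)
    have h3 : HasArtinSymbol (Ideal.span {toO s y}) (t a0 * t a0) := by
      rw [← hy]
      exact hasArt_mul (htJ a0) (htJ a0)
    have h5 : HasArtinSymbol (Ideal.span {toO s (star y)}) (t' a0 * t' a0) := by
      rw [← hstar, ← hy, smul_mul']
      exact hasArt_mul (ht'J a0) (ht'J a0)
    have h6 := hsym' hcop hpos hyc h3 h5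
    have h7 := congrArg (toG K M) h6
    rw [map_mul, map_mul, htA, ht'A] at h7
    change a * a = (σ * a * σ⁻¹) * (σ * a * σ⁻¹) at h7
    calc σ * (a * a) * σ⁻¹ = (σ * a * σ⁻¹) * (σ * a * σ⁻¹) := by group
      _ = a * a := h7.symm
  · intro a b hab
    obtain ⟨y, hy, hpos, hyc⟩ := hf (J a) (J b) (hJR a) (hJR b) hab
    have hcop : (Ideal.absNorm (Ideal.span {toO s y})).Coprime R := by
      rw [← hy, map_mul, hτn]
      exact Nat.Coprime.mul_left (hJR a) (hJR b)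
    have h3 : HasArtinSymbol (Ideal.span {toO s y}) (t a * t' b) := by
      rw [← hy]
      exact hasArt_mul (htJ a) (ht'J b)
    have h5 : HasArtinSymbol (Ideal.span {toO s (star y)}) (t' a * t b) := by
      rw [← hstar, ← hy, smul_mul', hττs]
      exact hasArt_mul (ht'J a) (htJ b)
    have h6 := hsym' hcop hpos hyc h3 h5
    have h7 := congrArg (toG K M) h6
    rw [map_mul, map_mul, htA, htA, ht'A, ht'A] at h7
    exact h7

end Pool.Agent.EvM
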