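import Mathlib

/-!
# The ratio `z / z̄` modulo a prime number
-/

set_option autoImplicit false

namespace Pool.Agent.EvM

open Finset

private lemma sq_pow {d : ℤ} {q : ℕ} [Fact q.Prime] {F : Type} [Field F] [Algebra (ZMod q) F]
    {δ : F} (hδ : δ * δ = (d : F)) (hodd : q % 2 = 1) :
    δ ^ q = δ * algebraMap (ZMod q) F ((d : ZMod q) ^ (q / 2)) := by
  have h1 : q = 2 * (q / 2) + 1 := by omega
  have h2 : (d : F) = algebraMap (ZMod q) F (d : ZMod q) := by simp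
  calc δ ^ q = δ ^ (2 * (q / 2) + 1) := by rw [← h1]
    _ = δ * (δ * δ) ^ (q / 2) := by rw [pow_succ, pow_mul, pow_two]; ring
    _ = δ * algebraMap (ZMod q) F ((d : ZMod q) ^ (q / 2)) := by rw [hδ, h2, map_pow]

/-- A homomorphism from `ℤ[√d]` to a field which detects the divisibility by `q`. -/
theorem loc_hom (d : ℤ) {q : ℕ} (hq : q.Prime) (hqd : ¬ (q : ℤ) ∣ 2 * d) :
    ∃ (F : Type) (_ : Field F) (φ : ℤ√d →+* F),
      (∀ z : ℤ√d, ¬ (q : ℤ) ∣ z.norm → φ z ≠ 0 ∧ φ (star z) ≠ 0) ∧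
      (∀ z : ℤ√d, φ z = φ (star z) ↔ (q : ℤ) ∣ z.im) ∧
      ∀ r : ℕ, ((IsSquare (d : ZMod q) ∧ 2 * r + 1 = q) ∨
        (¬ IsSquare (d : ZMod q) ∧ 2 * r = q + 1)) →
        ∀ z : ℤ√d, ¬ (q : ℤ) ∣ z.norm → φ z ^ (2 * r) = φ (star z) ^ (2 * r) := by
  have : Fact q.Prime := ⟨hq⟩
  have hqZ := Nat.prime_iff_prime_int.1 hq
  have hq2 : q ≠ 2 := by
    rintro rfl
    exact hqd (Dvd.intro d rfl)
  have hqd' : ¬ (q : ℤ) ∣ d := fun h => hqd (h.mul_left 2)
  have hodd : q % 2 = 1 := by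
    rcases hq.eq_two_or_odd with h | h
    · exact absurd h hq2
    · exact h
  let F := AlgebraicClosure (ZMod q)
  have hchar : CharP F q := charP_of_injective_algebraMap (algebraMap (ZMod q) F).injective q
  obtain ⟨δ, hδ⟩ := IsAlgClosed.exists_pow_nat_eq ((d : ℤ) : F) (show 0 < 2 by norm_num)
  rw [pow_two] at hδ
  have hint : ∀ n : ℤ, ((n : ℤ) : F) = 0 ↔ (q : ℤ) ∣ n := fun n =>
    CharP.intCast_eq_zero_iff F q n
  have hδ0 : δ ≠ 0 := by
    rintro rfl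
    rw [mul_zero] at hδ
    exact hqd' ((hint d).1 hδ.symm)
  have h20 : (2 : F) ≠ 0 := by
    intro h
    have h1 : (((2 : ℤ)) : F) = 0 := by exact_mod_cast h
    have h2 := (hint 2).1 h1
    have h3 : q ∣ 2 := by exact_mod_cast h2
    exact hq2 ((Nat.prime_dvd_prime_iff_eq hq Nat.prime_two).1 h3)
  let φ : ℤ√d →+* F := Zsqrtd.lift ⟨δ, hδ⟩
  have hφ : ∀ z : ℤ√d, φ z = (z.re : F) + (z.im : F) * δ := fun z => rfl
  have hφs : ∀ z : ℤ√d, φ (star z) = (z.re : F) - (z.im : F) * δ := fun z => by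
    rw [hφ]
    simp
    ring
  have hnorm : ∀ z : ℤ√d, φ z * φ (star z) = (z.norm : F) := by
    intro z
    rw [← map_mul, ← Zsqrtd.norm_eq_mul_conj, map_intCast]
  have h0 : ∀ z : ℤ√d, ¬ (q : ℤ) ∣ z.norm → φ z ≠ 0 ∧ φ (star z) ≠ 0 := by
    intro z hz
    have h1 : φ z * φ (star z) ≠ 0 := by
      rw [hnorm]
      exact fun h => hz ((hint _).1 h)
    exact ⟨left_ne_zero_of_mul h1, right_ne_zero_of_mul h1⟩
  refine ⟨F, inferInstance, φ, h0, ?_, ?_⟩
  · intro z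
    rw [hφs, hφ, ← hint]
    constructor
    · intro h
      have h1 : 2 * ((z.im : F) * δ) = 0 := by linear_combination h
      rcases mul_eq_zero.1 h1 with h2 | h2
      · exact absurd h2 h20
      · exact (mul_eq_zero.1 h2).resolve_right hδ0
    · intro h
      rw [h]
      ring
  · intro r hr z hz
    obtain ⟨hz1, hz2⟩ := h0 z hz
    have hfr : ∀ n : ℤ, ((n : ℤ) : F) ^ q = (n : F) := by
      intro n
      have h2 : (n : F) = algebraMap (ZMod q) F (n : ZMod q) := by simp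
      rw [h2, ← map_pow, ZMod.pow_card]
    have hdz : (d : ZMod q) ≠ 0 := by
      rw [Ne, ZMod.intCast_zmod_eq_zero_iff_dvd]
      exact hqd'
    have hF1 : ∀ w : ℤ√d, φ w ^ q = (w.re : F) + (w.im : F) * δ ^ q := by
      intro w
      rw [hφ, add_pow_char, mul_pow, hfr, hfr]
    have hδq := sq_pow hδ hodd
    rcases hr with ⟨hsq, hr⟩ | ⟨hsq, hr⟩
    · have h1 := (ZMod.euler_criterion q hdz).1 hsq
      rw [h1, map_one, mul_one] at hδq
      have h2 : ∀ w : ℤ√d, φ w ≠ 0 → φ w ^ (2 * r) = 1 := by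
        intro w hw
        have h3 : φ w ^ (2 * r) * φ w = 1 * φ w := by
          rw [← pow_succ, hr, hF1, hδq, one_mul, hφ]
        exact mul_right_cancel₀ hw h3
      rw [h2 _ hz1, h2 _ hz2]
    · have h1 : (d : ZMod q) ^ (q / 2) = -1 := by
        rcases ZMod.pow_div_two_eq_neg_one_or_one q hdz with h | h
        · exact absurd ((ZMod.euler_criterion q hdz).2 h) hsq
        · exact h
      rw [h1, map_neg, map_one] at hδq
      have h2 : ∀ w : ℤ√d, φ w ^ q = φ (star w) := by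
        intro w
        rw [hF1, hδq, hφs]
        ring
      have h3 := h2 (star z)
      rw [star_star] at h3
      rw [hr, pow_succ, pow_succ, h2, h3, mul_comm]

/-- Local solution of the congruence. -/
theorem loc_solve {d : ℤ} {q r : ℕ} (hq : q.Prime) (hqd : ¬ (q : ℤ) ∣ 2 * d) (hr0 : 0 < r)
    (hr : (IsSquare (d : ZMod q) ∧ 2 * r + 1 = q) ∨ (¬ IsSquare (d : ZMod q) ∧ 2 * r = q + 1))
    {g : ℤ√d} (hg : g.norm = 1)
    (hgr : (q : ℤ) ∣ (g ^ r).im) (hord : ∀ n, 0 < n → n < r → ¬ (q : ℤ) ∣ (g ^ n).im) :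
    ∃ χ : ℤ√d → Bool, (∀ z : ℤ√d, ¬ (q : ℤ) ∣ z.norm → χ (z * z) = true) ∧
      (∀ z : ℤ√d, ¬ (q : ℤ) ∣ z.norm → χ z = true → ∃ n : ℕ, ∀ k : ℕ, k ≡ n [MOD r] →
        (q : ℤ) ∣ (g ^ k * z).im) ∧
      ∀ z z' : ℤ√d, ¬ (q : ℤ) ∣ z.norm → ¬ (q : ℤ) ∣ z'.norm → χ z = χ z' →
        χ (z * star z') = true := by
  classical
  have hqZ := Nat.prime_iff_prime_int.1 hq
  obtain ⟨F, _, φ, h0, h1, h2⟩ := loc_hom d hq hqd
  have h3 := h2 r hr
  let ρ : ℤ√d → F := fun z => φ z / φ (star z)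
  have hρ : ∀ z, ρ z = φ z / φ (star z) := fun z => rfl
  have hρmul : ∀ z w : ℤ√d, ρ (z * w) = ρ z * ρ w := by
    intro z w
    rw [hρ, hρ, hρ, star_mul', map_mul, map_mul, mul_div_mul_comm]
  have hρ1 : ρ 1 = 1 := by rw [hρ, star_one, map_one, div_one]
  have hρpow : ∀ (z : ℤ√d) (n : ℕ), ρ (z ^ n) = ρ z ^ n := by
    intro z n
    induction n with
    | zero => rw [pow_zero, pow_zero, hρ1]
    | succ n ih => rw [pow_succ, hρmul, ih, pow_succ]
  have hρiff : ∀ z : ℤ√d, ¬ (q : ℤ) ∣ z.norm → (ρ z = 1 ↔ (q : ℤ) ∣ z.im) := by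
    intro z hz
    rw [hρ, div_eq_one_iff_eq (h0 z hz).2, h1]
  have hρ2r : ∀ z : ℤ√d, ¬ (q : ℤ) ∣ z.norm → ρ z ^ (2 * r) = 1 := by
    intro z hz
    rw [hρ, div_pow, h3 z hz, div_self (pow_ne_zero _ (h0 z hz).2)]
  have hρstar : ∀ z : ℤ√d, ¬ (q : ℤ) ∣ z.norm → ρ (star z) = (ρ z)⁻¹ := by
    intro z hz
    rw [hρ, hρ, star_star, inv_div]
  have hgn : ∀ n : ℕ, (g ^ n).norm = 1 := by
    intro n
    have e := map_pow (Zsqrtd.normMonoidHom (d := d)) g n
    change (g ^ n).norm = g.norm ^ n at e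
    rw [e, hg, one_pow]
  have hq1 : ¬ (q : ℤ) ∣ 1 := hqZ.not_dvd_one
  have hgq : ∀ n : ℕ, ¬ (q : ℤ) ∣ (g ^ n).norm := fun n => by rw [hgn]; exact hq1
  have hprim : IsPrimitiveRoot (ρ g) r := by
    refine IsPrimitiveRoot.mk_of_lt _ hr0 ?_ ?_
    · rw [← hρpow]
      exact (hρiff _ (hgq r)).2 hgr
    · intro n hn0 hn
      rw [← hρpow, Ne, hρiff _ (hgq n)]
      exact hord n hn0 hn
  refine ⟨fun z => decide (ρ z ^ r = 1), ?_, ?_, ?_⟩
  · intro z hz
    simp only [decide_eq_true_eq]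
    rw [hρmul, ← pow_two, ← pow_mul]
    exact hρ2r z hz
  · intro z hz hz1
    simp only [decide_eq_true_eq] at hz1
    have : NeZero r := ⟨hr0.ne'⟩
    obtain ⟨i, hi, hi'⟩ := hprim.eq_pow_of_pow_eq_one hz1
    refine ⟨r - i, fun k hk => ?_⟩
    have hz' : ¬ (q : ℤ) ∣ (g ^ k * z).norm := by
      rw [Zsqrtd.norm_mul, hgn, one_mul]
      exact hz
    rw [← hρiff _ hz', hρmul, hρpow, ← hi', ← pow_add]
    have h6 : r ∣ k + i := by
      have h7 : k + i ≡ (r - i) + i [MOD r] := hk.add_right i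
      rw [Nat.sub_add_cancel hi.le] at h7
      exact (Nat.modEq_zero_iff_dvd.1 (h7.trans (by simp [Nat.ModEq])))
    exact (hprim.pow_eq_one_iff_dvd _).2 h6
  · intro z z' hz hz' hzz
    simp only [decide_eq_decide] at hzz
    simp only [decide_eq_true_eq]
    rw [hρmul, hρstar z' hz', mul_pow, inv_pow]
    have h8 : ∀ w : ℤ√d, ¬ (q : ℤ) ∣ w.norm → ρ w ^ r = 1 ∨ ρ w ^ r = -1 := by
      intro w hw
      have := hρ2r w hw
      rw [mul_comm, pow_mul] at this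
      have h9 : (ρ w ^ r - 1) * (ρ w ^ r + 1) = 0 := by linear_combination this
      rcases mul_eq_zero.1 h9 with h | h
      · exact Or.inl (sub_eq_zero.1 h)
      · exact Or.inr (eq_neg_of_add_eq_zero_left h)
    rcases h8 z hz with h9 | h9
    · rw [h9, hzz.1 h9]
      simp
    · rcases h8 z' hz' with h10 | h10
      · rw [h10, hzz.2 h10]
        simp
      · rw [h9, h10]
        simp

end Pool.Agent.EvM
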