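import Pool.Agent.EvM.Crit

/-!
# Membership in an ideal prime by prime
-/

set_option autoImplicit false

open NumberField Module Pool.Agent.StarkRQ Pool.Agent.StarkU

namespace Pool.Agent.EvM

variable {K : Type} [Field K] [NumberField K]

theorem mem_of_pows {m : Ideal (𝓞 K)} (hm0 : m ≠ ⊥) {x : 𝓞 K}
    (h : ∀ 𝔮 : Ideal (𝓞 K), 𝔮.IsPrime → 𝔮 ≠ ⊥ → ∀ e : ℕ, 𝔮 ^ e ∣ m → x ∈ 𝔮 ^ e) : x ∈ m := by
  rw [← Ideal.dvd_span_singleton]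
  rw [UniqueFactorizationMonoid.dvd_iff_emultiplicity_le hm0]
  intro 𝔮 h𝔮
  rw [emultiplicity_le_emultiplicity_iff]
  intro e he
  rw [Ideal.dvd_span_singleton]
  exact h 𝔮 (Ideal.isPrime_of_prime h𝔮) h𝔮.ne_zero e he

theorem pow_le_absNorm {m 𝔮 : Ideal (𝓞 K)} (hm0 : m ≠ ⊥) (h𝔮 : 𝔮.IsPrime) {e : ℕ}
    (h : 𝔮 ^ e ∣ m) : e ≤ Ideal.absNorm m := by
  have h1 : Ideal.absNorm 𝔮 ^ e ∣ Ideal.absNorm m := by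
    rw [← map_pow]
    exact Ideal.absNorm_dvd_absNorm_of_le (Ideal.dvd_iff_le.1 h)
  have hm1 : Ideal.absNorm m ≠ 0 := by
    rw [Ne, Ideal.absNorm_eq_zero_iff]
    exact hm0
  have h2 := Nat.le_of_dvd (Nat.pos_of_ne_zero hm1) h1
  rcases Nat.eq_zero_or_pos e with rfl | he
  · exact Nat.zero_le _
  have h3 : Ideal.absNorm 𝔮 ≠ 0 := by
    intro h4
    rw [h4, zero_pow he.ne'] at h1
    exact hm1 (Nat.eq_zero_of_zero_dvd h1)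
  have h4 : Ideal.absNorm 𝔮 ≠ 1 := by
    rw [Ne, Ideal.absNorm_eq_one_iff]
    exact h𝔮.ne_top
  have h5 : 2 ^ e ≤ Ideal.absNorm 𝔮 ^ e := Nat.pow_le_pow_left (by omega) e
  exact (Nat.lt_two_pow_self (n := e)).le.trans (h5.trans h2)

/-- The part of `m` over the prime `p` divides `n`. -/
def PartDvd (p : ℕ) (m n : Ideal (𝓞 K)) : Prop :=
  ∀ 𝔮 : Ideal (𝓞 K), 𝔮.IsPrime → (p : 𝓞 K) ∈ 𝔮 → ∀ e : ℕ, 𝔮 ^ e ∣ m → 𝔮 ^ e ∣ n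

/-- tame and wild primes -/
theorem exists_bound {c W R : ℕ} {m : Ideal (𝓞 K)} (hm0 : m ≠ ⊥) (s : 𝓞 K)
    (hm : ∀ 𝔮 : Ideal (𝓞 K), 𝔮.IsPrime → 𝔮 ≠ ⊥ → (𝔮 ∣ m ↔ (R : 𝓞 K) ∈ 𝔮))
    (hW : ∀ p : ℕ, p.Prime → p ∣ R → ¬ PartDvd p m (Ideal.span {(c : 𝓞 K) * s}) → p ∣ W) :
    ∃ j : ℕ, ∀ a : ℤ, (c : ℤ) ∣ a → (W : ℤ) ^ j ∣ a → (a : 𝓞 K) * s ∈ m := by
  refine ⟨Ideal.absNorm m, fun a hca hWa => mem_of_pows hm0 fun 𝔮 h𝔮 h0 e he => ?_⟩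
  rcases Nat.eq_zero_or_pos e with rfl | he0
  · rw [pow_zero, Ideal.one_eq_top]
    trivial
  have h𝔮m : 𝔮 ∣ m := (dvd_pow_self 𝔮 he0.ne').trans he
  obtain ⟨p, hp, -, hp𝔮⟩ := exists_prime_factor h𝔮 h0
  have hR𝔮 := (hm 𝔮 h𝔮 h0).1 h𝔮m
  have hpR : p ∣ R := by
    by_contra hpn
    have hco : IsCoprime (p : ℤ) (R : ℤ) := by
      rw [Nat.isCoprime_iff_coprime]
      exact (Nat.Prime.coprime_iff_not_dvd hp).2 hpn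
    obtain ⟨a, b, hab⟩ := hco
    apply h𝔮.ne_top
    rw [Ideal.eq_top_iff_one]
    have h7 : (1 : 𝓞 K) = (a : 𝓞 K) * (p : 𝓞 K) + (b : 𝓞 K) * (R : 𝓞 K) := by
      rw [← Int.cast_one (R := 𝓞 K), ← hab]
      push_cast
      ring
    rw [h7]
    exact 𝔮.add_mem (𝔮.mul_mem_left _ hp𝔮) (𝔮.mul_mem_left _ hR𝔮)
  by_cases hpd : PartDvd p m (Ideal.span {(c : 𝓞 K) * s})
  · have h1 := hpd 𝔮 h𝔮 hp𝔮 e he
    rw [Ideal.dvd_span_singleton] at h1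
    obtain ⟨k, rfl⟩ := hca
    have h2 : (((c : ℤ) * k : ℤ) : 𝓞 K) * s = (k : 𝓞 K) * ((c : 𝓞 K) * s) := by
      push_cast
      ring
    rw [h2]
    exact (𝔮 ^ e).mul_mem_left _ h1
  · obtain ⟨l, hl⟩ := hW p hp hpR hpd
    refine (𝔮 ^ e).mul_mem_right _ ?_
    obtain ⟨k, rfl⟩ := hWa
    push_cast
    refine (𝔮 ^ e).mul_mem_right _ ?_
    have h2 : (W : 𝓞 K) ∈ 𝔮 := by
      rw [hl]
      push_cast
      exact 𝔮.mul_mem_right _ hp𝔮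
    exact Ideal.pow_le_pow_right (pow_le_absNorm hm0 h𝔮 he) (Ideal.pow_mem_pow h2 _)

end Pool.Agent.EvM
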