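import Pool.Agent.EvM.Crit
import Pool.Agent.EvM.Loc
import Pool.Agent.EvM.Amb
import Pool.Agent.EvM.Mod

/-!
# The primes of `2 d` and further primes
-/

set_option autoImplicit false

open NumberField Module Pool.Agent.StarkRQ Pool.Agent.StarkU Pool.Agent.HeckeM Pool.Agent.SLow
open scoped Pointwise

namespace Pool.Agent.EvM

/-- The hypotheses on the further primes: `P` is a set of primes `q` not dividing `2 d`; the
numbers `r q = (q - (d/q)) / 2` are pairwise coprime; and `r q` is the least `n > 0` such that `q`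
divides `im (g ^ n)`. -/
structure Further (d : ℤ) (g : ℤ√d) (P : Finset ℕ) (r : ℕ → ℕ) : Prop where
  prime : ∀ q ∈ P, q.Prime
  not_dvd : ∀ q ∈ P, ¬ (q : ℤ) ∣ 2 * d
  hr : ∀ q ∈ P, (IsSquare (d : ZMod q) ∧ 2 * r q + 1 = q) ∨
    (¬ IsSquare (d : ZMod q) ∧ 2 * r q = q + 1)
  coprime : ∀ q ∈ P, ∀ q' ∈ P, q ≠ q' → (r q).Coprime (r q')
  dvd : ∀ q ∈ P, (q : ℤ) ∣ (g ^ r q).im
  rank : ∀ q ∈ P, ∀ n : ℕ, 0 < n → n < r q → ¬ (q : ℤ) ∣ (g ^ n).im

theorem Further.pos {d : ℤ} {g : ℤ√d} {P : Finset ℕ} {r : ℕ → ℕ} (hF : Further d g P r) {q : ℕ}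
    (hq : q ∈ P) : 0 < r q := by
  have h1 := (hF.prime q hq).two_le
  rcases hF.hr q hq with ⟨-, h2⟩ | ⟨-, h2⟩
  · rcases Nat.lt_or_ge 2 q with h3 | h3
    · omega
    · exfalso
      refine hF.not_dvd q hq ?_
      have : q = 2 := by omega
      rw [this]
      exact Dvd.intro d rfl
  · omega

section

variable {d : ℤ} {g : ℤ√d} {P : Finset ℕ} {r : ℕ → ℕ}

/-- the simultaneous solution -/
theorem exists_unit (hF : Further d g P r) (hg : g.norm = 1) {c : ℕ} (hgc : (c : ℤ) ∣ g.im)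
    (hcP : ∀ q ∈ P, IsCoprime (c : ℤ) (q : ℤ)) :
    ∃ χ : P → ℤ√d → Bool,
      (∀ z : ℤ√d, (∀ q ∈ P, ¬ (q : ℤ) ∣ z.norm) → ∀ q, χ q (z * z) = true) ∧
      (∀ (b : ℤ) (z y : ℤ√d), z = (b : ℤ√d) * y → (∀ q ∈ P, ¬ (q : ℤ) ∣ z.norm) →
        (c : ℤ) ∣ y.im → (∀ q, χ q z = true) →
        ∃ u : ℤ√d, u.norm = 1 ∧ (c * ∏ q ∈ P, (q : ℤ)) ∣ (u * y).im) ∧
      ∀ z z' : ℤ√d, (∀ q ∈ P, ¬ (q : ℤ) ∣ z.norm) → (∀ q ∈ P, ¬ (q : ℤ) ∣ z'.norm) →
        ∀ q, χ q z = χ q z' → χ q (z * star z') = true := by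
  classical
  have hr0 : ∀ q ∈ P, 0 < r q := fun q hq => hF.pos hq
  have hloc : ∀ q : P, ∃ χ : ℤ√d → Bool, (∀ z : ℤ√d, ¬ (((q : ℕ) : ℤ)) ∣ z.norm →
      χ (z * z) = true) ∧
      (∀ z : ℤ√d, ¬ (((q : ℕ) : ℤ)) ∣ z.norm → χ z = true → ∃ n : ℕ, ∀ k : ℕ,
        k ≡ n [MOD r q] → (((q : ℕ) : ℤ)) ∣ (g ^ k * z).im) ∧
      ∀ z z' : ℤ√d, ¬ (((q : ℕ) : ℤ)) ∣ z.norm → ¬ (((q : ℕ) : ℤ)) ∣ z'.norm → χ z = χ z' →
        χ (z * star z') = true := by
    rintro ⟨q, hq⟩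
    exact loc_solve (hF.prime q hq) (hF.not_dvd q hq) (hr0 q hq) (hF.hr q hq) hg
      (hF.dvd q hq) (hF.rank q hq)
  choose χ hχ1 hχ2 hχ3 using hloc
  refine ⟨χ, fun z hz q => hχ1 q z (hz q q.2), fun b z y hby hz hzc hχ => ?_,
    fun z z' hz hz' q h => hχ3 q z z' (hz q q.2) (hz' q q.2) h⟩
  choose n hn using fun q : P => hχ2 q z (hz q q.2) (hχ q)
  have hpair : Set.Pairwise ((Finset.univ : Finset P) : Set P)
      (Function.onFun Nat.Coprime fun q : P => r q) := by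
    intro a _ b _ hab
    exact hF.coprime a a.2 b b.2 fun h => hab (Subtype.ext h)
  obtain ⟨k, hk⟩ := Nat.chineseRemainderOfFinset n (fun q : P => r q) Finset.univ
    (fun q _ => (hr0 q q.2).ne') hpair
  refine ⟨g ^ k, norm_pow_one hg k, ?_⟩
  have h1 : (∏ q ∈ P, (q : ℤ)) ∣ (g ^ k * y).im := by
    refine Finset.prod_dvd_of_coprime ?_ ?_
    · intro a ha b hb hab
      have h2 := (Nat.coprime_primes (hF.prime a ha) (hF.prime b hb)).2 hab
      exact Nat.isCoprime_iff_coprime.2 h2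
    · intro q hq
      have h2 := hn ⟨q, hq⟩ k (hk ⟨q, hq⟩ (Finset.mem_univ _))
      have h3 : (g ^ k * z).im = b * (g ^ k * y).im := by
        rw [hby, mul_left_comm, Zsqrtd.im_mul, Zsqrtd.re_intCast, Zsqrtd.im_intCast, zero_mul,
          add_zero]
      change (q : ℤ) ∣ (g ^ k * z).im at h2
      rw [h3] at h2
      refine ((Nat.prime_iff_prime_int.1 (hF.prime q hq)).dvd_or_dvd h2).resolve_left fun h4 => ?_
      apply hz q hq
      rw [hby, Zsqrtd.norm_mul, Zsqrtd.norm_intCast]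
      exact (h4.mul_right _).mul_right _
  have h2 : (c : ℤ) ∣ (g ^ k * y).im := dvd_im_mul (dvd_im_pow hgc k) hzc
  exact (IsCoprime.prod_right hcP).mul_dvd h2 h1

end

/-- The coordinates `z = b z₁ + z₂ √d` with `b z₁² - b' z₂²` odd. -/
structure Adm {d : ℤ} (b b' : ℤ) (z : ℤ√d) : Prop where
  re : z.re = b * (z.re / b)
  odd : (b * (z.re / b) * (z.re / b) - b' * z.im * z.im) % 2 = 1

section parity

private lemma half_odd {a b a' b' : ℤ} (h : a % 2 = 1) (h' : a' % 2 = 1)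
    (hb : b % 2 = b' % 2) : (2 : ℤ) ∣ a * -b' + b * a' := by
  obtain ⟨x, hx⟩ : ∃ x, a = 2 * x + 1 := ⟨a / 2, by omega⟩
  obtain ⟨y, hy⟩ : ∃ y, a' = 2 * y + 1 := ⟨a' / 2, by omega⟩
  obtain ⟨t, ht⟩ : ∃ t, b = b' + 2 * t := ⟨(b - b') / 2, by omega⟩
  refine ⟨-x * b' + y * b + t, ?_⟩
  rw [hx, hy, ht]
  ring

private lemma half_odd' {a b a' b' : ℤ} (h : b % 2 = 1) (h' : b' % 2 = 1)
    (hb : a % 2 = a' % 2) : (2 : ℤ) ∣ a * -b' + b * a' := by
  obtain ⟨k, hk⟩ := half_odd h h' hb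
  exact ⟨-k, by linear_combination (-1) * hk⟩

private lemma key_four {x b : ℤ} (hb : b % 2 = 1) : 2 * x * b % 4 = 0 ↔ x % 2 = 0 := by
  obtain ⟨t, ht⟩ : ∃ t, b = 2 * t + 1 := ⟨b / 2, by omega⟩
  have : 2 * x * b = 4 * (x * t) + 2 * x := by rw [ht]; ring
  rw [this]
  omega

private lemma quarter {a b a' b' : ℤ} (ha : a % 2 = 0) (hb : b % 2 = 1) (ha' : a' % 2 = 0)
    (hb' : b' % 2 = 1) (h : a * b % 4 = 0 ↔ a' * b' % 4 = 0) :
    (4 : ℤ) ∣ a * -b' + b * a' := by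
  obtain ⟨x, hx⟩ : ∃ x, a = 2 * x := ⟨a / 2, by omega⟩
  obtain ⟨y, hy⟩ : ∃ y, a' = 2 * y := ⟨a' / 2, by omega⟩
  rw [hx, hy, key_four hb, key_four hb'] at h
  obtain ⟨k, hk⟩ := half_odd hb hb' (show x % 2 = y % 2 by omega)
  refine ⟨-k, ?_⟩
  rw [hx, hy]
  linear_combination (-2) * hk

private lemma quarter' {a b a' b' : ℤ} (ha : a % 2 = 1) (hb : b % 2 = 0) (ha' : a' % 2 = 1)
    (hb' : b' % 2 = 0) (h : a * b % 4 = 0 ↔ a' * b' % 4 = 0) :
    (4 : ℤ) ∣ a * -b' + b * a' := by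
  obtain ⟨k, hk⟩ := quarter hb ha hb' ha' (by rw [mul_comm b a, mul_comm b' a']; exact h)
  exact ⟨-k, by linear_combination (-1) * hk⟩

private lemma mul_emod {a b : ℤ} (ha : a % 2 = 1) : (a * b) % 2 = b % 2 := by
  rw [Int.mul_emod, ha, one_mul, Int.emod_emod]

private lemma mul_emod0 {a b : ℤ} (ha : a % 2 = 0) : (a * b) % 2 = 0 := by
  rw [Int.mul_emod, ha, zero_mul]
  rfl

private lemma sq_emod (a : ℤ) : (a * a) % 2 = a % 2 := by
  rcases Int.emod_two_eq_zero_or_one a with h | h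
  · rw [mul_emod0 h, h]
  · rw [mul_emod h]

/-- for odd `b`, `b'` -/
private lemma par {b b' x y : ℤ} (hb : b % 2 = 1) (hb' : b' % 2 = 1)
    (h : (b * x * x - b' * y * y) % 2 = 1) : x % 2 = 0 ∧ y % 2 = 1 ∨ x % 2 = 1 ∧ y % 2 = 0 := by
  have h1 : (b * x * x) % 2 = x % 2 := by rw [mul_assoc, mul_emod hb, sq_emod]
  have h2 : (b' * y * y) % 2 = y % 2 := by rw [mul_assoc, mul_emod hb', sq_emod]
  omega

private lemma par₁ {b b' x y : ℤ} (hb : b % 2 = 1) (hb' : b' % 2 = 0)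
    (h : (b * x * x - b' * y * y) % 2 = 1) : x % 2 = 1 := by
  have h1 : (b * x * x) % 2 = x % 2 := by rw [mul_assoc, mul_emod hb, sq_emod]
  have h2 : (b' * y * y) % 2 = 0 := by rw [mul_assoc, mul_emod0 hb']
  omega

private lemma par₂ {b b' x y : ℤ} (hb : b % 2 = 0) (hb' : b' % 2 = 1)
    (h : (b * x * x - b' * y * y) % 2 = 1) : y % 2 = 1 := by
  have h1 : (b * x * x) % 2 = 0 := by rw [mul_assoc, mul_emod0 hb]
  have h2 : (b' * y * y) % 2 = y % 2 := by rw [mul_assoc, mul_emod hb', sq_emod]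
  omega

private lemma sign {m n : ℤ} (hm : m ≠ 0) (hn : n ≠ 0) (h : 0 < m ↔ 0 < n) :
    0 < m * n := by
  rcases lt_or_gt_of_ne hm with h1 | h1
  · have h2 : n < 0 := by
      by_contra h2
      have : 0 < n := by omega
      have := h.2 this
      omega
    exact mul_pos_of_neg_of_neg h1 h2
  · exact mul_pos h1 (h.1 h1)

end parity

section adm

variable {d b b' : ℤ}

theorem Adm.norm {z : ℤ√d} (hz : Adm b b' z) (hb : d = b * b') :
    z.norm = b * (b * (z.re / b) * (z.re / b) - b' * z.im * z.im) := by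
  have h := hz.re
  rw [Zsqrtd.norm_def]
  generalize z.re / b = t at h ⊢
  rw [h]
  linear_combination (-z.im * z.im) * hb

theorem Adm.norm_ne {z : ℤ√d} (hz : Adm b b' z) (hb : d = b * b') (hb0 : b ≠ 0) :
    z.norm ≠ 0 := by
  rw [hz.norm hb]
  refine mul_ne_zero hb0 fun h => ?_
  have := hz.odd
  rw [h] at this
  omega

theorem coord_mul (hb : d = b * b') (hb0 : b ≠ 0) {z : ℤ√d} (hz : Adm b b' z) (e : ℤ√d) :
    (e * z).re / b = e.re * (z.re / b) + b' * e.im * z.im ∧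
      (e * z).im = e.re * z.im + e.im * (b * (z.re / b)) ∧
      (e * z).re = b * ((e * z).re / b) := by
  have h1 : (e * z).re = b * (e.re * (z.re / b) + b' * e.im * z.im) := by
    rw [Zsqrtd.re_mul]
    have h := hz.re
    generalize z.re / b = t at h ⊢
    rw [h]
    linear_combination (e.im * z.im) * hb
  have h2 : (e * z).re / b = e.re * (z.re / b) + b' * e.im * z.im := by
    rw [h1, Int.mul_ediv_cancel_left _ hb0]
  refine ⟨h2, ?_, by rw [h2]; exact h1⟩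
  rw [Zsqrtd.im_mul, ← hz.re]

theorem Adm.mul_unit (hb : d = b * b') (hb0 : b ≠ 0) {z : ℤ√d} (hz : Adm b b' z) {e : ℤ√d}
    (he : IsUnit e) : Adm b b' (e * z) := by
  obtain ⟨h1, h2, h3⟩ := coord_mul hb hb0 hz e
  refine ⟨h3, ?_⟩
  have hun : IsUnit e.norm := Zsqrtd.isUnit_iff_norm_isUnit _ |>.1 he
  have h4 : b * ((e * z).re / b) * ((e * z).re / b) - b' * (e * z).im * (e * z).im =
      e.norm * (b * (z.re / b) * (z.re / b) - b' * z.im * z.im) := by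
    rw [h1, h2, Zsqrtd.norm_def]
    generalize z.re / b = t
    linear_combination ((b * t * t - b' * z.im * z.im) * e.im * e.im) * hb
  rw [h4]
  have h5 := hz.odd
  rcases Int.isUnit_iff.1 hun with h6 | h6 <;> rw [h6] <;> omega

theorem im_of_mul (hb0 : b ≠ 0) {z z' y : ℤ√d} (hz : Adm b b' z) (hz' : Adm b b' z')
    (hy : z * star z' = (b : ℤ√d) * y) :
    y.im = (z.re / b) * -z'.im + z.im * (z'.re / b) := by
  have h1 := congrArg Zsqrtd.im hy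
  rw [Zsqrtd.im_mul, Zsqrtd.im_mul, Zsqrtd.im_star, Zsqrtd.re_star, Zsqrtd.re_intCast,
    Zsqrtd.im_intCast, zero_mul, add_zero] at h1
  apply mul_left_cancel₀ hb0
  rw [← h1]
  have h2 := hz.re
  have h3 := hz'.re
  generalize z.re / b = t at h2 ⊢
  generalize z'.re / b = t' at h3 ⊢
  rw [h2, h3]
  ring

end adm

private lemma halve {d : ℤ} {Y : Type} {A : ℤ√d → Prop} {Pr : ℤ√d → ℤ√d → Prop}
    (f₁ : ℤ√d → Bool) (f₂ : ℤ√d → Y) {e : ℤ√d}
    (he : IsUnit e) (hA : ∀ z, A z → A (e * z))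
    (hflip : ∀ z, A z → f₁ z = false → f₁ (e * z) = true)
    (hf : ∀ z z' : ℤ√d, A z → A z' → f₁ z = f₁ z' → f₂ z = f₂ z' → Pr z z') :
    ∃ (ν : ℤ√d → ℤ√d) (f₀ : ℤ√d → Y), (∀ z, ∃ v : ℤ√d, IsUnit v ∧ ν z = v * z) ∧
      ∀ z z' : ℤ√d, A z → A z' → f₀ z = f₀ z' → Pr (ν z) (ν z') := by
  have key : ∀ z : ℤ√d, A z →
      A (if f₁ z = true then z else e * z) ∧
        f₁ (if f₁ z = true then z else e * z) = true := by
    intro z hz
    split_ifs with h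
    · exact ⟨hz, h⟩
    · exact ⟨hA z hz, hflip z hz (by simpa using h)⟩
  refine ⟨fun z => if f₁ z = true then z else e * z,
    fun z => f₂ (if f₁ z = true then z else e * z), fun z => ?_, fun z z' hz hz' h => ?_⟩
  · by_cases h : f₁ z = true
    · exact ⟨1, isUnit_one, by simp [h]⟩
    · exact ⟨e, he, by simp [h]⟩
  · obtain ⟨h1, h2⟩ := key z hz
    obtain ⟨h1', h2'⟩ := key z' hz'
    exact hf _ _ h1 h1' (h2.trans h2'.symm) h

private lemma unit_even {d : ℤ} (hd : d % 2 = 1) {e : ℤ√d} (h1 : e.norm = 1)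
    (h : ¬ (4 : ℤ) ∣ e.im) : e.re % 2 = 0 ∧ e.im % 2 = 1 := by
  rw [Zsqrtd.norm_def] at h1
  rcases par (b := 1) (b' := d) (x := e.re) (y := e.im) rfl hd (by rw [one_mul]; omega)
    with h2 | ⟨h2, h3⟩
  · exact h2
  · exfalso
    obtain ⟨x, hx⟩ : ∃ x, e.re = 2 * x + 1 := ⟨e.re / 2, by omega⟩
    obtain ⟨y, hy⟩ : ∃ y, e.im = 2 * y := ⟨e.im / 2, by omega⟩
    obtain ⟨t, ht⟩ : ∃ t, d = 2 * t + 1 := ⟨d / 2, by omega⟩
    have h4 : y % 2 = 1 := by omega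
    obtain ⟨y', hy'⟩ : ∃ y', y = 2 * y' + 1 := ⟨y / 2, by omega⟩
    obtain ⟨s, hs⟩ := Int.even_mul_succ_self x
    rw [hx, hy, hy', ht] at h1
    have h5 : (2 * x + 1) * (2 * x + 1) - (2 * t + 1) * (2 * (2 * y' + 1)) * (2 * (2 * y' + 1)) - 1
      = 4 * (x * (x + 1)) - 8 * ((2 * t + 1) * (2 * y' * y' + 2 * y')) - 8 * t - 4 := by ring
    rw [hs] at h5
    omega

/-- the property of a pair -/
private def Pr {d : ℤ} (b : ℤ) (c : ℕ) (z z' : ℤ√d) : Prop :=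
  0 < z.norm * z'.norm ∧ ∀ y : ℤ√d, z * star z' = (b : ℤ√d) * y → (c : ℤ) ∣ y.im

private lemma pair_odd {d b b' : ℤ} (hb : d = b * b') (hb0 : b ≠ 0) (hbo : b % 2 = 1)
    (hbo' : b' % 2 = 1) {z z' : ℤ√d} (hz : Adm b b' z) (hz' : Adm b b' z')
    (h0 : 0 < z.norm ↔ 0 < z'.norm)
    (h1 : (z.re / b) % 2 = 0 ↔ (z'.re / b) % 2 = 0)
    (h2 : (z.re / b) * z.im % 4 = 0 ↔ (z'.re / b) * z'.im % 4 = 0) : Pr b 4 z z' := by
  refine ⟨sign (hz.norm_ne hb hb0) (hz'.norm_ne hb hb0) h0, fun y hy => ?_⟩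
  rw [im_of_mul hb0 hz hz' hy]
  rcases par hbo hbo' hz.odd with ⟨ha, hb⟩ | ⟨ha, hb⟩ <;>
    rcases par hbo hbo' hz'.odd with ⟨ha', hb'⟩ | ⟨ha', hb'⟩
  · exact quarter ha hb ha' hb' h2
  · omega
  · omega
  · exact quarter' ha hb ha' hb' h2

private lemma pair_even {d b b' : ℤ} (hb : d = b * b') (hb0 : b ≠ 0)
    (hbb : b % 2 = 1 ∧ b' % 2 = 0 ∨ b % 2 = 0 ∧ b' % 2 = 1) {z z' : ℤ√d} (hz : Adm b b' z)
    (hz' : Adm b b' z') (h0 : 0 < z.norm ↔ 0 < z'.norm)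
    (h1 : (z.re / b) * z.im % 2 = 0 ↔ (z'.re / b) * z'.im % 2 = 0) : Pr b 2 z z' := by
  refine ⟨sign (hz.norm_ne hb hb0) (hz'.norm_ne hb hb0) h0, fun y hy => ?_⟩
  rw [im_of_mul hb0 hz hz' hy]
  rcases hbb with ⟨hbo, hbo'⟩ | ⟨hbo, hbo'⟩
  · have h2 := par₁ hbo hbo' hz.odd
    have h3 := par₁ hbo hbo' hz'.odd
    rw [mul_emod h2, mul_emod h3] at h1
    exact half_odd h2 h3 (by omega)
  · have h2 := par₂ hbo hbo' hz.odd
    have h3 := par₂ hbo hbo' hz'.odd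
    rw [mul_comm, mul_emod h2, mul_comm, mul_emod h3] at h1
    exact half_odd' h2 h3 (by omega)

/-- the normalised classification -/
private lemma exists_class {d : ℤ} (hd4 : d % 4 ≠ 0) {c : ℕ} {δ : ℕ}
    (hδ : δ = 0 ∨ δ = 1 ∧ ∃ e : ℤ√d, IsUnit e ∧ (e.norm = -1 ∨ ¬ (c : ℤ) ∣ e.im))
    (hc : d % 2 = 1 ∧ c = 4 ∨ d % 2 = 0 ∧ c = 2) :
    ∃ (X₀ : Type) (_ : Finite X₀), Nat.card X₀ * 2 ^ δ = 2 * c ∧
      ∀ b b' : ℤ, b ≠ 0 → d = b * b' →
      ∃ (ν : ℤ√d → ℤ√d) (f₀ : ℤ√d → X₀), (∀ z, ∃ v : ℤ√d, IsUnit v ∧ ν z = v * z) ∧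
      ∀ z z' : ℤ√d, Adm b b' z → Adm b b' z' → f₀ z = f₀ z' → Pr b c (ν z) (ν z') := by
  have c2 : Nat.card Bool = 2 := by rw [Nat.card_eq_fintype_card]; rfl
  have c4 : Nat.card (Bool × Bool) = 4 := by rw [Nat.card_eq_fintype_card]; rfl
  have c8 : Nat.card (Bool × Bool × Bool) = 8 := by rw [Nat.card_eq_fintype_card]; rfl
  have hδ' : δ = 0 ∨ δ = 1 ∧ ∃ e : ℤ√d, IsUnit e ∧ (e.norm = -1 ∨
      e.norm = 1 ∧ ¬ (c : ℤ) ∣ e.im) := by
    rcases hδ with h | ⟨h, e, he, h1 | h1⟩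
    · exact Or.inl h
    · exact Or.inr ⟨h, e, he, Or.inl h1⟩
    · have hun : IsUnit e.norm := Zsqrtd.isUnit_iff_norm_isUnit _ |>.1 he
      rcases Int.isUnit_iff.1 hun with h2 | h2
      · exact Or.inr ⟨h, e, he, Or.inr ⟨h2, h1⟩⟩
      · exact Or.inr ⟨h, e, he, Or.inl h2⟩
  -- the sign flips
  have hneg : ∀ {b b' : ℤ} {e z : ℤ√d}, b ≠ 0 → d = b * b' → e.norm = -1 → Adm b b' z →
      ¬ 0 < z.norm → 0 < (e * z).norm := by
    intro b b' e z hb0 hb he hz h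
    have h1 := hz.norm_ne hb hb0
    rw [Zsqrtd.norm_mul, he]
    omega
  rcases hc with ⟨hd2, rfl⟩ | ⟨hd2, rfl⟩
  · have hodd : ∀ {b b' : ℤ}, d = b * b' → b % 2 = 1 ∧ b' % 2 = 1 := by
      intro b b' hb
      rw [hb] at hd2
      rcases Int.emod_two_eq_zero_or_one b with h | h
      · rw [mul_emod0 h] at hd2
        omega
      · rw [mul_emod h] at hd2
        exact ⟨h, hd2⟩
    rcases hδ' with rfl | ⟨rfl, e, he, h | ⟨h, h0⟩⟩
    · refine ⟨Bool × Bool × Bool, inferInstance, by rw [c8]; norm_num, fun b b' hb0 hb =>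
        ⟨id, fun z => (decide ((z.re / b) % 2 = 0), decide ((z.re / b) * z.im % 4 = 0),
          decide (0 < z.norm)), fun z => ⟨1, isUnit_one, (one_mul z).symm⟩,
          fun z z' hz hz' h => ?_⟩⟩
      simp only [Prod.mk.injEq, decide_eq_decide] at h
      obtain ⟨ho, ho'⟩ := hodd hb
      exact pair_odd hb hb0 ho ho' hz hz' h.2.2 h.1 h.2.1
    · refine ⟨Bool × Bool, inferInstance, by rw [c4]; norm_num, fun b b' hb0 hb => ?_⟩
      obtain ⟨ho, ho'⟩ := hodd hb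
      refine halve (fun z => decide (0 < z.norm))
        (fun z => (decide ((z.re / b) % 2 = 0), decide ((z.re / b) * z.im % 4 = 0))) he
        (fun z hz => hz.mul_unit hb hb0 he) (fun z hz h3 => ?_) (fun z z' hz hz' h3 h4 => ?_)
      · simp only [decide_eq_false_iff_not, decide_eq_true_eq] at h3 ⊢
        exact hneg hb0 hb h hz h3
      · simp only [Prod.mk.injEq, decide_eq_decide] at h3 h4
        exact pair_odd hb hb0 ho ho' hz hz' h3 h4.1 h4.2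
    · refine ⟨Bool × Bool, inferInstance, by rw [c4]; norm_num, fun b b' hb0 hb => ?_⟩
      obtain ⟨ho, ho'⟩ := hodd hb
      obtain ⟨he1, he2⟩ := unit_even hd2 h h0
      refine halve (fun z => decide ((z.re / b) % 2 = 0))
        (fun z => (decide (0 < z.norm), decide ((z.re / b) * z.im % 4 = 0))) he
        (fun z hz => hz.mul_unit hb hb0 he) (fun z hz h3 => ?_) (fun z z' hz hz' h3 h4 => ?_)
      · simp only [decide_eq_false_iff_not, decide_eq_true_eq] at h3 ⊢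
        rw [(coord_mul hb hb0 hz e).1]
        rcases par ho ho' hz.odd with h4 | ⟨h4, h5⟩
        · exact absurd h4.1 h3
        · have h6 : (e.re * (z.re / b)) % 2 = 0 := mul_emod0 he1
          have h7 : (b' * e.im * z.im) % 2 = 0 := by rw [mul_comm, mul_emod0 h5]
          omega
      · simp only [Prod.mk.injEq, decide_eq_decide] at h3 h4
        exact pair_odd hb hb0 ho ho' hz hz' h4.1 h3 h4.2
  · have hbb : ∀ {b b' : ℤ}, d = b * b' → b % 2 = 1 ∧ b' % 2 = 0 ∨ b % 2 = 0 ∧ b' % 2 = 1 := by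
      intro b b' hb
      rcases Int.emod_two_eq_zero_or_one b with h | h
      · rcases Int.emod_two_eq_zero_or_one b' with h' | h'
        · exfalso
          obtain ⟨x, hx⟩ : ∃ x, b = 2 * x := ⟨b / 2, by omega⟩
          obtain ⟨y, hy⟩ : ∃ y, b' = 2 * y := ⟨b' / 2, by omega⟩
          rw [hx, hy] at hb
          exact hd4 (by rw [hb, show 2 * x * (2 * y) = 4 * (x * y) by ring]
                        exact Int.mul_emod_right 4 (x * y))
        · exact Or.inr ⟨h, h'⟩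
      · rw [hb, mul_emod h] at hd2
        exact Or.inl ⟨h, hd2⟩
    rcases hδ' with rfl | ⟨rfl, e, he, h | ⟨h, h0⟩⟩
    · refine ⟨Bool × Bool, inferInstance, by rw [c4]; norm_num, fun b b' hb0 hb =>
        ⟨id, fun z => (decide ((z.re / b) * z.im % 2 = 0), decide (0 < z.norm)),
          fun z => ⟨1, isUnit_one, (one_mul z).symm⟩, fun z z' hz hz' h => ?_⟩⟩
      simp only [Prod.mk.injEq, decide_eq_decide] at h
      exact pair_even hb hb0 (hbb hb) hz hz' h.2 h.1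
    · refine ⟨Bool, inferInstance, by rw [c2]; norm_num, fun b b' hb0 hb => ?_⟩
      refine halve (fun z => decide (0 < z.norm)) (fun z => decide ((z.re / b) * z.im % 2 = 0)) he
        (fun z hz => hz.mul_unit hb hb0 he) (fun z hz h3 => ?_) (fun z z' hz hz' h3 h4 => ?_)
      · simp only [decide_eq_false_iff_not, decide_eq_true_eq] at h3 ⊢
        exact hneg hb0 hb h hz h3
      · simp only [decide_eq_decide] at h3 h4
        exact pair_even hb hb0 (hbb hb) hz hz' h3 h4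
    · refine ⟨Bool, inferInstance, by rw [c2]; norm_num, fun b b' hb0 hb => ?_⟩
      have h5 : e.re % 2 = 1 := by
        rw [Zsqrtd.norm_def] at h
        exact par₁ (b := 1) (b' := d) (x := e.re) (y := e.im) rfl hd2 (by
          rw [one_mul, h]
          norm_num)
      have h6 : e.im % 2 = 1 := by
        have h7 : ¬ (2 : ℤ) ∣ e.im := by exact_mod_cast h0
        omega
      refine halve (fun z => decide ((z.re / b) * z.im % 2 = 0)) (fun z => decide (0 < z.norm)) he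
        (fun z hz => hz.mul_unit hb hb0 he) (fun z hz h3 => ?_) (fun z z' hz hz' h3 h4 => ?_)
      · simp only [decide_eq_false_iff_not, decide_eq_true_eq] at h3 ⊢
        obtain ⟨h7, h8, -⟩ := coord_mul hb hb0 hz e
        rw [h7, h8]
        have h9 : (z.re / b) % 2 = 1 := by
          by_contra hcon
          exact h3 (mul_emod0 (by omega))
        have h10 : z.im % 2 = 1 := by
          by_contra hcon
          exact h3 (by rw [mul_comm]; exact mul_emod0 (by omega))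
        have e1 : (e.re * (z.re / b)) % 2 = 1 := by rw [mul_emod h5, h9]
        have e2 : (b' * e.im * z.im) % 2 = b' % 2 := by
          rw [mul_comm, mul_emod h10, mul_comm, mul_emod h6]
        have e3 : (e.re * z.im) % 2 = 1 := by rw [mul_emod h5, h10]
        have e4 : (e.im * (b * (z.re / b))) % 2 = b % 2 := by
          rw [mul_emod h6, mul_comm, mul_emod h9]
        rcases hbb hb with ⟨h11, h12⟩ | ⟨h11, h12⟩
        · rw [mul_comm]
          exact mul_emod0 (by omega)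
        · exact mul_emod0 (by omega)
      · simp only [decide_eq_decide] at h3 h4
        exact pair_even hb hb0 (hbb hb) hz hz' h4 h3

theorem Adm.star {d b b' : ℤ} {z : ℤ√d} (hz : Adm b b' z) : Adm b b' (star z) := by
  refine ⟨by rw [Zsqrtd.re_star]; exact hz.re, ?_⟩
  have h : b * (z.re / b) * (z.re / b) - b' * -z.im * -z.im =
      b * (z.re / b) * (z.re / b) - b' * z.im * z.im := by ring
  rw [Zsqrtd.re_star, Zsqrtd.im_star, h]
  exact hz.odd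

private lemma exists_quot {d b b' : ℤ} (hb : d = b * b') {z z' : ℤ√d} (hz : Adm b b' z)
    (hz' : Adm b b' z') : ∃ y : ℤ√d, z * star z' = (b : ℤ√d) * y := by
  have h1 := hz.re
  have h2 := hz'.re
  generalize z.re / b = t at h1
  generalize z'.re / b = t' at h2
  refine ⟨⟨b * t * t' - b' * z.im * z'.im, t * -z'.im + z.im * t'⟩, Zsqrtd.ext ?_ ?_⟩
  · rw [Zsqrtd.re_mul, Zsqrtd.re_mul, Zsqrtd.re_star, Zsqrtd.im_star, Zsqrtd.re_intCast,
      Zsqrtd.im_intCast, h1, h2]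
    linear_combination (-z.im * z'.im) * hb
  · rw [Zsqrtd.im_mul, Zsqrtd.im_mul, Zsqrtd.re_star, Zsqrtd.im_star, Zsqrtd.re_intCast,
      Zsqrtd.im_intCast, h1, h2]
    ring

/-- **Every modulus with the primes of `2 d` and of `P`.** -/
theorem family {d : ℤ} (hd1 : 1 < d) (hsf : Squarefree d)
    (h5 : d % 8 = 5 → ∃ a b : ℤ, Odd a ∧ (a ^ 2 - d * b ^ 2 = 4 ∨ a ^ 2 - d * b ^ 2 = -4))
    {K : Type} [Field K] [NumberField K] (hK : finrank ℚ K = 2) {x : 𝓞 K}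
    (hx : x ^ 2 = (d : 𝓞 K))
    (hcl : RamifiedClasses d K) {P : Finset ℕ} {r : ℕ → ℕ} {g : ℤ√d} (hF : Further d g P r)
    (hg : g.norm = 1) {c k δ : ℕ} (hc : d % 2 = 1 ∧ c = 4 ∨ d % 2 = 0 ∧ c = 2)
    (hδ : δ = 0 ∨ δ = 1 ∧ ∃ e : ℤ√d, IsUnit e ∧ (e.norm = -1 ∨ ¬ (c : ℤ) ∣ e.im))
    (hk : classNumber K * c * 2 ^ P.card ≤ 2 ^ (2 * k + 3 + δ))
    (hgc : (c : ℤ) ∣ g.im) {w : ℤ}
    (hgw : (g ^ (∏ q ∈ P, r q)).im = c * (∏ q ∈ P, (q : ℤ)) * w)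
    {ι₁ ι₂ : K →+* ℝ} (hι : ι₁ ≠ ι₂) {m : Ideal (𝓞 K)} (hm0 : m ≠ ⊥)
    (hm : ∀ 𝔮 : Ideal (𝓞 K), 𝔮.IsPrime → 𝔮 ≠ ⊥ →
      (𝔮 ∣ m ↔ ((2 * d * ∏ q ∈ P, (q : ℤ) : ℤ) : 𝓞 K) ∈ 𝔮))
    (hwild : ∀ p : ℕ, p.Prime →
      PartDvd p m (Ideal.span {((c * ∏ q ∈ P, (q : ℤ) : ℤ) : 𝓞 K) * x}) ∨
        ¬ (p : ℤ) ∣ w ∧ (p = 3 → d % 9 ≠ 6))
    {H : Type} [Field H] [NumberField H] [Algebra K H] [IsAbelianGalois K H] (i : H →+* ℂ)
    (hi : InRay ι₁ ι₂ m i) : StarkFor true (2 ^ k) ι₂ m i := by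
  classical
  have hd : ¬ IsSquare d := by
    rintro ⟨a, ha⟩
    have h1 := hsf a ⟨1, by rw [ha, mul_one]⟩
    rcases Int.isUnit_iff.1 h1 with h | h <;> rw [h] at ha <;> omega
  have hd4 : d % 4 ≠ 0 := by
    intro h
    have h1 := hsf 2 (by
      rw [show (2 : ℤ) * 2 = 4 by norm_num]
      exact Int.dvd_of_emod_eq_zero h)
    rw [Int.isUnit_iff] at h1
    omega
  let s : {x : 𝓞 K // x * x = (d : 𝓞 K)} := ⟨x, by rw [← pow_two, hx]⟩
  have hsx : (s : 𝓞 K) = x := rfl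
  obtain ⟨τ, hτ⟩ := exists_conj hK hd s
  obtain ⟨D, hD⟩ : ∃ D : ℕ, (D : ℤ) = d := ⟨d.toNat, Int.toNat_of_nonneg (by omega)⟩
  obtain ⟨R, hR⟩ : ∃ R : ℕ, R = 2 * D * ∏ q ∈ P, q := ⟨_, rfl⟩
  have hRZ : (R : ℤ) = 2 * d * ∏ q ∈ P, (q : ℤ) := by
    rw [hR, ← hD]
    push_cast
    ring
  have hPpos : ∀ q ∈ P, q ≠ 0 := fun q hq => (hF.prime q hq).ne_zero
  have hprod0 : ∏ q ∈ P, q ≠ 0 := Finset.prod_ne_zero_iff.2 hPpos
  have h2R : 2 ∣ R := by
    rw [hR, mul_assoc]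
    exact dvd_mul_right _ _
  have hPodd : ∀ q ∈ P, q ≠ 2 := by
    rintro q hq rfl
    exact hF.not_dvd _ hq (Dvd.intro d rfl)
  have hcc : c = 2 ∨ c = 4 := by
    rcases hc with ⟨-, h⟩ | ⟨-, h⟩
    · exact Or.inr h
    · exact Or.inl h
  have hcP : ∀ q ∈ P, IsCoprime (c : ℤ) (q : ℤ) := by
    intro q hq
    have h1 : Nat.Coprime 2 q := (Nat.coprime_primes Nat.prime_two (hF.prime q hq)).2
      (hPodd q hq).symm
    have h2 : Nat.Coprime c q := by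
      rcases hcc with rfl | rfl
      · exact h1
      · exact Nat.Coprime.pow_left 2 h1
    exact Nat.isCoprime_iff_coprime.2 h2
  obtain ⟨χ, hχ1, hχ2, hχ3⟩ := exists_unit hF hg hgc hcP
  -- the wild primes
  have hD0 : D ≠ 0 := by omega
  have hR0 : R ≠ 0 := by
    rw [hR]
    positivity
  let wild : ℕ → Prop := fun p =>
    ¬ PartDvd p m (Ideal.span {(((c * ∏ q ∈ P, q : ℕ) : ℕ) : 𝓞 K) * (s : 𝓞 K)})
  have hwild' : ∀ p : ℕ, p.Prime → wild p → ¬ (p : ℤ) ∣ w ∧ (p = 3 → d % 9 ≠ 6) := by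
    intro p hp hpw
    refine (hwild p hp).resolve_left fun h => hpw ?_
    have h1 : (((c * ∏ q ∈ P, q : ℕ) : ℕ) : 𝓞 K) = ((c * ∏ q ∈ P, (q : ℤ) : ℤ) : 𝓞 K) := by
      push_cast
      rfl
    rw [h1]
    exact h
  obtain ⟨S, hS⟩ : ∃ S : Finset ℕ, S = R.primeFactors.filter wild := ⟨_, rfl⟩
  obtain ⟨Pw, hPw⟩ : ∃ Pw : Finset ℕ, Pw = P.filter wild := ⟨_, rfl⟩
  obtain ⟨Pt, hPt⟩ : ∃ Pt : Finset ℕ, Pt = P.filter fun p => ¬ wild p := ⟨_, rfl⟩
  have hPwt : (∏ q ∈ Pw, q) * ∏ q ∈ Pt, q = ∏ q ∈ P, q := by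
    rw [hPw, hPt]
    exact Finset.prod_filter_mul_prod_filter_not P wild _
  obtain ⟨W, hW⟩ : ∃ W : ℕ, W = ∏ p ∈ S, p := ⟨_, rfl⟩
  have hSp : ∀ p ∈ S, p.Prime ∧ p ∣ R ∧ wild p := by
    intro p hp
    rw [hS, Finset.mem_filter, Nat.mem_primeFactors] at hp
    exact ⟨hp.1.1, hp.1.2.1, hp.2⟩
  have hpW : ∀ p : ℕ, p.Prime → p ∣ W → p ∈ S := by
    intro p hp h
    rw [hW] at h
    obtain ⟨q, hq, hpq⟩ := (hp.prime.dvd_finsetProd_iff _).1 h
    rw [(Nat.prime_dvd_prime_iff_eq hp (hSp q hq).1).1 hpq]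
    exact hq
  have hWR : W ∣ R := by
    rw [hW, hS]
    exact (Finset.prod_dvd_prod_of_subset _ _ _ (Finset.filter_subset _ _)).trans
      (Nat.prod_primeFactors_dvd R)
  have hW0 : W ≠ 0 := fun h => by
    rw [h, zero_dvd_iff] at hWR
    exact hR0 hWR
  -- where the primes of `W` are
  have hSc : ∀ p ∈ S, (p : ℤ) ∣ d ∨ p ∣ c * ∏ q ∈ Pw, q := by
    intro p hp
    obtain ⟨h0, h1, h2⟩ := hSp p hp
    rw [hR] at h1
    rcases h0.dvd_mul.1 h1 with h3 | h3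
    · rcases h0.dvd_mul.1 h3 with h4 | h4
      · right
        refine h4.trans ?_
        rcases hcc with rfl | rfl
        · exact dvd_mul_right _ _
        · exact (show 2 ∣ 4 by norm_num).mul_right _
      · left
        rw [← hD]
        exact Int.natCast_dvd_natCast.2 h4
    · right
      obtain ⟨q, hq, hpq⟩ := (h0.prime.dvd_finsetProd_iff _).1 h3
      rw [← (Nat.prime_dvd_prime_iff_eq h0 (hF.prime q hq)).1 hpq] at hq
      have h4 : p ∈ Pw := by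
        rw [hPw, Finset.mem_filter]
        exact ⟨hq, h2⟩
      exact (Finset.dvd_prod_of_mem (fun q : ℕ => q) h4).mul_left _
  have hGood : Good d (c * ∏ q ∈ Pw, q) W (g ^ (∏ q ∈ P, r q)) := by
    refine { h3 := ?_, hc2 := ?_, hR0 := hW0, hR := ?_, hRd := ?_,
             norm := norm_pow_one hg _, him := ?_ }
    · intro h
      exact Or.inr ((hwild' 3 Nat.prime_three (hSp 3 (hpW 3 Nat.prime_three h)).2.2).2 rfl)
    · rcases hcc with rfl | rfl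
      · exact dvd_mul_right _ _
      · exact (show 2 ∣ 4 by norm_num).mul_right _
    · intro p hp h
      exact hSc p (hpW p hp h)
    · rw [← hD]
      have h1 : W ∣ D * (c * ∏ q ∈ Pw, q) ^ 2 := by
        rw [hW]
        refine Finset.prod_primes_dvd _ (fun p hp => (hSp p hp).1.prime) fun p hp => ?_
        rcases hSc p hp with h2 | h2
        · rw [← hD] at h2
          exact (Int.natCast_dvd_natCast.1 h2).mul_right _
        · exact (dvd_pow h2 two_ne_zero).mul_left _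
      have h2 := Int.natCast_dvd_natCast.2 h1
      push_cast at h2 ⊢
      exact h2
    · refine ⟨(∏ q ∈ Pt, (q : ℤ)) * w, coprime_of_primes fun p hp hpW' h => ?_, ?_⟩
      · have hpZ := Nat.prime_iff_prime_int.1 hp
        have hpS := hSp p (hpW p hp hpW')
        rcases hpZ.dvd_or_dvd h with h1 | h1
        · obtain ⟨q, hq, hpq⟩ := (hpZ.dvd_finsetProd_iff _).1 h1
          rw [hPt, Finset.mem_filter] at hq
          have h2 : p = q := (Nat.prime_dvd_prime_iff_eq hp (hF.prime q hq.1)).1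
            (Int.natCast_dvd_natCast.1 hpq)
          rw [← h2] at hq
          exact hq.2 hpS.2.2
        · exact (hwild' p hp hpS.2.2).1 h1
      · rw [hgw]
        have h1 : (∏ q ∈ P, (q : ℤ)) = (∏ q ∈ Pw, (q : ℤ)) * ∏ q ∈ Pt, (q : ℤ) := by
          rw [← Nat.cast_prod, ← Nat.cast_prod, ← Nat.cast_prod, ← Nat.cast_mul, hPwt]
        rw [h1]
        push_cast
        ring
  have hcast : (((c * ∏ q ∈ P, q : ℕ) : ℕ) : ℤ) = c * ∏ q ∈ P, (q : ℤ) := by push_cast; rfl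
  -- the classes
  obtain ⟨X₀, hfin, hcard, hcls⟩ := exists_class hd4 hδ hc
  obtain ⟨b, 𝔟, C, hbd, h𝔟, hC⟩ := exists_gen_amb hK hsf hd s hcl h5
  choose b' hb' using hbd
  have hb0 : ∀ κ, b κ ≠ 0 := by
    intro κ h
    have := hb' κ
    rw [h, zero_mul] at this
    omega
  choose ν f₀ hν hf₀ using fun κ => hcls (b κ) (b' κ) (hb0 κ) (hb' κ)
  have hex : ∀ 𝔞 : Ideal (𝓞 K), ∃ z : ℤ√d, (Ideal.absNorm 𝔞).Coprime 2 →
      𝔞 * 𝔟 (C 𝔞) = Ideal.span {toO s z} := by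
    intro 𝔞
    by_cases h : (Ideal.absNorm 𝔞).Coprime 2
    · obtain ⟨z, hz⟩ := hC 𝔞 h
      exact ⟨z, fun _ => hz⟩
    · exact ⟨0, fun h' => absurd h' h⟩
  choose z hz using hex
  have hfacts : ∀ 𝔞 : Ideal (𝓞 K), (Ideal.absNorm 𝔞).Coprime R →
      𝔞 * 𝔟 (C 𝔞) = Ideal.span {toO s (z 𝔞)} ∧ Adm (b (C 𝔞)) (b' (C 𝔞)) (z 𝔞) ∧
        ∀ q ∈ P, ¬ (q : ℤ) ∣ (z 𝔞).norm := by
    intro 𝔞 h𝔞
    have h1 := hz 𝔞 (h𝔞.coprime_dvd_right h2R)
    refine ⟨h1, ?_⟩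
    obtain ⟨z₁, h2, h3, h4⟩ := amb_coord hK hsf hd s (hb' (C 𝔞)) (h𝔟 (C 𝔞)) h1
    have key : ∀ p : ℕ, p.Prime → p ∣ R →
        ¬ (p : ℤ) ∣ b (C 𝔞) * z₁ * z₁ - b' (C 𝔞) * (z 𝔞).im * (z 𝔞).im := by
      intro p hp hpR h
      rw [Int.natCast_dvd, h4] at h
      exact hp.one_lt.ne' (Nat.eq_one_of_dvd_coprimes h𝔞 h hpR)
    have hdiv : (z 𝔞).re / b (C 𝔞) = z₁ := by
      rw [h2, Int.mul_ediv_cancel_left _ (hb0 _)]
    refine ⟨⟨by rw [hdiv]; exact h2, ?_⟩, fun q hq h => ?_⟩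
    · rw [hdiv]
      have := key 2 Nat.prime_two h2R
      push_cast at this
      omega
    · rw [h3] at h
      rcases (Nat.prime_iff_prime_int.1 (hF.prime q hq)).dvd_or_dvd h with h5 | h5
      · refine hF.not_dvd q hq ?_
        rw [hb' (C 𝔞)]
        exact (h5.mul_right _).mul_left _
      · refine key q (hF.prime q hq) ?_ h5
        rw [hR]
        exact (Finset.dvd_prod_of_mem (fun q : ℕ => q) hq).mul_left _
  have hunitspan : ∀ {u y : ℤ√d}, IsUnit u →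
      Ideal.span {toO s (u * y)} = Ideal.span {toO s y} := by
    intro u y hu
    rw [map_mul]
    exact Ideal.span_singleton_mul_left_unit (hu.map (toO s)) _
  have hunit1 : ∀ {u : ℤ√d}, u.norm = 1 → IsUnit u := by
    intro u hu
    rw [Zsqrtd.isUnit_iff_norm_isUnit, hu]
    exact isUnit_one
  have hcPw : (c * ∏ q ∈ Pw, q) ∣ c * ∏ q ∈ P, q := by
    rw [← hPwt]
    exact mul_dvd_mul_left _ (dvd_mul_right _ _)
  have hgG : ((c * ∏ q ∈ P, q : ℕ) : ℤ) ∣ (g ^ (∏ q ∈ P, r q)).im := by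
    rw [hgw, hcast]
    exact dvd_mul_right _ _
  have hms : ∃ j : ℕ, ∀ a : ℤ, ((c * ∏ q ∈ P, q : ℕ) : ℤ) ∣ a → (W : ℤ) ^ j ∣ a →
      (a : 𝓞 K) * s ∈ m := by
    refine exists_bound (R := R) hm0 (s : 𝓞 K) (fun 𝔮 h𝔮 h0 => ?_) fun p hp hpR hpw => ?_
    · rw [hm 𝔮 h𝔮 h0, ← hRZ, Int.cast_natCast]
    · rw [hW]
      refine Finset.dvd_prod_of_mem (fun q : ℕ => q) ?_
      rw [hS, Finset.mem_filter, Nat.mem_primeFactors]
      exact ⟨⟨hp, hpR, hR0⟩, hpw⟩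
  refine criterion (k := k) (X := ClassGroup (𝓞 K) × X₀ × (P → Bool)) (R := R) hGood hcPw hgG hR0
    hWR h2R ?_ hd hK s hτ ?_ ?_
    (fun 𝔞 => (C 𝔞, f₀ (C 𝔞) (z 𝔞), fun q => χ q (ν (C 𝔞) (z 𝔞)))) ?_ hι hm0 ?_ hms i hi
  · intro p hp hpd
    rw [hR]
    rw [← hD] at hpd
    exact ((Int.natCast_dvd_natCast.1 hpd).mul_left 2).mul_right _
  · intro 𝔞 h𝔞
    obtain ⟨h1, h2, h3⟩ := hfacts 𝔞 h𝔞
    obtain ⟨y, hy⟩ := exists_quot (hb' _) h2 h2.star
    have hyi := im_of_mul (hb0 _) h2 h2.star hy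
    rw [star_star] at hy
    rw [Zsqrtd.im_star, Zsqrtd.re_star, neg_neg] at hyi
    have hcy : (c : ℤ) ∣ y.im := by
      rw [hyi]
      rcases hc with ⟨hd2, rfl⟩ | ⟨hd2, rfl⟩
      · have ho : b (C 𝔞) % 2 = 1 ∧ b' (C 𝔞) % 2 = 1 := by
          have h4 := hb' (C 𝔞)
          rw [h4] at hd2
          rcases Int.emod_two_eq_zero_or_one (b (C 𝔞)) with h | h
          · rw [mul_emod0 h] at hd2
            omega
          · rw [mul_emod h] at hd2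
            exact ⟨h, hd2⟩
        rcases par ho.1 ho.2 h2.odd with ⟨ha, -⟩ | ⟨-, ha⟩
        · obtain ⟨t, ht⟩ : ∃ t, (z 𝔞).re / b (C 𝔞) = 2 * t := ⟨(z 𝔞).re / b (C 𝔞) / 2, by omega⟩
          rw [ht]
          exact ⟨t * (z 𝔞).im, by push_cast; ring⟩
        · obtain ⟨t, ht⟩ : ∃ t, (z 𝔞).im = 2 * t := ⟨(z 𝔞).im / 2, by omega⟩
          rw [ht]
          exact ⟨(z 𝔞).re / b (C 𝔞) * t, by push_cast; ring⟩
      · exact ⟨(z 𝔞).re / b (C 𝔞) * (z 𝔞).im, by push_cast; ring⟩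
    have h4 : ∀ q ∈ P, ¬ (q : ℤ) ∣ (z 𝔞 * z 𝔞).norm := by
      intro q hq h
      rw [Zsqrtd.norm_mul] at h
      rcases (Nat.prime_iff_prime_int.1 (hF.prime q hq)).dvd_or_dvd h with h | h <;>
        exact h3 q hq h
    obtain ⟨u, hu, hu'⟩ := hχ2 _ _ y hy h4 hcy (hχ1 _ h3)
    refine ⟨u * y, ?_, ?_, by rw [hcast]; exact hu'⟩
    · rw [hunitspan (hunit1 hu)]
      exact amb_sq hd s (hb' _) (h𝔟 _) h1 hy
    · rw [Zsqrtd.norm_mul, hu, one_mul]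
      have h5 := congrArg Zsqrtd.norm hy
      rw [Zsqrtd.norm_mul, Zsqrtd.norm_mul, Zsqrtd.norm_intCast] at h5
      have h6 : 0 < (z 𝔞).norm * (z 𝔞).norm := mul_self_pos.2 (h2.norm_ne (hb' _) (hb0 _))
      rw [h5] at h6
      exact (mul_pos_iff_of_pos_left (mul_self_pos.2 (hb0 _))).1 h6
  · rw [Nat.card_prod, Nat.card_prod, Nat.card_fun, Nat.card_eq_fintype_card (α := Bool),
      Nat.card_eq_fintype_card (α := P), Fintype.card_bool, Fintype.card_coe,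
      Nat.card_eq_fintype_card (α := ClassGroup (𝓞 K))]
    change classNumber K * _ ≤ _
    refine Nat.le_of_mul_le_mul_right ?_ (show 0 < 2 ^ δ by positivity)
    calc classNumber K * (Nat.card X₀ * 2 ^ P.card) * 2 ^ δ
        = classNumber K * (Nat.card X₀ * 2 ^ δ) * 2 ^ P.card := by ring
      _ = 2 * (classNumber K * c * 2 ^ P.card) := by rw [hcard]; ring
      _ ≤ 2 * 2 ^ (2 * k + 3 + δ) := Nat.mul_le_mul_left _ hk
      _ = 16 * 4 ^ k * 2 ^ δ := by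
          rw [pow_add, pow_add, pow_mul]
          norm_num
          ring
  · intro 𝔞 𝔞' h𝔞 h𝔞' hff
    simp only [Prod.mk.injEq] at hff
    obtain ⟨hCC, hff0, hffχ⟩ := hff
    obtain ⟨h1, h2, h3⟩ := hfacts 𝔞 h𝔞
    obtain ⟨h1', h2', h3'⟩ := hfacts 𝔞' h𝔞'
    rw [← hCC] at h1' h2' hff0 hffχ
    generalize C 𝔞 = κ at h1 h2 h1' h2' hff0 hffχ
    obtain ⟨h5, h6⟩ := hf₀ κ (z 𝔞) (z 𝔞') h2 h2' hff0
    obtain ⟨v, hv, hvz⟩ := hν κ (z 𝔞)
    obtain ⟨v', hv', hvz'⟩ := hν κ (z 𝔞')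
    have h7 : Adm (b κ) (b' κ) (ν κ (z 𝔞)) := by
      rw [hvz]
      exact h2.mul_unit (hb' κ) (hb0 κ) hv
    have h7' : Adm (b κ) (b' κ) (ν κ (z 𝔞')) := by
      rw [hvz']
      exact h2'.mul_unit (hb' κ) (hb0 κ) hv'
    have hqn : ∀ {v z : ℤ√d}, IsUnit v → (∀ q ∈ P, ¬ (q : ℤ) ∣ z.norm) →
        ∀ q ∈ P, ¬ (q : ℤ) ∣ (v * z).norm := by
      intro v z hv hz q hq h
      have hun : IsUnit v.norm := Zsqrtd.isUnit_iff_norm_isUnit _ |>.1 hv
      rw [Zsqrtd.norm_mul] at h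
      exact hz q hq ((hun.dvd_mul_left).1 h)
    have h8 : ∀ q ∈ P, ¬ (q : ℤ) ∣ (ν κ (z 𝔞)).norm := by
      rw [hvz]
      exact hqn hv h3
    have h8' : ∀ q ∈ P, ¬ (q : ℤ) ∣ (ν κ (z 𝔞')).norm := by
      rw [hvz']
      exact hqn hv' h3'
    have h9 : 𝔞 * 𝔟 κ = Ideal.span {toO s (ν κ (z 𝔞))} := by
      rw [hvz, hunitspan hv, h1]
    have h9' : 𝔞' * 𝔟 κ = Ideal.span {toO s (ν κ (z 𝔞'))} := by
      rw [hvz', hunitspan hv', h1']
    obtain ⟨y, hy⟩ := exists_quot (hb' κ) h7 h7'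
    have hzz : ∀ q ∈ P, ¬ (q : ℤ) ∣ (ν κ (z 𝔞) * star (ν κ (z 𝔞'))).norm := by
      intro q hq h
      rw [Zsqrtd.norm_mul, Zsqrtd.norm_conj] at h
      rcases (Nat.prime_iff_prime_int.1 (hF.prime q hq)).dvd_or_dvd h with h | h
      · exact h8 q hq h
      · exact h8' q hq h
    obtain ⟨u, hu, hu'⟩ := hχ2 (b κ) _ y hy hzz (h6 y hy)
      (fun q => hχ3 _ _ h8 h8' q (congrFun hffχ q))
    refine ⟨u * y, ?_, ?_, by rw [hcast]; exact hu'⟩
    · rw [hunitspan (hunit1 hu)]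
      exact amb_mul hd s hτ (hb' κ) (h𝔟 κ) h9 h9' hy
    · rw [Zsqrtd.norm_mul, hu, one_mul]
      have h10 := congrArg Zsqrtd.norm hy
      rw [Zsqrtd.norm_mul, Zsqrtd.norm_mul, Zsqrtd.norm_conj, Zsqrtd.norm_intCast] at h10
      rw [h10] at h5
      exact (mul_pos_iff_of_pos_left (mul_self_pos.2 (hb0 κ))).1 h5
  · intro 𝔮 h𝔮 h0
    rw [hm 𝔮 h𝔮 h0, ← hRZ, Int.cast_natCast]

end Pool.Agent.EvM
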