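import Mathlib

/-!
# Powers of elements of norm one in `ℤ√d`
-/

set_option autoImplicit false

namespace Pool.Agent.EvM

open Finset

theorem pow_re_im {d : ℤ} (h : ℤ√d) (n : ℕ) :
    ∃ A B : ℤ, (h ^ (n + 1)).re = h.re ^ (n + 1) + d * h.im ^ 2 * A ∧
      (h ^ (n + 1)).im = h.im * ((n + 1) * h.re ^ n + d * h.im ^ 2 * B) := by
  induction n with
  | zero => exact ⟨0, 0, by simp, by simp⟩
  | succ n ih =>
    obtain ⟨A, B, h1, h2⟩ := ih
    refine ⟨A * h.re + ((n + 1) * h.re ^ n + d * h.im ^ 2 * B), A + h.re * B, ?_, ?_⟩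
    · rw [pow_succ, Zsqrtd.re_mul, h1, h2]
      ring
    · rw [pow_succ, Zsqrtd.im_mul, h1, h2]
      push_cast
      ring

private lemma Y_pow {d : ℤ} (y : ℤ) (k : ℕ) : ∃ t : ℤ, ((⟨0, y⟩ : ℤ√d) ^ k).im = y * t := by
  induction k using Nat.twoStepInduction with
  | zero => exact ⟨0, by simp⟩
  | one => exact ⟨1, by simp⟩
  | more k ih _ =>
    obtain ⟨t, ht⟩ := ih
    refine ⟨d * y ^ 2 * t, ?_⟩
    rw [pow_add, pow_two, Zsqrtd.im_mul, Zsqrtd.re_mul, Zsqrtd.im_mul, ht]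
    simp only
    ring

private lemma Y_pow2 {d : ℤ} (y : ℤ) (k : ℕ) :
    ∃ t : ℤ, ((⟨0, y⟩ : ℤ√d) ^ (k + 2)).im = y * (d * y ^ 2 * t) := by
  obtain ⟨t, ht⟩ := Y_pow (d := d) y k
  refine ⟨t, ?_⟩
  rw [pow_add, pow_two, Zsqrtd.im_mul, Zsqrtd.re_mul, Zsqrtd.im_mul, ht]
  simp only
  ring

private lemma Y_odd {d : ℤ} (y : ℤ) (n : ℕ) :
    ((⟨0, y⟩ : ℤ√d) ^ (2 * n + 1)).im = y * (d * y ^ 2) ^ n := by
  induction n with
  | zero => simp
  | succ n ih =>
    rw [show 2 * (n + 1) + 1 = (2 * n + 1) + 2 by ring, pow_add _ _ 2, pow_two (⟨0, y⟩ : ℤ√d),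
      Zsqrtd.im_mul, Zsqrtd.re_mul, Zsqrtd.im_mul, ih]
    simp only
    ring

private lemma decomp {d : ℤ} (h : ℤ√d) : h = ((h.re : ℤ) : ℤ√d) + ⟨0, h.im⟩ := by
  ext <;> simp

private lemma im_sum {d : ℤ} {ι : Type} (s : Finset ι) (f : ι → ℤ√d) :
    (∑ i ∈ s, f i).im = ∑ i ∈ s, (f i).im := by
  classical
  induction s using Finset.induction_on with
  | empty => simp
  | insert a s ha ih => rw [sum_insert ha, sum_insert ha, Zsqrtd.im_add, ih]

private lemma im_pow_odd {d : ℤ} {p : ℕ} (hp : p.Prime) {n : ℕ} (hn : p = 2 * n + 1) (h : ℤ√d) :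
    ∃ t : ℤ, (h ^ p).im = p * h.im * (h.re ^ (p - 1) + d * h.im ^ 2 * t) +
      h.im * (d * h.im ^ 2) ^ n := by
  have hp2 := hp.two_le
  have e1 := add_pow_prime_eq' hp ((h.re : ℤ) : ℤ√d) (⟨0, h.im⟩ : ℤ√d)
  rw [← decomp h] at e1
  have e2 : ∃ t : ℤ, (∑ k ∈ Ioo 0 p, ((h.re : ℤ) : ℤ√d) ^ k * (⟨0, h.im⟩ : ℤ√d) ^ (p - k) *
      ((p.choose k / p : ℕ) : ℤ√d)).im = h.im * (h.re ^ (p - 1) + d * h.im ^ 2 * t) := by
    have e3 : Ioo 0 p = insert (p - 1) (Ioo 0 (p - 1)) := by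
      ext k
      simp only [mem_Ioo, mem_insert]
      omega
    rw [e3, sum_insert (by simp), Zsqrtd.im_add, im_sum]
    have e4 : ∃ t : ℤ, ∑ k ∈ Ioo 0 (p - 1), (((h.re : ℤ) : ℤ√d) ^ k *
        (⟨0, h.im⟩ : ℤ√d) ^ (p - k) * ((p.choose k / p : ℕ) : ℤ√d)).im =
        h.im * (d * h.im ^ 2) * t := by
      rw [← dvd_iff_exists_eq_mul_right]
      refine Finset.dvd_sum fun k hk => ?_
      rw [mem_Ioo] at hk
      obtain ⟨t, ht⟩ := Y_pow2 (d := d) h.im (p - k - 2)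
      rw [show p - k - 2 + 2 = p - k by omega] at ht
      refine ⟨t * h.re ^ k * ((p.choose k / p : ℕ) : ℤ), ?_⟩
      rw [← Int.cast_pow, ← Int.cast_natCast, mul_comm _ (((p.choose k / p : ℕ) : ℤ) : ℤ√d),
        Zsqrtd.im_smul, Zsqrtd.im_smul, ht]
      ring
    obtain ⟨t, ht⟩ := e4
    refine ⟨t, ?_⟩
    rw [ht, show p - (p - 1) = 1 by omega, pow_one,
      show p.choose (p - 1) / p = 1 by
        rw [Nat.choose_symm (by omega : 1 ≤ p), Nat.choose_one_right]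
        exact Nat.div_self hp.pos, Nat.cast_one, mul_one, ← Int.cast_pow, Zsqrtd.im_smul]
    ring
  obtain ⟨t, ht⟩ := e2
  have ht' := Y_odd (d := d) h.im n
  rw [← hn] at ht'
  refine ⟨t, ?_⟩
  rw [e1, Zsqrtd.im_add, Zsqrtd.im_add, ← Int.cast_pow, Zsqrtd.im_intCast, ht',
    ← Int.cast_natCast (R := ℤ√d) p, Zsqrtd.im_smul, ht]
  ring

theorem norm_pow_one {d : ℤ} {h : ℤ√d} (hh : h.norm = 1) (n : ℕ) : (h ^ n).norm = 1 := by
  have e := map_pow (Zsqrtd.normMonoidHom (d := d)) h n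
  change (h ^ n).norm = h.norm ^ n at e
  rw [e, hh, one_pow]

theorem coprime_of_primes {u : ℤ} {R : ℕ} (h : ∀ p : ℕ, p.Prime → p ∣ R → ¬ (p : ℤ) ∣ u) :
    IsCoprime u (R : ℤ) := by
  rw [Int.isCoprime_iff_gcd_eq_one]
  by_contra hne
  obtain ⟨p, hp, hpg⟩ := Nat.exists_prime_and_dvd hne
  have h1 : (p : ℤ) ∣ Int.gcd u R := Int.natCast_dvd_natCast.2 hpg
  exact h p hp (Int.natCast_dvd_natCast.1 (h1.trans (Int.gcd_dvd_right _ _)))
    (h1.trans (Int.gcd_dvd_left _ _))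

private lemma not_dvd_of_coprime {u : ℤ} {R p : ℕ} (h : IsCoprime u (R : ℤ)) (hp : p.Prime)
    (hpR : p ∣ R) : ¬ (p : ℤ) ∣ u := by
  intro hd
  have h1 := h.isUnit_of_dvd' hd (Int.natCast_dvd_natCast.2 hpR)
  rw [Int.isUnit_iff] at h1
  have := hp.one_lt
  omega

/-- Levels: all prime factors of `R` divide `d c`. -/
structure Lev (d : ℤ) (c R : ℕ) : Prop where
  h3 : 3 ∣ R → 3 ∣ c ∨ d % 9 ≠ 6
  hc2 : 2 ∣ c
  hR0 : R ≠ 0
  hR : ∀ p : ℕ, p.Prime → p ∣ R → (p : ℤ) ∣ d ∨ p ∣ c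
  hRd : (R : ℤ) ∣ d * c ^ 2

private lemma coprime_re {d : ℤ} {c R : ℕ} (hL : Lev d c R) {h : ℤ√d}
    (hn : IsCoprime h.norm (R : ℤ)) (hc : (c : ℤ) ∣ h.im) : IsCoprime h.re (R : ℤ) := by
  obtain ⟨v, hv⟩ := hc
  obtain ⟨q, hq⟩ := hL.hRd
  have h2 : h.re * h.re = h.norm + R * (q * v ^ 2) := by
    rw [Zsqrtd.norm_def, hv]
    linear_combination (v ^ 2) * hq
  have h3 : IsCoprime (h.re * h.re) (R : ℤ) := by
    rw [h2]
    exact hn.add_mul_left_left _
  exact h3.of_mul_left_left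

private lemma im_pow_prime {d : ℤ} {c R : ℕ} (hL : Lev d c R) {p : ℕ} (hp : p.Prime)
    (hpR : p ∣ R) {h : ℤ√d} (hn : h.norm = 1) (hc : (c : ℤ) ∣ h.im) :
    ∃ u : ℤ, IsCoprime u (R : ℤ) ∧ (h ^ p).im = p * h.im * u := by
  have hre := coprime_re hL (by rw [hn]; exact isCoprime_one_left) hc
  have hn' := hn
  rw [Zsqrtd.norm_def] at hn'
  -- primes of `R` divide `d y²`
  have hdy : ∀ q : ℕ, q.Prime → q ∣ R → (q : ℤ) ∣ d * h.im ^ 2 := by
    intro q hq hqR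
    rcases hL.hR q hq hqR with h1 | h1
    · exact h1.mul_right _
    · exact (dvd_pow ((Int.natCast_dvd_natCast.2 h1).trans hc) two_ne_zero).mul_left _
  rcases hp.eq_two_or_odd' with rfl | hodd
  · refine ⟨h.re, hre, ?_⟩
    rw [pow_two, Zsqrtd.im_mul]
    push_cast
    ring
  obtain ⟨n, hn2⟩ := hodd
  obtain ⟨t, ht⟩ := im_pow_odd hp hn2 h
  have hn0 : n ≠ 0 := by
    rintro rfl
    exact hp.one_lt.ne' hn2
  have hpZ := Nat.prime_iff_prime_int.1 hp
  by_cases hpy : (p : ℤ) ∣ h.im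
  · -- `p ∣ y`
    obtain ⟨y', hy'⟩ := hpy
    refine ⟨h.re ^ (p - 1) + d * h.im ^ 2 * t + d * y' * h.im * (d * h.im ^ 2) ^ (n - 1), ?_, ?_⟩
    · refine coprime_of_primes fun q hq hqR hqu => ?_
      have hqZ := Nat.prime_iff_prime_int.1 hq
      have h1 := hdy q hq hqR
      have h2 : (q : ℤ) ∣ d * y' * h.im := by
        rcases eq_or_ne q p with rfl | hqp
        · exact (Dvd.intro _ hy'.symm).mul_left _
        · have h3 : (q : ℤ) ∣ p * (d * y' * h.im) := by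
            have h4 : (p : ℤ) * (d * y' * h.im) = d * h.im ^ 2 := by
              linear_combination -(d * h.im) * hy'
            rw [h4]
            exact h1
          rcases hqZ.dvd_or_dvd h3 with h4 | h4
          · exact absurd ((Nat.prime_dvd_prime_iff_eq hq hp).1 (Int.natCast_dvd_natCast.1 h4)) hqp
          · exact h4
      have h3 : (q : ℤ) ∣ h.re ^ (p - 1) := by
        rw [add_assoc] at hqu
        exact (dvd_add_left ((h1.mul_right t).add (h2.mul_right _))).1 hqu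
      exact not_dvd_of_coprime hre hq hqR (hqZ.dvd_of_dvd_pow h3)
    · rw [ht]
      obtain ⟨k, rfl⟩ := Nat.exists_eq_succ_of_ne_zero hn0
      rw [Nat.succ_eq_add_one, Nat.add_sub_cancel, pow_succ (d * h.im ^ 2) k]
      linear_combination (h.im * (d * h.im ^ 2) ^ k * d * h.im) * hy'
  · -- `p ∣ d`
    have hpd : (p : ℤ) ∣ d := by
      rcases hL.hR p hp hpR with h1 | h1
      · exact h1
      · exact absurd ((Int.natCast_dvd_natCast.2 h1).trans hc) hpy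
    obtain ⟨d', hd'⟩ := hpd
    rcases eq_or_ne p 3 with rfl | hp3
    · have hd9 : d % 9 ≠ 6 := by
        rcases hL.h3 hpR with h1 | h1
        · exact absurd ((Int.natCast_dvd_natCast.2 h1).trans hc) hpy
        · exact h1
      push_cast at hd' hpy
      refine ⟨1 + 4 * d' * h.im ^ 2, ?_, ?_⟩
      · refine coprime_of_primes fun q hq hqR hqu => ?_
        have hqZ := Nat.prime_iff_prime_int.1 hq
        rcases eq_or_ne q 3 with rfl | hq3
        · have h4 : (1 + 4 * d' * h.im ^ 2) % 3 = 0 := Int.emod_eq_zero_of_dvd hqu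
          have h5 : h.im % 3 = 0 ∨ h.im % 3 = 1 ∨ h.im % 3 = 2 := by omega
          have h6 : d' % 3 = 0 ∨ d' % 3 = 1 := by omega
          rcases h5 with h5 | h5 | h5 <;> rcases h6 with h6 | h6 <;>
            simp [Int.add_emod, Int.mul_emod, pow_two, h5, h6] at h4
        · have h1 := hdy q hq hqR
          have h2 : (q : ℤ) ∣ d' * h.im ^ 2 := by
            have h4 : d * h.im ^ 2 = 3 * (d' * h.im ^ 2) := by
              linear_combination (h.im ^ 2) * hd'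
            rw [h4] at h1
            rcases hqZ.dvd_or_dvd h1 with h5 | h5
            · exfalso
              have : q ∣ 3 := by exact_mod_cast h5
              exact hq3 ((Nat.prime_dvd_prime_iff_eq hq Nat.prime_three).1 this)
            · exact h5
          have h3 : (q : ℤ) ∣ 1 := by
            have h4 : (1 : ℤ) = (1 + 4 * d' * h.im ^ 2) - 4 * (d' * h.im ^ 2) := by ring
            rw [h4]
            exact hqu.sub (h2.mul_left 4)
          exact hqZ.not_dvd_one h3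
      · have e : h ^ 3 = h * h * h := by ring
        rw [e]
        simp only [Zsqrtd.im_mul, Zsqrtd.re_mul]
        push_cast
        linear_combination (3 * h.im) * hn' + (4 * h.im ^ 3) * hd'
    · have hn2' : 2 ≤ n := by
        have := hp.two_le
        omega
      refine ⟨h.re ^ (p - 1) + d * h.im ^ 2 * (t + d' * h.im ^ 2 * (d * h.im ^ 2) ^ (n - 2)), ?_, ?_⟩
      · refine coprime_of_primes fun q hq hqR hqu => ?_
        have hqZ := Nat.prime_iff_prime_int.1 hq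
        have h1 := hdy q hq hqR
        have h3 : (q : ℤ) ∣ h.re ^ (p - 1) := (dvd_add_left (h1.mul_right _)).1 hqu
        exact not_dvd_of_coprime hre hq hqR (hqZ.dvd_of_dvd_pow h3)
      · rw [ht]
        obtain ⟨k, rfl⟩ : ∃ k, n = k + 2 := ⟨n - 2, by omega⟩
        rw [Nat.add_sub_cancel, pow_add (d * h.im ^ 2) k 2]
        linear_combination (h.im * (d * h.im ^ 2) ^ k * d * h.im ^ 2 * h.im ^ 2) * hd'

theorem im_pow_supp {d : ℤ} {c R : ℕ} (hL : Lev d c R) {n : ℕ} (h0 : n ≠ 0)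
    (hn : ∀ p : ℕ, p.Prime → p ∣ n → p ∣ R) {h : ℤ√d} (hh : h.norm = 1) (hc : (c : ℤ) ∣ h.im) :
    ∃ u : ℤ, IsCoprime u (R : ℤ) ∧ (h ^ n).im = n * h.im * u := by
  induction n using Nat.recOnMul generalizing h with
  | zero => exact absurd rfl h0
  | one => exact ⟨1, isCoprime_one_left, by simp⟩
  | prime p hp => exact im_pow_prime hL hp (hn p hp dvd_rfl) hh hc
  | mul a b iha ihb =>
    have ha0 : a ≠ 0 := fun h => h0 (by simp [h])
    have hb0 : b ≠ 0 := fun h => h0 (by simp [h])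
    obtain ⟨u, hu, h1⟩ := iha ha0 (fun p hp hd => hn p hp (hd.mul_right b)) hh hc
    obtain ⟨u', hu', h3⟩ := ihb hb0 (fun p hp hd => hn p hp (hd.mul_left a))
      (h := h ^ a) (norm_pow_one hh a) (by rw [h1]; exact (hc.mul_left _).mul_right _)
    refine ⟨u * u', hu.mul_left hu', ?_⟩
    rw [pow_mul, h3, h1]
    push_cast
    ring

/-- The data of the fundamental unit. -/
structure Good (d : ℤ) (c R : ℕ) (g : ℤ√d) : Prop extends Lev d c R where
  norm : g.norm = 1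
  him : ∃ w : ℤ, IsCoprime w (R : ℤ) ∧ g.im = c * w

theorem core {d : ℤ} {c R : ℕ} {g : ℤ√d} (hg : Good d c R g) {z : ℤ√d}
    (hz : IsCoprime z.norm (R : ℤ)) (hzc : (c : ℤ) ∣ z.im) (j : ℕ) :
    ∃ k : ℕ, (c : ℤ) * R ^ j ∣ (g ^ k * z).im := by
  obtain ⟨w, hw, hgw⟩ := hg.him
  have hgc : (c : ℤ) ∣ g.im := by
    rw [hgw]
    exact dvd_mul_right _ _
  induction j with
  | zero => exact ⟨0, by simpa using hzc⟩
  | succ j ih =>
    obtain ⟨k, a, ha⟩ := ih
    have hRj : R ^ j ≠ 0 := pow_ne_zero _ hg.hR0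
    obtain ⟨u, hu, hgu⟩ := im_pow_supp hg.toLev hRj
      (fun p hp hd => hp.dvd_of_dvd_pow hd) hg.norm hgc
    set h : ℤ√d := g ^ (R ^ j) with hh
    set z' : ℤ√d := g ^ k * z with hz'
    -- `im h = c R^j (w u)`
    have h1 : h.im = c * R ^ j * (w * u) := by
      rw [hgu, hgw]
      push_cast
      ring
    have hhn : h.norm = 1 := norm_pow_one hg.norm _
    have hz'n : z'.norm = z.norm := by
      rw [hz', Zsqrtd.norm_mul, norm_pow_one hg.norm, one_mul]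
    have hr : IsCoprime z'.re (R : ℤ) := coprime_re hg.toLev (by rw [hz'n]; exact hz)
      (by rw [ha, mul_assoc]; exact dvd_mul_right _ _)
    -- solve the congruence
    have hco : IsCoprime ((w * u) * z'.re) (R : ℤ) := (hw.mul_left hu).mul_left hr
    obtain ⟨s, t, hst⟩ := hco
    -- `m ≡ - x a s`
    have hRpos : (0 : ℤ) < R := by exact_mod_cast Nat.pos_of_ne_zero hg.hR0
    obtain ⟨m, hm⟩ : ∃ m : ℕ, (R : ℤ) ∣ (m + 1 : ℤ) + h.re * a * s := by
      refine ⟨((-(h.re * a * s) - 1) % R).toNat, ?_⟩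
      rw [Int.toNat_of_nonneg (Int.emod_nonneg _ hRpos.ne')]
      have := Int.emod_add_ediv_mul (-(h.re * a * s) - 1) R
      exact ⟨-((-(h.re * a * s) - 1) / R), by linear_combination this⟩
    obtain ⟨A, B, e1, e2⟩ := pow_re_im h m
    refine ⟨R ^ j * (m + 1) + k, ?_⟩
    have e3 : g ^ (R ^ j * (m + 1) + k) * z = h ^ (m + 1) * z' := by
      rw [pow_add, pow_mul, ← hh, hz', mul_assoc]
    rw [e3, Zsqrtd.im_mul, e1, e2, ha, h1]
    obtain ⟨q, hq⟩ := hm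
    obtain ⟨r, hr'⟩ := hg.hRd
    refine ⟨h.re ^ m * (h.re * a * t + q * (w * u) * z'.re) +
      r * R ^ (2 * j) * (w * u) ^ 2 * (A * a + w * u * B * z'.re), ?_⟩
    linear_combination (c * R ^ j * h.re ^ m * (w * u * z'.re) : ℤ) * hq -
      (c * R ^ j * h.re ^ m * h.re * a : ℤ) * hst +
      (c * R ^ j * R ^ (2 * j) * (w * u) ^ 2 * (A * a + w * u * B * z'.re) : ℤ) * hr'

theorem sub_star {d : ℤ} (x : ℤ√d) :
    x - star x = ((2 * x.im : ℤ) : ℤ√d) * ⟨0, 1⟩ := by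
  ext
  · simp
  · simp
    ring

/-- `g^(2k) z` and its conjugate are congruent modulo `R^j`. -/
theorem core2 {d : ℤ} {c R : ℕ} {g : ℤ√d} (hg : Good d c R g) {z : ℤ√d}
    (hz : IsCoprime z.norm (R : ℤ)) (hzc : (c : ℤ) ∣ z.im) (j : ℕ) :
    ∃ k : ℕ, ((R ^ j : ℕ) : ℤ√d) ∣ (g ^ k) ^ 2 * z - star z := by
  obtain ⟨k, q, hq⟩ := core hg hz hzc j
  refine ⟨k, ?_⟩
  have h1 : g ^ k * star (g ^ k) = 1 := by
    rw [← Zsqrtd.norm_eq_mul_conj, norm_pow_one hg.norm, Int.cast_one]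
  have h2 : (g ^ k) ^ 2 * z - star z = g ^ k * (g ^ k * z - star (g ^ k * z)) := by
    rw [star_mul']
    linear_combination (star z) * h1
  rw [h2]
  have h3 : g ^ k * z - star (g ^ k * z) =
      ((R ^ j : ℕ) : ℤ√d) * (((2 * c * q : ℤ) : ℤ√d) * ⟨0, 1⟩) := by
    rw [sub_star, hq]
    push_cast
    ring
  rw [h3]
  exact (dvd_mul_right _ _).mul_left _

theorem dvd_im_mul {d : ℤ} {z w : ℤ√d} {c : ℤ} (h : c ∣ z.im) (h' : c ∣ w.im) :
    c ∣ (z * w).im := by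
  rw [Zsqrtd.im_mul]
  exact (h'.mul_left _).add (h.mul_right _)

theorem dvd_im_pow {d : ℤ} {g : ℤ√d} {c : ℤ} (h : c ∣ g.im) (n : ℕ) : c ∣ (g ^ n).im := by
  induction n with
  | zero => simp
  | succ n ih =>
    rw [pow_succ, Zsqrtd.im_mul]
    exact (h.mul_left _).add (ih.mul_right _)

end Pool.Agent.EvM
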