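import Pool.Agent.EvM.Fam

/-!
# The unit exists for `d ≡ 3` modulo `8`
-/

set_option autoImplicit false

open NumberField Module Pool.Agent.StarkRQ Pool.Agent.StarkU Pool.Agent.SLow
open scoped Pointwise nonZeroDivisors

namespace Pool.Agent.EvM

variable {K : Type} [Field K] [NumberField K] {d : ℤ}

omit [NumberField K] in
/-- the ramified prime over `2` -/
private lemma exists_two (s : {x : 𝓞 K // x * x = (d : 𝓞 K)}) (hd : d % 4 = 3) :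
    ∃ 𝔭 : Ideal (𝓞 K), 𝔭 * 𝔭 = Ideal.span {((2 : ℤ) : 𝓞 K)} := by
  obtain ⟨k, hk⟩ : ∃ k, d = 4 * k + 3 := ⟨d / 4, by omega⟩
  have hs : (s : 𝓞 K) * s = 4 * (k : 𝓞 K) + 3 := by
    have h2 : (d : 𝓞 K) = 4 * (k : 𝓞 K) + 3 := by
      have := congrArg (Int.cast : ℤ → 𝓞 K) hk
      push_cast at this
      exact this
    exact s.2.trans h2
  refine ⟨Ideal.span {2, 1 + (s : 𝓞 K)}, le_antisymm ?_ ?_⟩
  · rw [Ideal.mul_le]
    intro a ha b hb
    rw [Ideal.mem_span_pair] at ha hb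
    obtain ⟨x, y, rfl⟩ := ha
    obtain ⟨u, v, rfl⟩ := hb
    rw [Ideal.mem_span_singleton]
    refine ⟨2 * x * u + x * v * (1 + s) + y * u * (1 + s) + y * v * (2 * k + 2 + s), ?_⟩
    push_cast
    linear_combination (y * v) * hs
  · rw [Ideal.span_singleton_le_iff_mem]
    have h1 : ((2 : ℤ) : 𝓞 K) = (1 + s) * (1 + s) - (2 * (1 + s) + (k : 𝓞 K) * (2 * 2)) := by
      push_cast
      linear_combination -hs
    have e1 : (2 : 𝓞 K) ∈ Ideal.span {2, 1 + (s : 𝓞 K)} := Ideal.subset_span (by simp)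
    have e2 : (1 + (s : 𝓞 K)) ∈ Ideal.span {2, 1 + (s : 𝓞 K)} := Ideal.subset_span (by simp)
    rw [h1]
    exact Ideal.sub_mem _ (Ideal.mul_mem_mul e2 e2) (Ideal.add_mem _ (Ideal.mul_mem_mul e1 e2)
      (Ideal.mul_mem_left _ _ (Ideal.mul_mem_mul e1 e1)))

/-- the unit from `b x² - b' y² = ± 2` -/
private lemma unit_of_two {b b' x y : ℤ} (hb : d = b * b') (hbo : b % 2 = 1) (hbo' : b' % 2 = 1)
    (hd8 : d % 8 = 3) (h : (b * x * x - b' * y * y).natAbs = 2) :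
    ∃ e : ℤ√d, e.norm = 1 ∧ e.im % 2 = 1 ∧ e.re % 4 = 2 := by
  obtain ⟨t, ht, hT⟩ : ∃ t : ℤ, (t = 1 ∨ t = -1) ∧ b * x * x - b' * y * y = 2 * t := by
    rcases Int.natAbs_eq (b * x * x - b' * y * y) with h1 | h1 <;> rw [h] at h1
    · exact ⟨1, Or.inl rfl, by rw [h1]; norm_num⟩
    · exact ⟨-1, Or.inr rfl, by rw [h1]; norm_num⟩
  obtain ⟨β, hβ⟩ : ∃ β, b = 2 * β + 1 := ⟨b / 2, by omega⟩
  obtain ⟨β', hβ'⟩ : ∃ β', b' = 2 * β' + 1 := ⟨b' / 2, by omega⟩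
  have hsq : ∀ n : ℤ, ∃ m, n * n = 2 * m + n := fun n => by
    obtain ⟨m, hm⟩ := Int.even_mul_succ_self (n - 1)
    exact ⟨m, by linear_combination hm⟩
  have hxy : x % 2 = 1 ∧ y % 2 = 1 := by
    obtain ⟨u, hu⟩ := hsq x
    obtain ⟨v, hv⟩ := hsq y
    have h1 : x - y = 2 * (t - β * x * x + β' * y * y - u + v) := by
      rw [hβ, hβ'] at hT
      linear_combination hT + (-1) * hu + hv
    rcases Int.emod_two_eq_zero_or_one x with hx | hx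
    · exfalso
      obtain ⟨x', hx'⟩ : ∃ x', x = 2 * x' := ⟨x / 2, by omega⟩
      obtain ⟨y', hy'⟩ : ∃ y', y = 2 * y' := ⟨y / 2, by omega⟩
      rw [hx', hy'] at hT
      have h2 : 2 * t = 4 * (b * x' * x' - b' * y' * y') := by linear_combination -hT
      omega
    · exact ⟨hx, by omega⟩
  obtain ⟨hx, hy⟩ := hxy
  obtain ⟨x', hx'⟩ : ∃ x', x = 2 * x' + 1 := ⟨x / 2, by omega⟩
  obtain ⟨y', hy'⟩ : ∃ y', y = 2 * y' + 1 := ⟨y / 2, by omega⟩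
  have hn : (⟨b * x * x - t, x * y⟩ : ℤ√d).norm = 1 := by
    have ht2 : t * t = 1 := by rcases ht with rfl | rfl <;> rfl
    rw [Zsqrtd.norm_def]
    linear_combination (-(x * y) * (x * y)) * hb + (b * x * x) * hT + ht2
  have him : (x * y) % 2 = 1 := by
    have : x * y = 2 * (2 * x' * y' + x' + y') + 1 := by rw [hx', hy']; ring
    omega
  refine ⟨⟨b * x * x - t, x * y⟩, hn, him, ?_⟩
  change (b * x * x - t) % 4 = 2
  have hev : (b * x * x - t) % 2 = 0 := by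
    have h1 : b * x * x = 2 * (β * x * x + 2 * x' * x' + 2 * x') + 1 := by
      rw [hβ]
      linear_combination (x + 2 * x' + 1) * hx'
    omega
  obtain ⟨ρ, hρ⟩ : ∃ ρ, b * x * x - t = 2 * ρ := ⟨(b * x * x - t) / 2, by omega⟩
  obtain ⟨a, ha⟩ : ∃ a, x * y = 2 * a + 1 := ⟨x * y / 2, by omega⟩
  obtain ⟨k, hk⟩ : ∃ k, d = 8 * k + 3 := ⟨d / 8, by omega⟩
  obtain ⟨m, hm⟩ := Int.even_mul_succ_self a
  obtain ⟨l, hl⟩ := hsq ρ
  rw [Zsqrtd.norm_def] at hn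
  simp only at hn
  rw [hρ, ha] at hn
  have h1 : 4 * (ρ * ρ) = 4 * (1 + 2 * (k + (8 * k + 3) * m)) := by
    linear_combination hn + (2 * a + 1) * (2 * a + 1) * hk + 4 * (8 * k + 3) * hm
  have h2 : ρ % 2 = 1 := by omega
  rw [hρ]
  omega

/-- For `d ≡ 3` modulo `8` there is a unit of norm `1` with odd `im` and `re ≡ 2` modulo `4`. -/
theorem exists_unit_three (hK : finrank ℚ K = 2) (hsf : Squarefree d) (hd : ¬ IsSquare d)
    (s : {x : 𝓞 K // x * x = (d : 𝓞 K)}) (hcl : RamifiedClasses d K) (hd8 : d % 8 = 3) :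
    ∃ e : ℤ√d, e.norm = 1 ∧ e.im % 2 = 1 ∧ e.re % 4 = 2 := by
  obtain ⟨𝔭, h𝔭⟩ := exists_two s (by omega)
  have h𝔭0 : 𝔭 ∈ (Ideal (𝓞 K))⁰ := by
    rw [mem_nonZeroDivisors_iff_ne_zero]
    rintro rfl
    rw [mul_zero, Ideal.zero_eq_bot, eq_comm, Ideal.span_singleton_eq_bot] at h𝔭
    norm_num at h𝔭
  obtain ⟨b, 𝔟, ⟨b', hb'⟩, h𝔟, hC⟩ := hcl (ClassGroup.mk0 ⟨𝔭, h𝔭0⟩)
  have hb0 : b ≠ 0 := by
    rintro rfl
    rw [zero_mul] at hb'
    exact hd ⟨0, by rw [hb']; rfl⟩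
  have h𝔟' : (𝔟 : Ideal (𝓞 K)) * 𝔟 = Ideal.span {(b : 𝓞 K)} := by rw [← pow_two, h𝔟]
  -- the product is principal
  have hprin : (𝔭 * (𝔟 : Ideal (𝓞 K))).IsPrincipal := by
    have h1 : ClassGroup.mk0 ((⟨𝔭, h𝔭0⟩ : (Ideal (𝓞 K))⁰) * 𝔟) = 1 := by
      rw [map_mul, ← hC, ← map_mul]
      refine (ClassGroup.mk0_eq_one_iff (mul_mem 𝔟.2 𝔟.2)).2 ?_
      exact ⟨⟨(b : 𝓞 K), h𝔟'⟩⟩
    exact (ClassGroup.mk0_eq_one_iff (mul_mem h𝔭0 𝔟.2)).1 h1
  obtain ⟨z, hz⟩ := exists_gen hK hsf hd s (fun h => by omega) hprin (Or.inr (Or.inr (by omega)))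
  obtain ⟨z₁, h1, h2, h3⟩ := amb_coord hK hsf hd s hb' h𝔟' hz
  have h4 : Ideal.absNorm 𝔭 = 2 := by
    have h5 := absNorm_amb (b := 2) hK h𝔭
    exact h5
  rw [h4] at h3
  clear h1 h2
  generalize z.im = y at h3
  have hbo : b % 2 = 1 ∧ b' % 2 = 1 := by
    have h5 : d % 2 = 1 := by omega
    rw [hb', Int.mul_emod] at h5
    rcases Int.emod_two_eq_zero_or_one b with h | h <;>
      rcases Int.emod_two_eq_zero_or_one b' with h' | h' <;> rw [h, h'] at h5 <;>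
      first | (norm_num at h5; done) | exact ⟨h, h'⟩
  exact unit_of_two hb' hbo.1 hbo.2 hd8 h3

/-- the unit of norm `-1` -/
private lemma square_neg {e : ℤ√d} (he : e.norm = -1) (hd8 : d % 8 ≠ 1) (hd4 : d % 4 ≠ 0) :
    d % 2 = 1 ∧ (∃ w : ℤ, Odd w ∧ (e * e).im = 4 * w) ∨
      d % 2 = 0 ∧ ∃ w : ℤ, Odd w ∧ (e * e).im = 2 * w := by
  have hsq : ∀ n : ℤ, n % 2 = 1 → ∃ m, n * n = 8 * m + 1 := fun n hn => by
    obtain ⟨a, ha⟩ : ∃ a, n = 2 * a + 1 := ⟨n / 2, by omega⟩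
    obtain ⟨m, hm⟩ := Int.even_mul_succ_self a
    exact ⟨m, by rw [ha]; linear_combination 4 * hm⟩
  rw [Zsqrtd.norm_def] at he
  rw [Zsqrtd.im_mul]
  generalize e.re = x at he ⊢
  generalize e.im = y at he ⊢
  -- `y` is odd
  have hy : y % 2 = 1 := by
    by_contra hcon
    obtain ⟨b, hb⟩ : ∃ b, y = 2 * b := ⟨y / 2, by omega⟩
    rcases Int.emod_two_eq_zero_or_one x with hx | hx
    · obtain ⟨a, ha⟩ : ∃ a, x = 2 * a := ⟨x / 2, by omega⟩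
      rw [ha, hb] at he
      have : (1 : ℤ) = 4 * (d * b * b - a * a) := by linear_combination he
      omega
    · obtain ⟨m, hm⟩ := hsq x hx
      rw [hm, hb] at he
      have : (2 : ℤ) = 4 * (d * b * b - 2 * m) := by linear_combination he
      omega
  obtain ⟨n, hn⟩ := hsq y hy
  obtain ⟨y', hy'⟩ : ∃ y', y = 2 * y' + 1 := ⟨y / 2, by omega⟩
  have h1 : x * x = d * (8 * n + 1) - 1 := by linear_combination he + d * hn
  rcases Int.emod_two_eq_zero_or_one d with hd2 | hd2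
  · right
    refine ⟨hd2, x * y, ?_, by ring⟩
    rcases Int.emod_two_eq_zero_or_one x with hx | hx
    · exfalso
      obtain ⟨a, ha⟩ : ∃ a, x = 2 * a := ⟨x / 2, by omega⟩
      obtain ⟨k, hk⟩ : ∃ k, d = 2 * k := ⟨d / 2, by omega⟩
      rw [ha, hk] at h1
      have : (1 : ℤ) = 2 * (k * (8 * n + 1) - 2 * a * a) := by linear_combination h1
      omega
    · rw [Int.odd_mul, Int.odd_iff, Int.odd_iff]
      exact ⟨hx, hy⟩
  · left
    refine ⟨hd2, ?_⟩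
    rcases Int.emod_two_eq_zero_or_one x with hx | hx
    · obtain ⟨a, ha⟩ : ∃ a, x = 2 * a := ⟨x / 2, by omega⟩
      refine ⟨a * y, ?_, by rw [ha]; ring⟩
      rw [Int.odd_mul, Int.odd_iff, Int.odd_iff]
      refine ⟨?_, hy⟩
      by_contra hcon
      obtain ⟨a', ha'⟩ : ∃ a', a = 2 * a' := ⟨a / 2, by omega⟩
      rw [ha, ha'] at h1
      have h2 : d - 1 = 8 * (2 * a' * a' - d * n) := by linear_combination -h1
      omega
    · exfalso
      obtain ⟨m, hm⟩ := hsq x hx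
      obtain ⟨k, hk⟩ : ∃ k, d = 2 * k + 1 := ⟨d / 2, by omega⟩
      rw [hm, hk] at h1
      have : (1 : ℤ) = 2 * (k * (8 * n + 1) + 4 * n - 4 * m) := by linear_combination h1
      omega

/-- **No condition on the unit.** -/
theorem tame {d : ℤ} (hd1 : 1 < d) (hsf : Squarefree d)
    (h5 : d % 8 = 5 → ∃ a b : ℤ, Odd a ∧ (a ^ 2 - d * b ^ 2 = 4 ∨ a ^ 2 - d * b ^ 2 = -4))
    {K : Type} [Field K] [NumberField K] (hK : finrank ℚ K = 2) {x : 𝓞 K}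
    (hx : x ^ 2 = (d : 𝓞 K)) (hcl : RamifiedClasses d K)
    {c : ℕ} (hc : d % 2 = 1 ∧ c = 4 ∨ d % 2 = 0 ∧ c = 2) (hk : classNumber K * c ≤ 8)
    {ι₁ ι₂ : K →+* ℝ} (hι : ι₁ ≠ ι₂) {m : Ideal (𝓞 K)} (hm0 : m ≠ ⊥)
    (hm : ∀ 𝔮 : Ideal (𝓞 K), 𝔮.IsPrime → 𝔮 ≠ ⊥ → (𝔮 ∣ m ↔ ((2 * d : ℤ) : 𝓞 K) ∈ 𝔮))
    (hm2 : ∀ p : ℕ, p.Prime → PartDvd p m (Ideal.span {((c : ℤ) : 𝓞 K) * x}) ∨
      p = 2 ∧ (d % 8 = 3 ∨ d % 8 ≠ 1 ∧ ∃ e : ℤ√d, e.norm = -1))
    {H : Type} [Field H] [NumberField H] [Algebra K H] [IsAbelianGalois K H] (i : H →+* ℂ)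
    (hi : InRay ι₁ ι₂ m i) : StarkFor true 1 ι₂ m i := by
  have hd : ¬ IsSquare d := by
    rintro ⟨a, ha⟩
    have h1 := hsf a ⟨1, by rw [ha, mul_one]⟩
    rcases Int.isUnit_iff.1 h1 with h | h <;> rw [h] at ha <;> omega
  have hd4 : d % 4 ≠ 0 := by
    intro h
    have h1 := hsf 2 (by
      rw [show (2 : ℤ) * 2 = 4 by norm_num]
      exact Int.dvd_of_emod_eq_zero h)
    rw [Int.isUnit_iff] at h1
    omega
  let s : {x : 𝓞 K // x * x = (d : 𝓞 K)} := ⟨x, by rw [← pow_two, hx]⟩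
  -- the unit `g`
  obtain ⟨g, w, hg, hgw, hw⟩ : ∃ (g : ℤ√d) (w : ℤ), g.norm = 1 ∧ g.im = c * w ∧
      ((d % 8 = 3 ∨ d % 8 ≠ 1 ∧ ∃ e : ℤ√d, e.norm = -1) → Odd w) := by
    by_cases hd8 : d % 8 = 3 ∨ d % 8 ≠ 1 ∧ ∃ e : ℤ√d, e.norm = -1
    · rcases hd8 with h8 | ⟨h8, e, he⟩
      · obtain ⟨e, h1, h2, h3⟩ := exists_unit_three hK hsf hd s hcl h8
        have hc4 : c = 4 := by
          rcases hc with ⟨-, h⟩ | ⟨h, -⟩
          · exact h
          · omega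
        obtain ⟨ρ, hρ⟩ : ∃ ρ, e.re = 2 * ρ := ⟨e.re / 2, by omega⟩
        refine ⟨e * e, ρ * e.im, ?_, ?_, fun _ => ?_⟩
        · rw [Zsqrtd.norm_mul, h1, one_mul]
        · rw [Zsqrtd.im_mul, hρ, hc4]
          push_cast
          ring
        · rw [Int.odd_mul, Int.odd_iff, Int.odd_iff]
          exact ⟨by omega, h2⟩
      · have hn : (e * e).norm = 1 := by
          rw [Zsqrtd.norm_mul, he]
          norm_num
        rcases square_neg he h8 hd4 with ⟨h1, w, hw, h2⟩ | ⟨h1, w, hw, h2⟩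
        · have hc4 : c = 4 := by
            rcases hc with ⟨-, h⟩ | ⟨h, -⟩
            · exact h
            · omega
          exact ⟨e * e, w, hn, by rw [h2, hc4]; rfl, fun _ => hw⟩
        · have hc2 : c = 2 := by
            rcases hc with ⟨h, -⟩ | ⟨-, h⟩
            · omega
            · exact h
          exact ⟨e * e, w, hn, by rw [h2, hc2]; rfl, fun _ => hw⟩
    · exact ⟨1, 0, Zsqrtd.norm_one, by simp, fun h => absurd h hd8⟩
  have hF : Further d g ∅ (fun _ => 1) :=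
    ⟨by simp, by simp, by simp, by simp, by simp, by simp⟩
  have h := family (k := 0) (δ := 0) (g := g) (w := w) hd1 hsf h5 hK hx hcl hF hg hc
    (Or.inl rfl) (by simpa using hk) ⟨w, hgw⟩ (by simpa using hgw) hι hm0
    (m := m) (fun 𝔮 h1 h2 => by rw [hm 𝔮 h1 h2, Finset.prod_empty, mul_one])
    (fun p hp => by
      rw [Finset.prod_empty, mul_one]
      refine (hm2 p hp).imp_right ?_
      rintro ⟨rfl, h2⟩
      have h3 := Int.odd_iff.1 (hw h2)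
      exact ⟨by push_cast; omega, fun h => by omega⟩) i hi
  simpa using h

end Pool.Agent.EvM
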